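import Pool.Agent.W_448j10_h67.JcC

/-!
**HCC for `m = 5`** (MP_448cb3_co).
-/

namespace Pool.Agent.GaussPoset.J10

set_option linter.unusedSectionVars false

open Finset Wd

universe u

variable {P : Type u} [Fintype P] [PartialOrder P] [DecidableEq P] {r : ℕ}

/-- **There is no element (C) at the level `10`** if there are no joins of the level `11`. -/
theorem no_cc_five {lo hi : Tops P → ℕ → ℕ} {e : Tops P → ℕ → ℕ → P}
    (h : Win.GoodTo P r (2 * 5))
    (C : ∀ t : Tops P, Cp.Comp (2 * 5) (t : P) (lo t) (hi t) (e t))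
    (hS : ∀ t : Tops P, Wd.Shape (2 * 5) (lo t) (hi t))
    (hnj : ∀ z : P, lev z = 2 * 5 + 1 → ¬ Hul.Jn z) {t : Tops P} {z : P}
    (S : StairShape (2 * 5) (lo t) (hi t)) (h0 : lo t (2 * 5) = 0)
    (hz1 : z ⋖ e t (2 * 5) 5) (hz2 : z ⋖ e t (2 * 5) 0) : False :=
  level10 (r := r) ⟨h, by norm_num, by norm_num, C, hS⟩ hnj t S h0 hz1 hz2

end Pool.Agent.GaussPoset.J10
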