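import Pool.Agent.W_448j8_h67.JaG

/-!
Component data from natural sets with several twins (MP_448cb3_co, window 5, level 10).
-/

namespace Pool.Agent.GaussPoset.J10

set_option linter.unusedSectionVars false

open Polynomial Finset Dd J8

universe u

variable {P : Type u} [Fintype P] [PartialOrder P] [DecidableEq P]

/-- twins `y ∈ T` of `tw y ∈ N` -/
structure Tws (i n0 : ℕ) (N T : Finset P) (θ : P → ℕ) (B : P → Prop) (tw : P → P) : Prop where
  out : ∀ y ∈ T, y ∉ N
  mem : ∀ y ∈ T, tw y ∈ N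
  nB : ∀ y ∈ T, ¬ B y
  tp : ∀ y ∈ T, TwinPair i θ n0 (tw y) y
  lt : ∀ y ∈ T, i < Pool.Agent.GaussPoset.lev (tw y)

section

variable {i n0 : ℕ} {N T : Finset P} {θ : P → ℕ} {B : P → Prop} {tw : P → P}

lemma Tws.above (W : Tws i n0 N T θ B tw) (hN : ∀ x ∈ N, ∀ y, x ≤ y → y ∈ N) {y x : P}
    (hy : y ∈ T) (h : y < x) : x ∈ N :=
  hN _ (W.mem y hy) x (((W.tp y hy).up x).mpr h).le

lemma Tws.lev (W : Tws i n0 N T θ B tw) {y : P} (hy : y ∈ T) :
    Pool.Agent.GaussPoset.lev (tw y) = Pool.Agent.GaussPoset.lev y :=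
  lev_eq_of_up (W.tp y hy).up

lemma Tws.up (W : Tws i n0 N T θ B tw) (hN : ∀ x ∈ N, ∀ y, x ≤ y → y ∈ N) :
    ∀ x ∈ N ∪ T, ∀ y, x ≤ y → y ∈ N ∪ T := by
  intro x hx y hxy
  rw [mem_union] at hx ⊢
  rcases hx with hx | hx
  · exact Or.inl (hN x hx y hxy)
  · rcases eq_or_lt_of_le hxy with h | h
    · rw [← h]; exact Or.inr hx
    · exact Or.inl (W.above hN hx h)

/-- no element of `N ∪ T` is strictly below a twin -/
lemma Tws.bot (W : Tws i n0 N T θ B tw) (hN : ∀ x ∈ N, ∀ y, x ≤ y → y ∈ N) {x y : P}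
    (hx : x ∈ T) (hy : y ∈ N ∪ T) (hyx : y ≤ x) : y = x := by
  rcases eq_or_lt_of_le hyx with h | h
  · exact h
  · exfalso
    rw [mem_union] at hy
    rcases hy with hy | hy
    · exact W.out x hx (hN y hy x hyx)
    · exact W.out x hx (W.above hN hy h)

/-- several additional twins -/
theorem twCleanS {p : ℤ[X]} (W : Tws i n0 N T θ B tw) (hN : ∀ x ∈ N, ∀ y, x ≤ y → y ∈ N)
    (hclean : ∀ U ⊆ N, (∀ x ∈ U, ∀ y, x ≤ y → y ∈ U) → (∀ x ∈ N, Pool.Agent.GaussPoset.lev x ≤ i →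
      x ∈ U) → (∀ x ∈ N, B x → x ∈ U) → ∀ n < n0, p ∣ Z {x : P // x ∈ U} i n)
    (hlev : ∀ x ∈ N, 1 ≤ θ x → i < Pool.Agent.GaussPoset.lev x)
    (hbase : ∀ x ∈ N, 1 ≤ θ x → ∀ y ∈ N, y ≤ x → ¬ B y)
    (hstep : ∀ x ∈ N, 1 ≤ θ x → ∀ y ∈ N, y ≤ x → ∀ x', y ⋖ x' → ¬ x' ≤ x → θ x ≤ θ x' + 1) :
    ∀ V ⊆ N ∪ T, (∀ x ∈ V, ∀ y, x ≤ y → y ∈ V) →
      (∀ x ∈ N, Pool.Agent.GaussPoset.lev x ≤ i → x ∈ V) → (∀ x ∈ N, B x → x ∈ V) →
      ∀ n < n0, p ∣ Z {x : P // x ∈ V} i n := by
  classical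
  induction T using Finset.induction_on with
  | empty =>
    intro V hV
    rw [Finset.union_empty] at hV
    exact hclean V hV
  | insert y T hyT ih =>
    have W' : Tws i n0 N T θ B tw := ⟨fun y h => W.out y (mem_insert_of_mem h),
      fun y h => W.mem y (mem_insert_of_mem h), fun y h => W.nB y (mem_insert_of_mem h),
      fun y h => W.tp y (mem_insert_of_mem h), fun y h => W.lt y (mem_insert_of_mem h)⟩
    have ih' := ih W'
    have hyi : y ∈ insert y T := mem_insert_self y T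
    have hup := W'.up hN
    have hlT : ∀ x ∈ T, i < Pool.Agent.GaussPoset.lev x := fun x hx => by
      rw [← W'.lev hx]; exact W'.lt x hx
    intro V hV hVup hVlow hVB
    refine twClean (N := N ∪ T) (B := B) (θ := θ) (y1 := tw y) (y2 := y) hup
      (mem_union_left _ (W.mem y hyi)) ?_ (W.nB y hyi) (W.tp y hyi) (W.lt y hyi) ?_ ?_ ?_ ?_ ?_
      hVup ?_ ?_
    · rw [mem_union, not_or]
      exact ⟨W.out y hyi, hyT⟩
    · intro U hU h1 h2 h3
      exact ih' U hU h1 (fun x hx => h2 x (mem_union_left _ hx))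
        (fun x hx => h3 x (mem_union_left _ hx))
    · intro x hx h1
      rw [mem_union] at hx
      rcases hx with hx | hx
      · exact hlev x hx h1
      · exact hlT x hx
    · intro x hx h1 v hv hvx
      rcases mem_union.mp hx with hx' | hx'
      · rcases mem_union.mp hv with hv' | hv'
        · exact hbase x hx' h1 v hv' hvx
        · exact W'.nB v hv'
      · rw [W'.bot hN hx' hv hvx]
        exact W'.nB x hx'
    · intro x hx h1 v hv hvx x' hvx' hn
      rcases mem_union.mp hx with hx' | hx'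
      · rcases mem_union.mp hv with hv' | hv'
        · exact hstep x hx' h1 v hv' hvx x' hvx' hn
        · have hvx2 : v ≠ x := by
            rintro rfl
            exact W'.out v hv' hx'
          have h3 : tw v ≤ x := (((W'.tp v hv').up x).mpr (lt_of_le_of_ne hvx hvx2)).le
          exact hstep x hx' h1 (tw v) (W'.mem v hv') h3 x'
            ((cov_of_up (W'.tp v hv').up).mpr hvx') hn
      · have h3 := W'.bot hN hx' hv hvx
        subst h3
        have h4 : tw v ⋖ x' := (cov_of_up (W'.tp v hx').up).mpr hvx'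
        have h5 := hstep (tw v) (W'.mem v hx') (W'.tp v hx').one_le (tw v) (W'.mem v hx') le_rfl x'
          h4 (not_le_of_gt h4.1)
        rw [(W'.tp v hx').eq]
        exact h5
    · intro x hx
      have := hV hx
      rw [mem_union, mem_insert] at this
      rw [mem_insert, mem_union]
      tauto
    · intro x hx hl
      rcases mem_union.mp hx with hx | hx
      · exact hVlow x hx hl
      · have := hlT x hx
        omega
    · intro x hx hb
      rcases mem_union.mp hx with hx | hx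
      · exact hVB x hx hb
      · exact absurd hb (W'.nB x hx)

end

/-- **The natural set may be larger, with additional twins.** -/
theorem compL_twins {N : Tops P → Finset P} (HN : NatSys N) {i j b : ℕ} (hij : i ≤ j)
    (hlow : ∀ s : Tops P, lowPart j (s : P) ⊆ N s) {t : Tops P} {N' T : Finset P} {θ' : P → ℕ}
    {B' : P → Prop} (H : NatTop i t b N' θ' B') {θ : P → ℕ} {B : P → Prop} {tw : P → P}
    {n0 : ℕ} (hN' : ∀ x ∈ N t, x ∈ N' ∨ x ∈ T) (hT : ∀ y ∈ T, y ∈ N t ∧ tw y ∈ N t)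
    (hN'low : ∀ x, x ≤ (t : P) → Pool.Agent.GaussPoset.lev x ≤ j → x ∈ N')
    (hB' : ∀ x ∈ N', B' x → x ∈ N t)
    (hθ : ∀ x ∈ N t, x ∉ T → θ x = θ' x) (hθT : ∀ y ∈ T, θ y = θ' (tw y))
    (hB : ∀ x ∈ N t, x ∉ T → (B x ↔ B' x)) (hBT : ∀ y ∈ T, ¬ B y)
    {θ0 : P → ℕ} (h0 : ∀ x, x ∉ T → θ0 x = θ' x) (h0T : ∀ y ∈ T, θ0 y = θ' (tw y))
    (W : Tws i n0 N' T θ0 (fun x => x ∈ N' ∧ B' x) tw) :
    CompDataL (unnat N) topOf t i b n0 θ B := by
  classical
  have HM := natSys_upd HN H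
  have hup := H.up
  have hmem : ∀ {x}, x ∉ unnat N → topOf x = t → x ∈ N t := fun {x} h1 h2 =>
    HN.mem_iff.mpr ⟨h1, h2⟩
  have hsubM : ∀ x ∈ N', x ∉ unnat (upd N t N') := fun x hx h =>
    mem_unnat.mp h t (by rw [upd_self]; exact hx)
  have htop : ∀ x ∈ N', topOf x = t := fun x hx =>
    HM.topOf_eq (by rw [upd_self]; exact hx)
  have hC := H.data _ HM (upd_self N t N') θ' (fun x => x ∈ N' ∧ B' x) (fun _ _ => rfl)
    (fun x hx => ⟨fun h => h.2, fun h => ⟨hx, h⟩⟩)
  have f_lev : ∀ x ∈ N', 1 ≤ θ' x → i < Pool.Agent.GaussPoset.lev x := fun x hx =>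
    hC.lev x (hsubM x hx) (htop x hx)
  have f_base : ∀ x ∈ N', 1 ≤ θ' x → ∀ y ∈ N', y ≤ x → ¬ B' y := fun x hx h1 y hy hyx hby =>
    hC.base x (hsubM x hx) (htop x hx) h1 y hyx (hsubM y hy) ⟨hy, hby⟩
  have f_step : ∀ x ∈ N', 1 ≤ θ' x → ∀ y ∈ N', y ≤ x → ∀ x', y ⋖ x' → ¬ x' ≤ x →
      θ' x ≤ θ' x' + 1 := fun x hx h1 y hy hyx x' hyx' hn =>
    hC.step x (hsubM x hx) (htop x hx) h1 y hyx (hsubM y hy) x'
      (hsubM x' (hup y hy x' hyx'.1.le)) hyx' hn
  have f_le : ∀ x ∈ N', θ' x ≤ Pool.Agent.GaussPoset.lev x - i := fun x hx =>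
    hC.le x (hsubM x hx) (htop x hx)
  have hnT : ∀ x ∈ N', x ∉ T := fun x hx h => W.out x h hx
  have hlowM : ∀ x ∈ unnat (upd N t N'), i < Pool.Agent.GaussPoset.lev x := by
    intro x hx
    by_contra hcon
    rw [mem_unnat] at hx
    by_cases h : topOf x = t
    · refine hx t ?_
      rw [upd_self]
      exact hN'low x (by rw [← h]; exact le_topOf x) (by omega)
    · refine hx (topOf x) ?_
      rw [upd_ne N N' h]
      exact hlow _ (mem_lowPart.mpr ⟨le_topOf x, by omega⟩)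
  have hcv : ∀ y ∈ T, ∀ x, y < x → x ∈ N' := fun y hy x h => W.above hup hy h
  have hbot : ∀ y ∈ T, ∀ x ∈ N t, x ≤ y → x = y := by
    intro y hy x hx hxy
    refine W.bot hup hy ?_ hxy
    rw [mem_union]
    exact hN' x hx
  constructor
  · intro D hD hdec n hn
    let V : Finset P := (N t).filter (fun x => x ∉ D)
    have hV : ∀ x, x ∈ V ↔ x ∈ N t ∧ x ∉ D := fun x => by simp [V]
    have hiso : {x : P // x ∈ V} ≃o {x : {x : P // x ∉ D} // topOf (x : P) = t} :=
      { toFun := fun x => ⟨⟨x, ((hV x).mp x.2).2⟩, HN.topOf_eq ((hV x).mp x.2).1⟩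
        invFun := fun x => ⟨x.1.1, (hV _).mpr ⟨hmem (fun h => x.1.2 (hD.2.1 h)) x.2, x.1.2⟩⟩
        left_inv := fun x => rfl
        right_inv := fun x => rfl
        map_rel_iff' := Iff.rfl }
    rw [← Z_iso hiso]
    refine twCleanS (B := fun x => x ∈ N' ∧ B' x) (θ := θ0) W hup ?_ ?_ ?_ ?_ V ?_ ?_ ?_ ?_ n hn
    · intro U hUN hUup hUlow hUB n' _
      exact natClean H HM (upd_self N t N') hlowM hUN hUup hUlow
        (fun x hx hb => hUB x hx ⟨hx, hb⟩) n'
    · intro x hx hθx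
      rw [h0 x (hnT x hx)] at hθx
      exact f_lev x hx hθx
    · intro x hx hθx y hy hyx hby
      rw [h0 x (hnT x hx)] at hθx
      exact f_base x hx hθx y hy hyx hby.2
    · intro x hx hθx y hy hyx x' hyx' hn'
      have hx' := hup y hy x' hyx'.1.le
      rw [h0 x (hnT x hx)] at hθx ⊢
      rw [h0 x' (hnT x' hx')]
      exact f_step x hx hθx y hy hyx x' hyx' hn'
    · intro x hx
      rw [hV] at hx
      rw [mem_union]
      exact hN' x hx.1
    · intro x hx y hxy
      rw [hV] at hx ⊢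
      exact ⟨HN.up t x hx.1 y hxy, fun h => hx.2 (hD.1 x y hxy h)⟩
    · intro x hx hl
      rw [hV]
      refine ⟨hlow t (mem_lowPart.mpr ⟨H.le_t x hx, by omega⟩), fun h => ?_⟩
      have := hD.2.2.1 x h
      omega
    · rintro x hx ⟨-, hb⟩
      rw [hV]
      have h3 := hB' x hx hb
      exact ⟨h3, fun h => hD.2.2.2 x h ((hB x h3 (hnT x hx)).mpr hb)⟩
  · intro x hx hk hθx
    have hxN := hmem hx hk
    by_cases hxT : x ∈ T
    · rw [← W.lev hxT]; exact W.lt x hxT
    · rw [hθ x hxN hxT] at hθx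
      exact f_lev x ((hN' x hxN).resolve_right hxT) hθx
  · intro x hx hk hθx y hyx hy' hBy
    have hxN := hmem hx hk
    have hyN := hmem hy' ((HN.cp y x hyx hy').trans hk)
    by_cases hxT : x ∈ T
    · rw [hbot x hxT y hyN hyx] at hBy
      exact hBT x hxT hBy
    · have hx' := (hN' x hxN).resolve_right hxT
      rw [hθ x hxN hxT] at hθx
      by_cases hyT : y ∈ T
      · exact hBT y hyT hBy
      · exact f_base x hx' hθx y ((hN' y hyN).resolve_right hyT) hyx ((hB y hyN hyT).mp hBy)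
  · intro x hx hk hθx y hyx hy' x' hx' hyx' hn
    have hxN := hmem hx hk
    have hyt : topOf y = t := (HN.cp y x hyx hy').trans hk
    have hyN := hmem hy' hyt
    have hx'N := hmem hx' ((HN.cp y x' hyx'.1.le hy').symm.trans hyt)
    by_cases hxT : x ∈ T
    · have h3 := hbot x hxT y hyN hyx
      subst h3
      have h4 : tw y ⋖ x' := (cov_of_up (W.tp y hxT).up).mpr hyx'
      have h6 := hcv y hxT x' hyx'.1
      have h7 : 1 ≤ θ' (tw y) := by rw [← hθT y hxT]; exact hθx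
      have h5 := f_step (tw y) (W.mem y hxT) h7 (tw y) (W.mem y hxT) le_rfl x'
        h4 (not_le_of_gt h4.1)
      rw [hθT y hxT, hθ x' hx'N (hnT x' h6)]
      exact h5
    · have hxN' := (hN' x hxN).resolve_right hxT
      rw [hθ x hxN hxT] at hθx ⊢
      by_cases hyT : y ∈ T
      · have h3 := hcv y hyT x' hyx'.1
        rw [hθ x' hx'N (hnT x' h3)]
        have h5 : y ≠ x := by
          rintro rfl
          exact hxT hyT
        have h6 : tw y ≤ x := (((W.tp y hyT).up x).mpr (lt_of_le_of_ne hyx h5)).le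
        exact f_step x hxN' hθx (tw y) (W.mem y hyT) h6 x'
          ((cov_of_up (W.tp y hyT).up).mpr hyx') hn
      · have hyN' := (hN' y hyN).resolve_right hyT
        have hx'N' := hup y hyN' x' hyx'.1.le
        rw [hθ x' hx'N (hnT x' hx'N')]
        exact f_step x hxN' hθx y hyN' hyx x' hyx' hn
  · intro x hx hk
    have hxN := hmem hx hk
    by_cases hxT : x ∈ T
    · rw [hθT x hxT, ← W.lev hxT]
      exact f_le _ (W.mem x hxT)
    · rw [hθ x hxN hxT]
      exact f_le x ((hN' x hxN).resolve_right hxT)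

end Pool.Agent.GaussPoset.J10
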