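import Pool.Agent.W_448s14_h94.SgF

/-!
Signed certificates of coded up-sets (MP_448cb3_co).
-/

namespace Pool.Agent.GaussPoset.J10

set_option linter.unusedSectionVars false

open Polynomial Finset Cl Dd Sg

/-- the signed coefficient -/
def sc (b : Bool) (c : ℕ) : ℤ := bif b then -(c : ℤ) else (c : ℤ)

lemma sc_zero (b : Bool) : sc b 0 = 0 := by cases b <;> simp [sc]

/-- the lowest coefficient of the sum, signed -/
theorem poly_lowS {B i0 n K J ℓ M n3 c : ℕ} {s : Bool} (b : Bool) {Us : List ℕ} (hJ : J ∈ Us)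
    (hM : M ≤ K) (hs : s = xor b (decide (M % 2 = 0)))
    (h1 : chkL B i0 ((List.range' 1 (K + 1)).map (stR n B Us)) s J ℓ M (n3 + pc n J) c = true)
    (h2 : chkS B c ((List.range' 1 (K + 1)).map (stR n 1 Us)) J M = true) :
    X ^ n3 ∣ (∑ m ∈ range (M + 1), (-1) ^ m * ((uR n (X : ℕ[X]) Us J m).map (Nat.castRingHom ℤ) *
      Eo ℓ M i0 1 m)) ∧
    (∑ m ∈ range (M + 1), (-1) ^ m * ((uR n (X : ℕ[X]) Us J m).map (Nat.castRingHom ℤ) *
      Eo ℓ M i0 1 m)).coeff n3 = sc b c := by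
  have h2' : (∑ m ∈ range (M + 1), uR n 1 Us J m) * 2 ^ (2 * M) + c < B := by
    unfold chkS at h2
    rw [take_range' _ _ _ _ (by omega), sumU_eq] at h2
    have h3 := Nat.blt_eq.mp h2
    refine lt_of_le_of_lt (le_of_eq ?_) h3
    show _ = (∑ k ∈ range (M + 1), _) * 2 ^ (2 * M) + c
    congr 2
    refine Finset.sum_congr rfl fun k _ => ?_
    rw [Nat.add_comm 1 k, lk_stR _ _ hJ, one_pow, one_mul]
  have hB : 1 ≤ B := by omega
  have hdom : Dom (∑ m ∈ range (M + 1), (-1) ^ m *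
      ((uR n (X : ℕ[X]) Us J m).map (Nat.castRingHom ℤ) * Eo ℓ M i0 1 m))
      (∑ m ∈ range (M + 1), (uR n (X : ℕ[X]) Us J m * eQ ℓ M i0 1 m)) := by
    refine Dom.sum _ fun m _ => ?_
    have h3 := Dom.mul (Dom.cast (uR n (X : ℕ[X]) Us J m)) (eo_dom ℓ M i0 1 m)
    rcases Nat.even_or_odd m with hm | hm
    · rw [hm.neg_one_pow, one_mul]; exact h3
    · rw [hm.neg_one_pow, neg_one_mul]; exact h3.neg
  have hsize : (∑ m ∈ range (M + 1), (uR n (X : ℕ[X]) Us J m * eQ ℓ M i0 1 m)).eval 1 + c < B := by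
    rw [eval_finsetSum]
    refine lt_of_le_of_lt (le_of_eq ?_) h2'
    rw [Finset.sum_mul]
    congr 1
    refine Finset.sum_congr rfl fun m hm => ?_
    rw [mem_range] at hm
    rw [eval_mul, eQ_eval (by omega)]
    congr 1
    have := uR_map (evalRingHom 1) n (X : ℕ[X]) Us J m
    rw [coe_evalRingHom, eval_X] at this
    exact this
  set Q : ℤ[X] := ∑ m ∈ range (M + 1), (-1) ^ m *
      ((uR n (X : ℕ[X]) Us J m).map (Nat.castRingHom ℤ) * Eo ℓ M i0 1 m) with hQ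
  have hBz : (B : ℤ) ^ pc n J ≠ 0 := pow_ne_zero _ (by positivity)
  -- the value
  have hval : (B : ℤ) ^ pc n J * Q.eval (B : ℤ) =
      ∑ k ∈ range (M + 1), (-1) ^ k * ((lk J (stR n B Us (1 + k)) : ℤ) *
        eo B ℓ M i0 1 (0 + k)) := by
    rw [hQ, eval_finsetSum, Finset.mul_sum]
    refine Finset.sum_congr rfl fun m _ => ?_
    have h4 := uR_map (evalRingHom (B : ℕ)) n (X : ℕ[X]) Us J m
    rw [coe_evalRingHom, eval_X] at h4
    have h6 : ((uR n (X : ℕ[X]) Us J m).map (Nat.castRingHom ℤ)).eval (B : ℤ) =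
        ((uR n B Us J m : ℕ) : ℤ) := by
      rw [← h4, eval_map]
      have h5 := Polynomial.eval₂_at_natCast (p := uR n (X : ℕ[X]) Us J m)
        (Nat.castRingHom ℤ) B
      simpa using h5
    rw [eval_mul, eval_pow, eval_neg, eval_one, eval_mul, h6, eo_eval hB, Nat.add_comm 1 m,
      lk_stR _ _ hJ, Nat.zero_add]
    push_cast
    ring
  have hpair := altP_eq (eo B ℓ M i0 1) J (stR n B Us) (M + 1) 0 1 0 0
  rw [Nat.cast_zero, sub_zero, zero_add, ← hval] at hpair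
  unfold chkL at h1
  rw [take_range' _ _ _ _ (by omega)] at h1
  set p := altP (eo B ℓ M i0 1) J 0 ((List.range' 1 (M + 1)).map (stR n B Us)) 0 0 with hp
  have key : ∀ x y : ℕ, cmpP B (n3 + pc n J) c (x, y) = true →
      (B : ℤ) ^ (n3 + pc n J + 1) ∣ (x : ℤ) - y - c * (B : ℤ) ^ (n3 + pc n J) := by
    intro x y h
    have h3 : (y + c * B ^ (n3 + pc n J)) ≡ x [MOD B ^ (n3 + pc n J + 1)] :=
      Nat.eq_of_beq_eq_true h
    have h4 := (Nat.modEq_iff_dvd.mp h3)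
    push_cast at h4
    convert h4 using 1
    ring
  have h5 : (B : ℤ) ^ (n3 + pc n J + 1) = (B : ℤ) ^ pc n J * (B : ℤ) ^ (n3 + 1) := by
    rw [← pow_add]
    congr 1
    omega
  have h6 : (c : ℤ) * (B : ℤ) ^ (n3 + pc n J) = (B : ℤ) ^ pc n J * (c * (B : ℤ) ^ n3) := by
    rw [pow_add]
    ring
  have hpos : ∀ x y : ℕ, cmpP B (n3 + pc n J) c (x, y) = true →
      (B : ℤ) ^ pc n J * Q.eval (B : ℤ) = (x : ℤ) - y → X ^ n3 ∣ Q ∧ Q.coeff n3 = c := by
    intro x y h h'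
    have h7 := key x y h
    rw [← h', h5, h6, ← mul_sub] at h7
    exact coeff_of_eval hdom hsize ((mul_dvd_mul_iff_left hBz).mp h7)
  have hneg : ∀ x y : ℕ, cmpP B (n3 + pc n J) c (x, y) = true →
      (B : ℤ) ^ pc n J * Q.eval (B : ℤ) = (y : ℤ) - x → X ^ n3 ∣ Q ∧ Q.coeff n3 = -c := by
    intro x y h h'
    have h7 := key x y h
    have h8 : (x : ℤ) - y = (B : ℤ) ^ pc n J * (-Q).eval (B : ℤ) := by
      rw [eval_neg, mul_neg, h']
      ring
    rw [h8, h5, h6, ← mul_sub] at h7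
    obtain ⟨h9, h10⟩ := coeff_of_eval hdom.neg hsize ((mul_dvd_mul_iff_left hBz).mp h7)
    refine ⟨(dvd_neg).mp h9, ?_⟩
    rw [coeff_neg] at h10
    omega
  subst hs
  rcases Nat.even_or_odd M with hM' | hM'
  · have h3 : M % 2 = 0 := Nat.even_iff.mp hM'
    rw [pow_succ, hM'.neg_one_pow] at hpair
    cases b
    · simp only [h3, decide_true, Bool.xor_true, Bool.not_false] at h1
      exact hpos p.2 p.1 h1 (by linarith)
    · simp only [h3, decide_true, Bool.xor_true, Bool.not_true] at h1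
      exact hneg p.1 p.2 h1 (by linarith)
  · have h3 : M % 2 = 1 := Nat.odd_iff.mp hM'
    rw [pow_succ, hM'.neg_one_pow] at hpair
    cases b
    · simp only [h3, one_ne_zero, decide_false, Bool.xor_false] at h1
      exact hpos p.1 p.2 h1 (by linarith)
    · simp only [h3, one_ne_zero, decide_false, Bool.xor_false] at h1
      exact hneg p.2 p.1 h1 (by linarith)

/-- the check of a signed list: `(sign, J, ℓ, M, n3, c)` -/
def polD (N B K : ℕ) (Us : List ℕ) (i0 : ℕ) (PL : List (Bool × (ℕ × ℕ × ℕ × ℕ × ℕ))) : Bool :=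
  ((fun h => PL.all fun x => chkL B i0 h (xor x.1 (decide (x.2.2.2.1 % 2 = 0))) x.2.1 x.2.2.1
    x.2.2.2.1 (x.2.2.2.2.1 + pc N x.2.1) x.2.2.2.2.2)
    (hist (ws N B Us) K (stp (ws N B Us) (ini Us)))) &&
  ((fun h => PL.all fun x => chkS B x.2.2.2.2.2 h x.2.1 x.2.2.2.1)
    (hist (ws N 1 Us) K (stp (ws N 1 Us) (ini Us))))

/-- `chkL`, signed -/
noncomputable def chkG (B i0 : ℕ) (h : List (List (ℕ × ℕ))) (b : Bool) (J ℓ M N c : ℕ) : Bool :=
  (fun p : ℕ × ℕ => @Bool.rec (fun _ => Bool) (cmpP B N c p) (cmpP B N c p.swap)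
    (@Bool.rec (fun _ => Bool) (Nat.beq (M % 2) 0) (Nat.beq (M % 2) 1) b))
    (altF (eoF B ℓ M i0) J (M + 1) h 0 0 0)

lemma chkG_eq (B i0 : ℕ) (h : List (List (ℕ × ℕ))) (b : Bool) (J ℓ M N c : ℕ) :
    chkG B i0 h b J ℓ M N c = chkL B i0 h (xor b (decide (M % 2 = 0))) J ℓ M N c := by
  have hee : eoF B ℓ M i0 = eo B ℓ M i0 1 := by
    funext m
    exact eoF_eq B ℓ M i0 m
  unfold chkG chkL
  rw [altF_eq, hee]
  by_cases hM : M % 2 = 0
  · cases b
    · simp only [hM, decide_true, Bool.xor_true, Bool.not_false]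
      rfl
    · simp only [hM, decide_true, Bool.xor_true, Bool.not_true]
      rfl
  · have hM1 : M % 2 = 1 := by omega
    cases b
    · simp only [hM1, one_ne_zero, decide_false, Bool.xor_false]
      rfl
    · simp only [hM1, one_ne_zero, decide_false, Bool.xor_false]
      rfl

/-- the fast check, first part -/
noncomputable def polG1 (N B K : ℕ) (Us : List ℕ) (i0 : ℕ)
    (PL : List (Bool × (ℕ × ℕ × ℕ × ℕ × ℕ))) : Bool :=
  (fun W => (fun h => allF (fun x => chkG B i0 h x.1 x.2.1 x.2.2.1 x.2.2.2.1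
    (x.2.2.2.2.1 + pc N x.2.1) x.2.2.2.2.2) PL) (histF W K (stpF W (ini Us)))) (ws N B Us)

/-- the fast check, second part -/
noncomputable def polG2 (N B K : ℕ) (Us : List ℕ) (PL : List (Bool × (ℕ × ℕ × ℕ × ℕ × ℕ))) :
    Bool :=
  (fun W => (fun h => allF (fun x => Nat.blt (Nat.add (sumF x.2.1 (x.2.2.2.1 + 1) h *
    2 ^ (2 * x.2.2.2.1)) x.2.2.2.2.2) B) PL) (histF W K (stpF W (ini Us)))) (ws N 1 Us)

theorem polD_of_fast {N B K : ℕ} {Us : List ℕ} {i0 : ℕ} {PL : List (Bool × (ℕ × ℕ × ℕ × ℕ × ℕ))}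
    (h1 : polG1 N B K Us i0 PL = true) (h2 : polG2 N B K Us PL = true) :
    polD N B K Us i0 PL = true := by
  unfold polD
  unfold polG1 at h1
  unfold polG2 at h2
  simp only [allF_eq, histF_eq, stpF_eq, chkG_eq, sumF_eq] at h1 h2
  rw [Bool.and_eq_true]
  exact ⟨h1, h2⟩

end Pool.Agent.GaussPoset.J10
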