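import Pool.Agent.W_448s14_h94.SgG
import Pool.Agent.W_448j10_h67.JbO

/-!
Coded components with missing cells: the code of a part of a master poset (MP_448cb3_co).
-/

namespace Pool.Agent.GaussPoset.J10

set_option linter.unusedSectionVars false

open Polynomial Finset Cl Dd Sg

universe u

variable {P : Type u} [Fintype P] [PartialOrder P] [DecidableEq P]

/-- a coded part of the poset: the cells `c a` with `a` a bit of `J0` -/
structure CodM (N J0 : ℕ) (cv lv : ℕ → ℕ) (c : ℕ → P) : Prop where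
  lt : J0 < 2 ^ N
  clo : ∀ a, J0.testBit a = true → Nat.land (cv a) J0 = cv a
  inj : ∀ a, J0.testBit a = true → ∀ b, J0.testBit b = true → c a = c b → a = b
  cov : ∀ a, J0.testBit a = true → ∀ y, c a ⋖ y ↔
    ∃ b, J0.testBit b = true ∧ (cv a).testBit b = true ∧ c b = y
  lev : ∀ a, J0.testBit a = true → GaussPoset.lev (c a) = lv a

/-- inclusion of masks -/
def Sm (I J : ℕ) : Prop := ∀ a, I.testBit a = true → J.testBit a = true

lemma sm_iff {I J : ℕ} : Nat.land I J = I ↔ Sm I J := by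
  constructor
  · intro h a ha
    have h1 : (I &&& J).testBit a = true := by
      rw [show I &&& J = I from h]; exact ha
    rw [Nat.testBit_land, Bool.and_eq_true] at h1
    exact h1.2
  · intro h
    show I &&& J = I
    refine Nat.eq_of_testBit_eq fun a => ?_
    rw [Nat.testBit_land]
    cases h1 : I.testBit a
    · rfl
    · rw [h a h1]; rfl

lemma bit_lt {J N a : ℕ} (hJ : J < 2 ^ N) (ha : J.testBit a = true) : a < N := by
  by_contra hcon
  rw [Nat.testBit_lt_two_pow (lt_of_lt_of_le hJ (Nat.pow_le_pow_right (by norm_num)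
    (by omega)))] at ha
  exact absurd ha (by simp)

lemma Sm.lt {I J N : ℕ} (h : Sm I J) (hJ : J < 2 ^ N) : I < 2 ^ N := by
  refine Nat.lt_pow_two_of_testBit I fun i hi => ?_
  by_contra hcon
  have h1 := h i (by simpa using hcon)
  have := bit_lt hJ h1
  omega

lemma Sm.trans {I J K : ℕ} (h : Sm I J) (h' : Sm J K) : Sm I K := fun a ha => h' a (h a ha)

section Code

variable {N J0 : ℕ} {cv lv : ℕ → ℕ} {c : ℕ → P} {Us : List ℕ}

lemma CodM.mem_iff (C : CodM N J0 cv lv c) {J a : ℕ} (hJ : Sm J J0) (ha : J0.testBit a = true) :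
    c a ∈ toS N c J ↔ J.testBit a = true := by
  rw [mem_toS]
  constructor
  · rintro ⟨b, hb, h1, h2⟩
    rw [← C.inj b (hJ b h1) a ha h2]; exact h1
  · intro h
    exact ⟨a, bit_lt C.lt ha, h, rfl⟩

lemma CodM.card (C : CodM N J0 cv lv c) {J : ℕ} (hJ : Sm J J0) :
    (toS N c J).card = pc N J := by
  rw [pc_eq]
  unfold toS
  rw [Finset.card_image_of_injOn]
  intro a ha b hb h
  rw [Finset.mem_coe, mem_filter, mem_range] at ha hb
  exact C.inj a (hJ a ha.2) b (hJ b hb.2) h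

lemma CodM.sub_iff (C : CodM N J0 cv lv c) {I J : ℕ} (hI : Sm I J0) (hJ : Sm J J0) :
    Nat.land I J = I ↔ toS N c I ⊆ toS N c J := by
  rw [sm_iff]
  constructor
  · intro h x hx
    obtain ⟨a, ha, h1, rfl⟩ := mem_toS.mp hx
    exact (C.mem_iff hJ (hI a h1)).mpr (h a h1)
  · intro h a h1
    exact (C.mem_iff hJ (hI a h1)).mp (h ((C.mem_iff hI (hI a h1)).mpr h1))

lemma CodM.inj' (C : CodM N J0 cv lv c) {I J : ℕ} (hI : Sm I J0) (hJ : Sm J J0)
    (h : toS N c I = toS N c J) : I = J := by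
  have h1 := (C.sub_iff hI hJ).mpr h.subset
  have h2 := (C.sub_iff hJ hI).mpr h.symm.subset
  have h3 : Nat.land I J = Nat.land J I := Nat.land_comm I J
  rw [h1, h2] at h3
  exact h3

lemma CodM.up (C : CodM N J0 cv lv c) (hU : UsOK N cv Us) {J : ℕ} (hJ : J ∈ Us)
    (hJ0 : Sm J J0) : Up (toS N c J) := by
  refine Cl.up_of_cov fun x hx y hxy => ?_
  obtain ⟨a, ha, h1, rfl⟩ := mem_toS.mp hx
  obtain ⟨b, hb, h2, rfl⟩ := (C.cov a (hJ0 a h1) y).mp hxy
  rw [C.mem_iff hJ0 hb]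
  exact sm_iff.mp (hU.valid J hJ a ha h1) b h2

/-- every up-set has a code -/
lemma CodM.exists_code (C : CodM N J0 cv lv c) (hU : UsOK N cv Us) {I : Finset P}
    (hI : ∀ x ∈ I, ∃ a, J0.testBit a = true ∧ c a = x) (hup : Up I) :
    ∃ J ∈ Us, Sm J J0 ∧ toS N c J = I := by
  classical
  set J : ℕ := Nat.ofBits (fun a : Fin N => decide (J0.testBit a = true ∧ c a ∈ I)) with hJ
  have hJn : J < 2 ^ N := Nat.ofBits_lt_two_pow _
  have hbit : ∀ a, J.testBit a = true ↔ J0.testBit a = true ∧ c a ∈ I := by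
    intro a
    by_cases ha : a < N
    · rw [hJ, Nat.testBit_ofBits_lt _ _ ha]
      simp
    · constructor
      · intro h
        exact absurd (bit_lt hJn h) ha
      · rintro ⟨h, -⟩
        exact absurd (bit_lt C.lt h) ha
  refine ⟨J, ?_, fun a ha => ((hbit a).mp ha).1, ?_⟩
  · refine hU.mem le_rfl hJn fun a ha h1 => ?_
    rw [sm_iff]
    intro b h2
    obtain ⟨h3, h4⟩ := (hbit a).mp h1
    have h5 : J0.testBit b = true := sm_iff.mp (C.clo a h3) b h2
    exact (hbit b).mpr ⟨h5, hup _ h4 _ ((C.cov a h3 (c b)).mpr ⟨b, h5, h2, rfl⟩).le⟩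
  · ext x
    rw [mem_toS]
    constructor
    · rintro ⟨a, ha, h1, rfl⟩
      exact ((hbit a).mp h1).2
    · intro hx
      obtain ⟨a, ha, rfl⟩ := hI x hx
      exact ⟨a, bit_lt C.lt ha, (hbit a).mpr ⟨ha, hx⟩, rfl⟩

/-- the values of the up-sets -/
theorem CodM.V_eq (C : CodM N J0 cv lv c) (hU : UsOK N cv Us) (m : ℕ) :
    ∀ J ∈ Us, Sm J J0 → V m (toS N c J) =
      (uR N (X : ℕ[X]) Us J m).map (Nat.castRingHom ℤ) := by
  classical
  induction m with
  | zero =>
    intro J _ _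
    have h1 : uR N (X : ℕ[X]) Us J 0 = ∑ I ∈ Us.toFinset.filter
        (fun I => Nat.land I J = I), (if I = 0 then 1 else 0) := by
      unfold uR
      simp only [stR]
      exact row_list J (fun I => if I = 0 then 1 else 0) Us hU.nodup
    have h2 : (0 : ℕ) ∈ Us.toFinset.filter (fun I => Nat.land I J = I) := by
      rw [mem_filter, List.mem_toFinset]
      exact ⟨hU.zero, Nat.zero_and J⟩
    rw [h1, V_zero, Finset.sum_ite_eq' _ 0, if_pos h2, Polynomial.map_one]
  | succ m ih =>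
    intro J hJ hJ0
    have h1 : uR N (X : ℕ[X]) Us J (m + 1) = ∑ I ∈ Us.toFinset.filter
        (fun I => Nat.land I J = I), X ^ pc N I * uR N X Us I m := by
      unfold uR
      simp only [stR]
      exact row_list J (fun I => X ^ pc N I * row I (stR N X Us m)) Us hU.nodup
    rw [h1, V_succ, Polynomial.map_sum]
    symm
    have hlt : ∀ I, Nat.land I J = I → Sm I J0 := fun I h => (sm_iff.mp h).trans hJ0
    refine Finset.sum_bij (fun I _ => toS N c I) ?_ ?_ ?_ ?_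
    · intro I hI
      rw [mem_filter, List.mem_toFinset] at hI
      rw [mem_filter, mem_powerset]
      exact ⟨(C.sub_iff (hlt I hI.2) hJ0).mp hI.2, C.up hU hI.1 (hlt I hI.2)⟩
    · intro I hI I' hI' h
      rw [mem_filter] at hI hI'
      exact C.inj' (hlt I hI.2) (hlt I' hI'.2) h
    · intro I hI
      rw [mem_filter, mem_powerset] at hI
      obtain ⟨I', h2, h3, h4⟩ := C.exists_code hU (I := I) (fun x hx => by
        obtain ⟨a, ha, hb, h⟩ := mem_toS.mp (hI.1 hx)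
        exact ⟨a, hJ0 a hb, h⟩) hI.2
      refine ⟨I', ?_, h4⟩
      rw [mem_filter, List.mem_toFinset]
      refine ⟨h2, (C.sub_iff h3 hJ0).mpr ?_⟩
      rw [h4]
      exact hI.1
    · intro I hI
      rw [mem_filter, List.mem_toFinset] at hI
      have h2 := hlt I hI.2
      rw [Polynomial.map_mul, Polynomial.map_pow, Polynomial.map_X, C.card h2,
        ih I hI.1 h2]

/-- sums over a coded set -/
lemma CodM.sum_lev (C : CodM N J0 cv lv c) {J : ℕ} (hJ : Sm J J0) (g : ℕ → ℕ) :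
    ∑ x ∈ toS N c J, g (GaussPoset.lev x) =
      ∑ a ∈ (range N).filter (fun a => J.testBit a = true), g (lv a) := by
  classical
  unfold toS
  rw [Finset.sum_image]
  · refine Finset.sum_congr rfl fun a ha => ?_
    rw [mem_filter, mem_range] at ha
    rw [C.lev a (hJ a ha.2)]
  · intro a ha b hb h
    rw [Finset.mem_coe, mem_filter, mem_range] at ha hb
    exact C.inj a (hJ a ha.2) b (hJ b hb.2) h

/-- the value at the energy `n0` of a coded up-set -/
theorem CodM.val (C : CodM N J0 cv lv c) (hU : UsOK N cv Us) {B i0 K n0 : ℕ}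
    {PL : List (Bool × (ℕ × ℕ × ℕ × ℕ × ℕ))} (h : polD N B K Us i0 PL = true)
    {x : Bool × (ℕ × ℕ × ℕ × ℕ × ℕ)}
    (hx : x ∈ PL) (hJ : x.2.1 ∈ Us) (hJ0 : Sm x.2.1 J0) (hnum : numC N K i0 n0 lv x.2 = true) :
    (∀ n' < n0, (1 + X : ℤ[X]) ^ 2 ∣ Z {y : P // y ∈ toS N c x.2.1} i0 n') ∧
      ∃ s : ℤ[X], Z {y : P // y ∈ toS N c x.2.1} i0 n0 = (1 + X) * s ∧
        s.eval (-1) = sgn x.2.2.1 x.2.2.2.1 i0 * sc x.1 x.2.2.2.2.2 := by
  obtain ⟨b, J, ℓ, M, n3, c0⟩ := x
  simp only at hx hJ hJ0 ⊢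
  unfold numC at hnum
  simp only [Bool.and_eq_true] at hnum
  obtain ⟨⟨⟨⟨g1, g2⟩, g3⟩, g4⟩, g5⟩ := hnum
  have g1 := Nat.le_of_ble_eq_true g1
  have g2 := Nat.blt_eq.mp g2
  have g3 := Nat.le_of_ble_eq_true g3
  have g5 := of_decide_eq_true g5
  rw [List.any_eq_true] at g4
  obtain ⟨a, ha, hab⟩ := g4
  rw [Bool.and_eq_true] at hab
  unfold polD at h
  rw [Bool.and_eq_true] at h
  obtain ⟨h1, h2⟩ := h
  rw [hist_one hU] at h1 h2
  simp only [List.all_eq_true] at h1 h2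
  have k1 := h1 _ hx
  have k2 := h2 _ hx
  simp only at k1 k2 g1 g2 g3 g5 hab
  have hup := C.up hU hJ hJ0
  have h5 : ∀ m, U {x : P // x ∈ toS N c J} m =
      (uR N (X : ℕ[X]) Us J m).map (Nat.castRingHom ℤ) := fun m => by
    rw [U_eq_V hup, C.V_eq hU m J hJ hJ0]
  have hlow := poly_lowS (n := N) (ℓ := ℓ) b hJ g1 rfl k1 k2
  simp only [← h5] at hlow
  have ha0 := hJ0 a hab.1
  have hlv : ∀ x : {x : P // x ∈ toS N c J}, GaussPoset.lev x = GaussPoset.lev (x : P) :=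
    lev_subtype (p := fun x => x ∈ toS N c J) (fun x y hxy hx => hup x hx y hxy)
  have hxx : ∀ i < ℓ, ∃ x : {x : P // x ∈ toS N c J}, i ≤ GaussPoset.lev x := by
    intro i hi
    refine ⟨⟨c a, (C.mem_iff hJ0 ha0).mpr hab.1⟩, ?_⟩
    rw [hlv, C.lev a ha0]
    have := Nat.le_of_ble_eq_true hab.2
    omega
  have hcd : Fintype.card {x : P // x ∈ toS N c J} = pc N J := by
    rw [Fintype.card_coe, C.card hJ0]
  obtain ⟨V, hV⟩ := dvd_W_one (Q := {x : P // x ∈ toS N c J}) (i := i0) (hxx i0 g2)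
  have hM0 : M0 {x : P // x ∈ toS N c J} i0 =
      ∑ a ∈ (range N).filter (fun a => J.testBit a = true), min i0 (lv a) := by
    rw [← C.sum_lev hJ0 (fun l => min i0 l)]
    unfold M0
    rw [← Finset.sum_coe_sort (toS N c J)]
    exact Finset.sum_congr rfl fun x _ => by rw [hlv]
  have hL := lead_V hxx (by rw [hcd]; exact g3) g2 hV hlow.1 hlow.2
    (N := M0 {x : P // x ∈ toS N c J} i0 + n0) (by rw [hM0, hcd]; exact g5)
  exact Z_of_lead hV hL

/-- order two up to the energy `n0` -/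
theorem CodM.low (C : CodM N J0 cv lv c) (hU : UsOK N cv Us) {B i0 K n0 : ℕ}
    {PL : List (Bool × (ℕ × ℕ × ℕ × ℕ × ℕ))} (h : polD N B K Us i0 PL = true)
    {x : Bool × (ℕ × ℕ × ℕ × ℕ × ℕ)}
    (hx : x ∈ PL) (hJ : x.2.1 ∈ Us) (hJ0 : Sm x.2.1 J0) (hnum : numC N K i0 n0 lv x.2 = true)
    (hc : x.2.2.2.2.2 = 0) :
    ∀ n' ≤ n0, (1 + X : ℤ[X]) ^ 2 ∣ Z {y : P // y ∈ toS N c x.2.1} i0 n' := by
  obtain ⟨h1, s, h2, h3⟩ := C.val hU h hx hJ hJ0 hnum
  intro n' hn'
  rcases Nat.lt_or_ge n' n0 with h4 | h4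
  · exact h1 n' h4
  · obtain rfl : n' = n0 := by omega
    rw [h2, pow_two]
    refine mul_dvd_mul_left _ ?_
    rw [hc, sc_zero, mul_zero] at h3
    have h5 := Polynomial.dvd_iff_isRoot.mpr (show s.IsRoot (-1) from h3)
    rwa [map_neg, map_one, sub_neg_eq_add, add_comm] at h5

end Code

end Pool.Agent.GaussPoset.J10
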