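import Pool.Agent.W_448j10_h67.JbB

/-!
Coded components with missing cells: order, thresholds, local data, poles (MP_448cb3_co).
-/

namespace Pool.Agent.GaussPoset.J10

set_option linter.unusedSectionVars false

open Polynomial Finset Cl Dd Sg

universe u

/-- an entry: energy, sign, then `(J, ℓ, M, exponent, coefficient)` -/
abbrev Ent := ℕ × (Bool × (ℕ × ℕ × ℕ × ℕ × ℕ))

/-- order two below this energy -/
def rch (y : Ent) : ℕ := if y.2.2.2.2.2.2 = 0 then y.1 + 1 else y.1

/-- the check of the list: the energies, all up-sets above the mask `bm` occur -/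
def mstC (N K i : ℕ) (lv : ℕ → ℕ) (Us : List ℕ) (bm : ℕ) (L : List Ent) : Bool :=
  (L.all fun y => numC N K i y.1 lv y.2.2) &&
  (Us.all fun J => !(Nat.beq (Nat.land bm J) bm) || L.any fun y => Nat.beq y.2.2.1 J)

/-- all listed up-sets in `J0` have order two below `w` -/
def mskC (L : List Ent) (J0 w : ℕ) : Bool :=
  L.all fun y => !(Nat.beq (Nat.land y.2.2.1 J0) y.2.2.1) || Nat.ble w (rch y)

variable {P : Type u} [Fintype P] [PartialOrder P] [DecidableEq P]
variable {N J0 : ℕ} {cv lv um th : ℕ → ℕ} {c : ℕ → P} {Us : List ℕ}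

/-- order two of all up-sets above the base -/
theorem CodM.clean (C : CodM N J0 cv lv c) (hU : UsOK N cv Us) {B i K bm w : ℕ} {L : List Ent}
    (h : polD N B K Us i (L.map Prod.snd) = true) (hm : mstC N K i lv Us bm L = true)
    (hw : mskC L J0 w = true) (hbm : Sm bm J0) {I : Finset P}
    (hI : ∀ x ∈ I, ∃ a, J0.testBit a = true ∧ c a = x) (hup : Up I)
    (hb : ∀ a, bm.testBit a = true → c a ∈ I) :
    ∀ n < w, (1 + X : ℤ[X]) ^ 2 ∣ Z {x : P // x ∈ I} i n := by
  unfold mstC at hm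
  unfold mskC at hw
  rw [Bool.and_eq_true] at hm
  obtain ⟨h3, h4⟩ := hm
  rw [List.all_eq_true] at h3 h4 hw
  obtain ⟨J, hJ, hJ0, rfl⟩ := C.exists_code hU hI hup
  have h6 : Nat.land bm J = bm := by
    rw [sm_iff]
    intro a ha
    exact (C.mem_iff hJ0 (hbm a ha)).mp (hb a ha)
  have h5 := h4 J hJ
  rw [h6, Nat.beq_refl] at h5
  have h7 : (L.any fun x => Nat.beq x.2.2.1 J) = true := by simpa using h5
  rw [List.any_eq_true] at h7
  obtain ⟨y, hy, hyJ⟩ := h7
  have h8 : y.2.2.1 = J := Nat.eq_of_beq_eq_true hyJ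
  have h9 := h3 _ hy
  have h10 := hw _ hy
  have h11 : Nat.land y.2.2.1 J0 = y.2.2.1 := by rw [h8, sm_iff]; exact hJ0
  rw [h11, Nat.beq_refl] at h10
  have h12 : w ≤ rch y := Nat.le_of_ble_eq_true (by simpa using h10)
  have hy2 : y.2 ∈ L.map Prod.snd := List.mem_map_of_mem hy
  intro n hn
  rw [← h8] at hJ hJ0 ⊢
  unfold rch at h12
  split_ifs at h12 with hc
  · exact C.low hU h hy2 hJ hJ0 h9 hc n (by omega)
  · exact (C.val hU h hy2 hJ hJ0 h9).1 n (by omega)

lemma CodM.cv_lt (C : CodM N J0 cv lv c) (hU : ∀ a < N, cv a < 2 ^ a) {a k : ℕ}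
    (ha : J0.testBit a = true) (hk : (cv a).testBit k = true) : k < a ∧ J0.testBit k = true :=
  ⟨bit_lt (hU a (bit_lt C.lt ha)) hk, sm_iff.mp (C.clo a ha) k hk⟩

/-- the order of the cells from the masks -/
lemma CodM.le_iff (C : CodM N J0 cv lv c) (hcv : ∀ a < N, cv a < 2 ^ a)
    (hum : ∀ a < N, um a = Nat.lor (2 ^ a) (orM um N (cv a))) {a b : ℕ}
    (ha : J0.testBit a = true) (hb : J0.testBit b = true) :
    c a ≤ c b ↔ (um a).testBit b = true := by
  have key : ∀ a, J0.testBit a = true → ∀ b, J0.testBit b = true →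
      (c a ≤ c b ↔ (um a).testBit b = true) := by
    intro a
    induction a using Nat.strong_induction_on with
    | _ a ih =>
      intro ha b hb
      have haN := bit_lt C.lt ha
      have h1 : (um a).testBit b = ((2 ^ a).testBit b || (orM um N (cv a)).testBit b) := by
        conv_lhs => rw [hum a haN]
        exact Nat.testBit_or _ _ _
      rw [h1, Bool.or_eq_true, orM_testBit]
      constructor
      · intro h
        rcases eq_or_lt_of_le h with h2 | h2
        · left
          rw [← C.inj a ha b hb h2]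
          exact Nat.testBit_two_pow_self
        · right
          obtain ⟨v, hv, hvb⟩ := Hul.exists_cov h2
          obtain ⟨k, hk, h3, rfl⟩ := (C.cov a ha v).mp hv
          exact ⟨k, bit_lt C.lt hk, h3, (ih k (C.cv_lt hcv ha h3).1 hk b hb).mp hvb⟩
      · rintro (h | ⟨k, hk, h3, h4⟩)
        · have h5 : a = b := by
            by_contra hne
            rw [Nat.testBit_two_pow_of_ne hne] at h
            exact absurd h (by simp)
          rw [h5]
        · obtain ⟨hka, hk0⟩ := C.cv_lt hcv ha h3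
          exact ((C.cov a ha (c k)).mpr ⟨k, hk0, h3, rfl⟩).le.trans ((ih k hka hk0 b hb).mpr h4)
  exact key a ha b hb

/-- the elements above a cell are cells -/
lemma CodM.above (C : CodM N J0 cv lv c) {a : ℕ} (ha : J0.testBit a = true) {y : P}
    (hy : c a ≤ y) : ∃ b, J0.testBit b = true ∧ c b = y := by
  classical
  have hup : Up ((univ : Finset P).filter (fun x => ∃ a, J0.testBit a = true ∧ c a = x)) := by
    refine Cl.up_of_cov fun x hx y hxy => ?_
    rw [mem_filter] at hx ⊢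
    obtain ⟨-, b, hb, rfl⟩ := hx
    obtain ⟨d, hd, -, rfl⟩ := (C.cov b hb y).mp hxy
    exact ⟨mem_univ _, d, hd, rfl⟩
  have h1 := hup (c a) (mem_filter.mpr ⟨mem_univ _, a, ha, rfl⟩) y hy
  exact (mem_filter.mp h1).2

/-- the cost of an element whose covers are coded -/
lemma CodM.ct_of (C : CodM N J0 cv lv c) (hcv : ∀ a < N, cv a < 2 ^ a)
    (hum : ∀ a < N, um a = Nat.lor (2 ^ a) (orM um N (cv a))) {z : P} {m : ℕ}
    (hm : Sm m J0) (hz : ∀ y, z ⋖ y ↔ ∃ b, m.testBit b = true ∧ c b = y) (i k : ℕ) :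
    ct i k z = min k (GaussPoset.lev z - i) + ∑ b ∈ (range N).filter
      (fun b => (orM um N m).testBit b = true ∧ J0.testBit b = true), min k (lv b - i) := by
  classical
  rw [ct_succ]
  congr 1
  have hlt : ∀ y, z < y ↔ ∃ b, ((orM um N m).testBit b = true ∧ J0.testBit b = true) ∧
      c b = y := by
    intro y
    constructor
    · intro h
      obtain ⟨v, hv, hvy⟩ := Hul.exists_cov h
      obtain ⟨a, hab, rfl⟩ := (hz v).mp hv
      obtain ⟨b, hb, rfl⟩ := C.above (hm a hab) hvy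
      exact ⟨b, ⟨(orM_testBit _ _ _ _).mpr ⟨a, bit_lt C.lt (hm a hab), hab,
        (C.le_iff hcv hum (hm a hab) hb).mp hvy⟩, hb⟩, rfl⟩
    · rintro ⟨b, ⟨hbit, hb⟩, rfl⟩
      obtain ⟨a, ha, hab, h1⟩ := (orM_testBit _ _ _ _).mp hbit
      exact ((hz (c a)).mpr ⟨a, hab, rfl⟩).lt.trans_le ((C.le_iff hcv hum (hm a hab) hb).mpr h1)
  rw [← Finset.sum_filter]
  symm
  refine Finset.sum_bij (fun b _ => c b) ?_ ?_ ?_ ?_
  · intro b hb
    rw [mem_filter, mem_range] at hb
    rw [mem_filter]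
    exact ⟨mem_univ _, (hlt _).mpr ⟨b, hb.2, rfl⟩⟩
  · intro b hb b' hb' h
    rw [mem_filter, mem_range] at hb hb'
    exact C.inj b hb.2.2 b' hb'.2.2 h
  · intro y hy
    rw [mem_filter] at hy
    obtain ⟨b, hb, rfl⟩ := (hlt y).mp hy.2
    exact ⟨b, mem_filter.mpr ⟨mem_range.mpr (bit_lt C.lt hb.2), hb⟩, rfl⟩
  · intro b hb
    rw [mem_filter, mem_range] at hb
    rw [C.lev b hb.2.2]

/-- the thresholds of a coded set -/
noncomputable def thM (N J0 : ℕ) (c : ℕ → P) (th : ℕ → ℕ) (x : P) : ℕ :=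
  ∑ a ∈ (range N).filter (fun a => J0.testBit a = true), if c a = x then th a else 0

lemma thM_c (C : CodM N J0 cv lv c) (th : ℕ → ℕ) {a : ℕ} (ha : J0.testBit a = true) :
    thM N J0 c th (c a) = th a := by
  unfold thM
  rw [Finset.sum_eq_single a]
  · rw [if_pos rfl]
  · intro b hb hne
    rw [mem_filter] at hb
    rw [if_neg fun h => hne (C.inj b hb.2 a ha h)]
  · intro h
    exact absurd (mem_filter.mpr ⟨mem_range.mpr (bit_lt C.lt ha), ha⟩) h

/-- local data of a coded set -/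
theorem CodM.locL (C : CodM N J0 cv lv c) (hU : UsOK N cv Us) {B i K bm w a0 : ℕ}
    {L : List Ent} (hth : thChk N i a0 lv cv um th = true) (ha0 : J0.testBit a0 = true)
    {S : Finset P} (hS : ∀ x, x ∈ S ↔ ∃ a, J0.testBit a = true ∧ c a = x)
    (h : polD N B K Us i (L.map Prod.snd) = true) (hm : mstC N K i lv Us bm L = true)
    (hw : mskC L J0 w = true) (hbn : Sm bm J0) (hbm : bmC N i a0 bm lv um = true) :
    LocL i 2 w S (thM N J0 c th) (fun x => x = c a0) := by
  have hth' := hth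
  unfold thChk at hth
  simp only [Bool.and_eq_true, List.all_eq_true, List.mem_range, Bool.or_eq_true, ble_iff,
    beq_iff, Nat.blt_eq, Bool.not_eq_true'] at hth
  obtain ⟨⟨h1, h2⟩, h3⟩ := hth
  have hle : ∀ {a b : ℕ}, J0.testBit a = true → J0.testBit b = true →
      (c a ≤ c b ↔ (um a).testBit b = true) := fun ha hb => C.le_iff hU.cv h1 ha hb
  have hpos : ∀ x ∈ S, 1 ≤ thM N J0 c th x → ∃ a, J0.testBit a = true ∧ c a = x ∧
      i < lv a ∧ (um a0).testBit a = false ∧ th a ≤ lv a - i ∧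
      ∀ y < N, (um y).testBit a = false ∨ ∀ x' < N, ((cv y).testBit x' = false ∨
        (um x').testBit a = true) ∨ th a ≤ th x' + 1 := by
    intro x hx h4
    obtain ⟨a, ha, rfl⟩ := (hS x).mp hx
    rw [thM_c C th ha] at h4
    rcases h2 a (bit_lt C.lt ha) with h5 | ⟨⟨⟨h5, h6⟩, h7⟩, h8⟩
    · omega
    · exact ⟨a, ha, rfl, h5, h6, h7, h8⟩
  constructor
  · intro U hUS hup hlow hB
    refine C.clean hU h hm hw hbn (fun x hx => (hS x).mp (hUS hx)) hup ?_
    intro a hab
    have ha := hbn a hab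
    unfold bmC at hbm
    simp only [List.all_eq_true, List.mem_range, Bool.or_eq_true, ble_iff,
      Bool.not_eq_true'] at hbm
    rcases hbm a (bit_lt C.lt ha) with (h5 | h5) | h5
    · rw [hab] at h5
      exact absurd h5 (by simp)
    · refine hlow _ ((hS _).mpr ⟨a, ha, rfl⟩) ?_
      rw [C.lev a ha]
      exact h5
    · exact hup _ (hB _ ((hS _).mpr ⟨a0, ha0, rfl⟩) rfl) _ ((hle ha0 ha).mpr h5)
  · intro x hx h4
    obtain ⟨a, ha, rfl, h5, -⟩ := hpos x hx h4
    rw [C.lev a ha]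
    exact h5
  · rintro x hx h4 y hy hyx rfl
    obtain ⟨a, ha, rfl, -, h6, -⟩ := hpos x hx h4
    rw [hle ha0 ha, h6] at hyx
    exact absurd hyx (by simp)
  · intro x hx h4 y hy hyx x' hx' hyx' hn'
    obtain ⟨a, ha, rfl, -, -, -, h8⟩ := hpos x hx h4
    obtain ⟨y, hy', rfl⟩ := (hS y).mp hy
    obtain ⟨x', hxn', hcx, rfl⟩ := (C.cov y hy' x').mp hyx'
    rw [thM_c C th ha, thM_c C th hxn']
    rcases h8 y (bit_lt C.lt hy') with h9 | h9
    · rw [hle hy' ha, h9] at hyx
      exact absurd hyx (by simp)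
    · rcases h9 x' (bit_lt C.lt hxn') with (h10 | h10) | h10
      · rw [hcx] at h10
        exact absurd h10 (by simp)
      · exact absurd ((hle hxn' ha).mpr h10) hn'
      · exact h10
  · intro x hx
    rcases Nat.eq_zero_or_pos (thM N J0 c th x) with h4 | h4
    · rw [h4]; exact Nat.zero_le _
    · obtain ⟨a, ha, rfl, -, -, h7, -⟩ := hpos x hx h4
      rw [thM_c C th ha, C.lev a ha]
      exact h7

/-- counting the elements of a coded set by the level -/
lemma CodM.count (C : CodM N J0 cv lv c) {S : Finset P}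
    (hS : ∀ y, y ∈ S ↔ ∃ a, J0.testBit a = true ∧ c a = y) (g : ℕ → Prop) [DecidablePred g] :
    (univ.filter (fun y : {y : P // y ∈ S} => g (GaussPoset.lev y))).card =
      ((range N).filter (fun a => J0.testBit a = true ∧ g (lv a))).card := by
  classical
  have hup : Up S := by
    intro x hx y hxy
    rw [hS] at hx ⊢
    obtain ⟨a, ha, rfl⟩ := hx
    exact C.above ha hxy
  have hlv : ∀ y : {y : P // y ∈ S}, GaussPoset.lev y = GaussPoset.lev (y : P) :=
    lev_subtype (p := fun y => y ∈ S) (fun x y hxy hx => hup x hx y hxy)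
  have h1 : S = toS N c J0 := by
    ext x
    rw [hS, mem_toS]
    exact ⟨fun ⟨a, h2, h3⟩ => ⟨a, bit_lt C.lt h2, h2, h3⟩, fun ⟨a, _, h2, h3⟩ => ⟨a, h2, h3⟩⟩
  have h2 : ∑ y : {y : P // y ∈ S}, (if g (GaussPoset.lev (y : P)) then 1 else 0)
      = ∑ y ∈ S, (if g (GaussPoset.lev y) then 1 else 0) :=
    Finset.sum_coe_sort S (fun y => if g (GaussPoset.lev y) then 1 else 0)
  have h3 : ∑ y : {y : P // y ∈ S}, (if g (GaussPoset.lev y) then 1 else 0) =
      ∑ y : {y : P // y ∈ S}, (if g (GaussPoset.lev (y : P)) then 1 else 0) :=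
    Finset.sum_congr rfl fun y _ => by rw [hlv]
  rw [Finset.card_filter, h3, h2, h1, C.sum_lev (fun _ h => h) (fun l => if g l then 1 else 0),
    Finset.card_filter, Finset.sum_filter]
  refine Finset.sum_congr rfl fun a _ => ?_
  by_cases h4 : J0.testBit a = true <;> simp [h4]

/-- the value of a complete coded set -/
theorem CodM.pole (C : CodM N J0 cv lv c) (hU : UsOK N cv Us) {B i K : ℕ}
    {L : List Ent} (h : polD N B K Us i (L.map Prod.snd) = true) {bm : ℕ}
    (hm : mstC N K i lv Us bm L = true) {y : Ent} (hy : y ∈ L) (hJ : y.2.2.1 ∈ Us)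
    (hJ0 : y.2.2.1 = J0) {S : Finset P} (hS : ∀ y, y ∈ S ↔ ∃ a, J0.testBit a = true ∧ c a = y)
    {β : ℕ} (h7 : ((range N).filter (fun a => J0.testBit a = true ∧ lv a < i)).card = β)
    (h8 : ((range N).filter (fun a => J0.testBit a = true ∧ lv a = i)).card = 2) {ρ : ℤ}
    (hρ : sgn y.2.2.2.1 y.2.2.2.2.1 i * sc y.2.1 y.2.2.2.2.2.2 = ρ * (-1) ^ β)
    {f : Polynomial (PowerSeries ℤ)} (hf : ∀ n, exq n f = Z {y : P // y ∈ S} i n) :
    Pl y.1 2 ρ f := by
  classical
  unfold mstC at hm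
  rw [Bool.and_eq_true, List.all_eq_true] at hm
  have hSe : toS N c y.2.2.1 = S := by
    ext x
    rw [mem_toS, hS, hJ0]
    exact ⟨fun ⟨a, _, h2, h3⟩ => ⟨a, h2, h3⟩, fun ⟨a, h2, h3⟩ => ⟨a, bit_lt C.lt h2, h2, h3⟩⟩
  have h10 := C.val hU h (List.mem_map_of_mem hy) hJ (fun a ha => by rw [← hJ0]; exact ha)
    (hm.1 _ hy)
  rw [hSe] at h10
  obtain ⟨h11, s, h12, h13⟩ := h10
  rw [hρ] at h13
  have hbelow : below {y : P // y ∈ S} i = β := by
    unfold below
    rw [C.count hS (fun l => l < i)]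
    exact h7
  have hlv7 : (GaussPoset.lv {y : P // y ∈ S} i).card = 2 := by
    unfold GaussPoset.lv
    rw [C.count hS (fun l => l = i)]
    exact h8
  have h0 : exq 0 f = X ^ β * (1 + X) ^ 2 := by
    rw [hf, Z_zero, hbelow, hlv7]
  refine ⟨fun m hm => ?_, by norm_num, X ^ β, s, by rw [h0, mul_comm], ?_, ?_, ?_⟩
  · rw [hf]
    exact h11 m hm
  · rw [eval_pow, eval_X]
    exact pow_ne_zero _ (by norm_num)
  · rw [hf, h12]
    simp
  · rw [h13, eval_pow, eval_X]

end Pool.Agent.GaussPoset.J10
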