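import Pool.Agent.W_448j10_h67.JbC

/-!
Coded components with missing cells: one more cell, one more type of cells (MP_448cb3_co).
-/

namespace Pool.Agent.GaussPoset.J10

set_option linter.unusedSectionVars false

open Polynomial Finset Cl Dd Sg

universe u

variable {P : Type u} [Fintype P] [PartialOrder P] [DecidableEq P]
variable {N J0 : ℕ} {cv lv um th : ℕ → ℕ} {c : ℕ → P} {Us : List ℕ}

lemma bit_lor {J k a : ℕ} : (Nat.lor J (2 ^ k)).testBit a = true ↔ J.testBit a = true ∨ a = k := by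
  have h1 : (Nat.lor J (2 ^ k)).testBit a = (J.testBit a || (2 ^ k).testBit a) :=
    Nat.testBit_or _ _ _
  rw [h1, Bool.or_eq_true]
  refine or_congr_right ?_
  constructor
  · intro h
    by_contra hne
    rw [Nat.testBit_two_pow_of_ne (Ne.symm hne)] at h
    exact absurd h (by simp)
  · rintro rfl
    exact Nat.testBit_two_pow_self

/-- the covers of `z` are the cells of the mask `m` -/
def Cvs (c : ℕ → P) (m : ℕ) (z : P) : Prop := ∀ y, z ⋖ y ↔ ∃ b, m.testBit b = true ∧ c b = y

lemma Cvs.congr {c c' : ℕ → P} {m : ℕ} {z : P} (h : Cvs c m z)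
    (hc : ∀ a, m.testBit a = true → c' a = c a) : Cvs c' m z := by
  intro y
  rw [h y]
  constructor
  · rintro ⟨b, h1, h2⟩
    exact ⟨b, h1, by rw [hc b h1]; exact h2⟩
  · rintro ⟨b, h1, h2⟩
    exact ⟨b, h1, by rw [← hc b h1]; exact h2⟩

/-- a coded set -/
structure Cx (N J0 : ℕ) (cv lv : ℕ → ℕ) (c : ℕ → P) (S : Finset P) : Prop where
  cod : CodM N J0 cv lv c
  mem : ∀ x, x ∈ S ↔ ∃ a, J0.testBit a = true ∧ c a = x

/-- one more cell -/
theorem CodM.insert (C : CodM N J0 cv lv c) {k : ℕ} (hk : k < N) (hkJ : J0.testBit k = false)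
    (hcv : Sm (cv k) J0) {z : P} (hz : ∀ a, J0.testBit a = true → c a ≠ z)
    (hcov : Cvs c (cv k) z) (hlev : GaussPoset.lev z = lv k) :
    CodM N (Nat.lor J0 (2 ^ k)) cv lv (Function.update c k z) := by
  have hne : ∀ a, J0.testBit a = true → a ≠ k := by
    rintro a ha rfl
    rw [hkJ] at ha
    exact absurd ha (by simp)
  have hup : ∀ a, J0.testBit a = true → Function.update c k z a = c a := fun a ha =>
    Function.update_of_ne (hne a ha) _ _
  have hself : Function.update c k z k = z := Function.update_self _ _ _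
  refine ⟨?_, ?_, ?_, ?_, ?_⟩
  · exact Nat.or_lt_two_pow C.lt (Nat.pow_lt_pow_right (by norm_num) hk)
  · intro a ha
    rw [sm_iff]
    intro b hb
    rw [bit_lor]
    rcases bit_lor.mp ha with h | h
    · exact Or.inl (sm_iff.mp (C.clo a h) b hb)
    · subst h
      exact Or.inl (hcv b hb)
  · intro a ha b hb h
    rcases bit_lor.mp ha with h1 | h1 <;> rcases bit_lor.mp hb with h2 | h2
    · rw [hup a h1, hup b h2] at h
      exact C.inj a h1 b h2 h
    · subst h2
      rw [hup a h1, hself] at h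
      exact absurd h (hz a h1)
    · subst h1
      rw [hup b h2, hself] at h
      exact absurd h.symm (hz b h2)
    · rw [h1, h2]
  · intro a ha y
    rcases bit_lor.mp ha with h1 | h1
    · rw [hup a h1, C.cov a h1 y]
      constructor
      · rintro ⟨b, g1, g2, g3⟩
        exact ⟨b, bit_lor.mpr (Or.inl g1), g2, by rw [hup b g1]; exact g3⟩
      · rintro ⟨b, g1, g2, g3⟩
        have g4 := sm_iff.mp (C.clo a h1) b g2
        exact ⟨b, g4, g2, by rw [← hup b g4]; exact g3⟩
    · subst h1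
      rw [hself, hcov y]
      constructor
      · rintro ⟨b, g2, g3⟩
        have g4 := hcv b g2
        exact ⟨b, bit_lor.mpr (Or.inl g4), g2, by rw [hup b g4]; exact g3⟩
      · rintro ⟨b, -, g2, g3⟩
        exact ⟨b, g2, by rw [← hup b (hcv b g2)]; exact g3⟩
  · intro a ha
    rcases bit_lor.mp ha with h1 | h1
    · rw [hup a h1]
      exact C.lev a h1
    · subst h1
      rw [hself]
      exact hlev

/-- one more cell -/
theorem Cx.insert {S : Finset P} (C : Cx N J0 cv lv c S) {k : ℕ} (hk : k < N)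
    (hkJ : J0.testBit k = false) (hcv : Sm (cv k) J0) {z : P} (hz : z ∉ S)
    (hcov : Cvs c (cv k) z) (hlev : GaussPoset.lev z = lv k) :
    Cx N (Nat.lor J0 (2 ^ k)) cv lv (Function.update c k z) (insert z S) := by
  have hne : ∀ a, J0.testBit a = true → a ≠ k := by
    rintro a ha rfl
    rw [hkJ] at ha
    exact absurd ha (by simp)
  have hup : ∀ a, J0.testBit a = true → Function.update c k z a = c a := fun a ha =>
    Function.update_of_ne (hne a ha) _ _
  have hself : Function.update c k z k = z := Function.update_self _ _ _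
  refine ⟨C.cod.insert hk hkJ hcv (fun a ha h => hz ((C.mem z).mpr ⟨a, ha, h⟩)) hcov hlev, ?_⟩
  intro x
  rw [mem_insert, C.mem x]
  constructor
  · rintro (h | ⟨a, h1, h2⟩)
    · exact ⟨k, bit_lor.mpr (Or.inr rfl), by rw [hself, h]⟩
    · exact ⟨a, bit_lor.mpr (Or.inl h1), by rw [hup a h1]; exact h2⟩
  · rintro ⟨a, h1, h2⟩
    rcases bit_lor.mp h1 with h3 | h3
    · exact Or.inr ⟨a, h3, by rw [← hup a h3]; exact h2⟩
    · left
      rw [← h2, h3, hself]

/-- the elements of level `l` whose covers are the cells of `m` -/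
noncomputable def tyS (c : ℕ → P) (m l : ℕ) : Finset P := by
  classical exact univ.filter (fun z => GaussPoset.lev z = l ∧ Cvs c m z)

lemma mem_tyS {m l : ℕ} {z : P} : z ∈ tyS c m l ↔ GaussPoset.lev z = l ∧ Cvs c m z := by
  classical
  unfold tyS
  simp

lemma tyS_congr {c c' : ℕ → P} {m l : ℕ} (hc : ∀ a, m.testBit a = true → c' a = c a) :
    tyS c' m l = tyS c m l := by
  ext z
  rw [mem_tyS, mem_tyS]
  exact ⟨fun h => ⟨h.1, h.2.congr fun a ha => (hc a ha).symm⟩, fun h => ⟨h.1, h.2.congr hc⟩⟩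

/-- **At most one more cell of one type.** -/
theorem Cx.ins1 {S : Finset P} (C : Cx N J0 cv lv c S) {k m l : ℕ} (hk : k < N)
    (hkJ : J0.testBit k = false) (hm : cv k = m) (hl : lv k = l) (hcv : Sm m J0)
    {T : Finset P} (hT : T.card ≤ 1) (hTS : ∀ z ∈ T, z ∉ S)
    (hTc : ∀ z ∈ T, GaussPoset.lev z = l ∧ Cvs c m z) :
    ∃ (c' : ℕ → P) (J' : ℕ), (∀ a, J0.testBit a = true → c' a = c a) ∧
      Cx N J' cv lv c' (S ∪ T) ∧ ((T = ∅ ∧ J' = J0) ∨
      ∃ z, T = {z} ∧ J' = Nat.lor J0 (2 ^ k) ∧ c' k = z) := by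
  rcases Nat.eq_zero_or_pos T.card with h | h
  · have h1 : T = ∅ := Finset.card_eq_zero.mp h
    exact ⟨c, J0, fun _ _ => rfl, by rw [h1, Finset.union_empty]; exact C, Or.inl ⟨h1, rfl⟩⟩
  · obtain ⟨z, hz⟩ := Finset.card_eq_one.mp (show T.card = 1 by omega)
    have hzT : z ∈ T := by rw [hz]; exact mem_singleton_self z
    have h1 := C.insert hk hkJ (by rw [hm]; exact hcv) (hTS z hzT)
      (by rw [hm]; exact (hTc z hzT).2) (by rw [hl]; exact (hTc z hzT).1)
    refine ⟨Function.update c k z, _, fun a ha => Function.update_of_ne ?_ _ _, ?_,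
      Or.inr ⟨z, hz, rfl, Function.update_self _ _ _⟩⟩
    · rintro rfl
      rw [hkJ] at ha
      exact absurd ha (by simp)
    · rw [hz, Finset.union_comm, ← Finset.insert_eq]
      exact h1

/-- **At most two more cells of one type.** -/
theorem Cx.ins2 {S : Finset P} (C : Cx N J0 cv lv c S) {k k' m l : ℕ} (hk : k < N) (hk' : k' < N)
    (hne : k ≠ k') (hkJ : J0.testBit k = false) (hkJ' : J0.testBit k' = false) (hm : cv k = m)
    (hm' : cv k' = m) (hl : lv k = l) (hl' : lv k' = l) (hcv : Sm m J0)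
    {T : Finset P} (hT : T.card ≤ 2) (hTS : ∀ z ∈ T, z ∉ S)
    (hTc : ∀ z ∈ T, GaussPoset.lev z = l ∧ Cvs c m z) :
    ∃ (c' : ℕ → P) (J' : ℕ), (∀ a, J0.testBit a = true → c' a = c a) ∧
      Cx N J' cv lv c' (S ∪ T) ∧ ((T = ∅ ∧ J' = J0) ∨
      (∃ z, T = {z} ∧ J' = Nat.lor J0 (2 ^ k) ∧ c' k = z) ∨
      ∃ z z', z ≠ z' ∧ T = {z, z'} ∧ J' = Nat.lor (Nat.lor J0 (2 ^ k)) (2 ^ k') ∧ c' k = z ∧
        c' k' = z') := by
  rcases Nat.lt_or_ge T.card 2 with h | h
  · obtain ⟨c', J', h1, h2, h3⟩ := C.ins1 hk hkJ hm hl hcv (T := T) (by omega) hTS hTc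
    refine ⟨c', J', h1, h2, ?_⟩
    rcases h3 with h3 | h3
    · exact Or.inl h3
    · exact Or.inr (Or.inl h3)
  · obtain ⟨z, z', hzz, hz⟩ := Finset.card_eq_two.mp (show T.card = 2 by omega)
    have hzT : z ∈ T := by rw [hz]; simp
    have hzT' : z' ∈ T := by rw [hz]; simp
    have h1 := C.insert hk hkJ (by rw [hm]; exact hcv) (hTS z hzT)
      (by rw [hm]; exact (hTc z hzT).2) (by rw [hl]; exact (hTc z hzT).1)
    have hbm : ∀ a, m.testBit a = true → a ≠ k := by
      rintro a ha rfl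
      have := hcv a ha
      rw [hkJ] at this
      exact absurd this (by simp)
    have h2 := h1.insert (k := k') (z := z') hk' (by
        rw [Bool.eq_false_iff]
        intro hcon
        rcases bit_lor.mp hcon with h3 | h3
        · rw [hkJ'] at h3
          exact absurd h3 (by simp)
        · exact hne h3.symm) (by
        rw [hm']
        exact fun a ha => bit_lor.mpr (Or.inl (hcv a ha))) (by
        rw [mem_insert, not_or]
        exact ⟨Ne.symm hzz, hTS z' hzT'⟩) (by
        rw [hm']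
        exact (hTc z' hzT').2.congr fun a ha => Function.update_of_ne (hbm a ha) _ _)
        (by rw [hl']; exact (hTc z' hzT').1)
    refine ⟨Function.update (Function.update c k z) k' z', _, fun a ha => ?_, ?_,
      Or.inr (Or.inr ⟨z, z', hzz, hz, rfl, ?_, Function.update_self _ _ _⟩)⟩
    · rw [Function.update_of_ne, Function.update_of_ne]
      · rintro rfl
        rw [hkJ] at ha
        exact absurd ha (by simp)
      · rintro rfl
        rw [hkJ'] at ha
        exact absurd ha (by simp)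
    · have h3 : S ∪ T = Insert.insert z' (Insert.insert z S) := by
        ext x
        rw [hz]
        simp only [mem_union, mem_insert, mem_singleton]
        tauto
      rw [h3]
      exact h2
    · rw [Function.update_of_ne hne, Function.update_self]

/-- the start: a coded strip -/
theorem Cx.ofCod {n : ℕ} {cv0 lv0 : ℕ → ℕ} (C : Cod n cv0 lv0 c) (hn : n ≤ N)
    (h1 : ∀ a < n, cv a = cv0 a) (h2 : ∀ a < n, lv a = lv0 a) (h3 : ∀ a < n, cv a < 2 ^ a)
    {S : Finset P} (hS : ∀ x, x ∈ S ↔ ∃ a < n, c a = x) : Cx N (2 ^ n - 1) cv lv c S := by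
  have hb : ∀ a, (2 ^ n - 1).testBit a = true ↔ a < n := by
    intro a
    rw [Nat.testBit_two_pow_sub_one]
    simp
  refine ⟨⟨?_, ?_, ?_, ?_, ?_⟩, ?_⟩
  · have h4 : 0 < 2 ^ n := Nat.two_pow_pos n
    have h5 : 2 ^ n ≤ 2 ^ N := Nat.pow_le_pow_right (by norm_num) hn
    omega
  · intro a ha
    rw [hb] at ha
    rw [sm_iff]
    intro b hbit
    rw [hb]
    have := bit_lt (h3 a ha) hbit
    omega
  · intro a ha b hb' h
    rw [hb] at ha hb'
    exact C.inj a ha b hb' h
  · intro a ha y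
    rw [hb] at ha
    rw [C.cov a ha y, h1 a ha]
    constructor
    · rintro ⟨b, g1, g2, g3⟩
      exact ⟨b, (hb b).mpr g1, g2, g3⟩
    · rintro ⟨b, g1, g2, g3⟩
      exact ⟨b, (hb b).mp g1, g2, g3⟩
  · intro a ha
    rw [hb] at ha
    rw [C.lev a ha, h2 a ha]
  · intro x
    rw [hS]
    constructor
    · rintro ⟨a, ha, h⟩
      exact ⟨a, (hb a).mpr ha, h⟩
    · rintro ⟨a, ha, h⟩
      exact ⟨a, (hb a).mp ha, h⟩

end Pool.Agent.GaussPoset.J10
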