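import Pool.Agent.W_448j10_h67.JbC

/-!
The strip `E7` at level 10 with elements of level 11: certificate for the window 5,
energies up to 32.
-/

namespace Pool.Agent.GaussPoset.J10

open Cl Dd Sg

/-- the up-sets -/
def Mcus : List ℕ := [8388607, 7864319, 7340031, 6815743, 6291455, 5767167, 5242879, 4718591, 4194303, 3670015, 3145727, 2621439, 2097151, 1835007, 1769471, 1753087, 1572863, 1310719, 1245183, 1228799, 1048575, 786431, 720895, 704511, 524287, 393215, 262143, 196607, 180223, 131071, 98303, 94207, 65535, 49151, 32767, 28671, 24575, 20479, 19455, 19199, 19135, 16383, 12287, 8191, 6143, 4095, 3071, 2815, 2751, 2047, 1023, 767, 703, 511, 255, 191, 127, 95, 63, 47, 31, 15, 7, 3, 1, 0]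

/-- the covers -/
def Mccv : List ℕ := [0, 1, 2, 4, 8, 8, 16, 48, 192, 128, 768, 512, 1024, 3072, 2048, 12288, 24576, 32768, 98304, 131072, 131072, 393216, 393216]

/-- the levels -/
def Mclv : List ℕ := [0, 1, 2, 3, 4, 4, 5, 5, 6, 6, 7, 7, 8, 8, 8, 9, 9, 10, 10, 11, 11, 11, 11]

/-- the cells above -/
def Mcum : List ℕ := [1, 3, 7, 15, 31, 47, 95, 191, 511, 703, 2047, 2751, 6143, 12287, 19135, 49151, 94207, 180223, 393215, 704511, 1228799, 2621439, 4718591]

/-- the thresholds -/
def Mcth : List ℕ := [0, 0, 0, 0, 0, 0, 0, 0, 0, 0, 0, 0, 1, 0, 0, 1, 0, 2, 1, 3, 3, 2, 2]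

/-- the up-sets above the base: energy, code, `ℓ`, `M`, exponent, coefficient -/
def McL : List Ent := [(27, true, 8388607, 12, 11, 147, 1), (32, false, 7864319, 12, 10, 136, 0), (32, false, 7340031, 12, 10, 136, 0), (32, false, 6815743, 12, 9, 121, 0), (27, true, 6291455, 12, 10, 131, 1), (32, false, 5767167, 12, 9, 121, 0), (32, false, 5242879, 12, 9, 121, 0), (32, false, 4718591, 12, 8, 107, 0), (27, true, 4194303, 12, 10, 131, 1), (32, false, 3670015, 12, 9, 121, 0), (32, false, 3145727, 12, 9, 121, 0), (32, false, 2621439, 12, 8, 107, 0), (27, true, 2097151, 12, 9, 116, 1), (27, true, 1835007, 12, 8, 102, 1), (32, false, 1572863, 12, 8, 107, 0), (32, false, 1310719, 12, 7, 94, 0), (32, false, 1048575, 12, 8, 107, 0), (32, false, 786431, 12, 7, 94, 0), (32, false, 524287, 11, 8, 107, 0), (32, false, 393215, 11, 7, 94, 0), (32, false, 262143, 11, 7, 94, 0), (32, false, 131071, 10, 7, 94, 0), (32, false, 98303, 10, 6, 82, 0), (32, false, 94207, 10, 5, 71, 0)]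

theorem Mc_us : UsOK 23 (fun a => Mccv.getD a 0) Mcus :=
  usOK_of_chk (by decide +kernel)

theorem Mc_pol1 : polG1 23 (2 ^ 120) 11 Mcus 5 (McL.map Prod.snd) = true := by
  decide +kernel

theorem Mc_pol2 : polG2 23 (2 ^ 120) 11 Mcus (McL.map Prod.snd) = true := by
  decide +kernel

theorem Mc_pol : polD 23 (2 ^ 120) 11 Mcus 5 (McL.map Prod.snd) = true :=
  polD_of_fast Mc_pol1 Mc_pol2

theorem Mc_mst : mstC 23 11 5 (fun a => Mclv.getD a 0) Mcus 94207 McL = true := by
  decide +kernel

theorem Mc_th : thChk 23 5 16 (fun a => Mclv.getD a 0) (fun a => Mccv.getD a 0)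
    (fun a => Mcum.getD a 0) (fun a => Mcth.getD a 0) = true := by decide +kernel

theorem Mc_bm : bmC 23 5 16 94207 (fun a => Mclv.getD a 0)
    (fun a => Mcum.getD a 0) = true := by decide +kernel

end Pool.Agent.GaussPoset.J10
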