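import Pool.Agent.W_448j10_h67.JbA
import Pool.Agent.W_448j10_h67.JbD
import Pool.Agent.W_448j8_h67.JaM
import Pool.Agent.W_448fc_h67.FcU

/-!
The components at the window 5, level 10: data of one component; light components, quadric
(MP_448cb3_co).
-/

namespace Pool.Agent.GaussPoset.J10

set_option linter.unusedSectionVars false

open Polynomial Finset Dd Wd Cl J8

universe u

variable {P : Type u} [Fintype P] [PartialOrder P] [DecidableEq P] {r : ℕ}
variable {t : Tops P} {lo hi : ℕ → ℕ} {e : ℕ → ℕ → P}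

/-- the numbers of elements above `x` on the levels `0, …, 9` -/
def Pf (x : P) (p : List ℕ) : Prop := ∀ k < 10, nab k x = p.getD k 0

/-- the end of a quadric -/
def pQ : List ℕ := [1, 1, 1, 1, 1, 2, 1, 1, 1, 1]

/-- the end of `E7` -/
def pE7 : List ℕ := [1, 1, 1, 1, 2, 2, 2, 2, 2, 1]

/-- the end of `E6` -/
def pE6 : List ℕ := [1, 1, 1, 2, 2, 2, 2, 2, 1, 1]

/-- the fold end -/
def pF : List ℕ := [1, 1, 2, 2, 3, 3, 3, 2, 2, 1]

/-- `z` covers exactly the fold end and the straight end of the stair `t` -/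
def IsC (t : Tops P) (b : ℕ) (θ : P → ℕ) (z : P) : Prop :=
  ∃ Nc co F S, CEl (P := P) t Nc co 5 z F S ∧ b = 3 ∧ θ F = 1

/-- the ends of the level 10 -/
inductive En (θ : P → ℕ) (x : P) : Prop
  | far (h : 5 ≤ θ x) (hn : ∀ k ≤ 5, nab k x = 1)
  | q (h : θ x = 0) (hn : Pf x pQ)
  | e7 (h : θ x = 2) (hn : Pf x pE7)
  | e6 (h : θ x = 2) (hn : Pf x pE6)
  | f (h : θ x = 1) (hn : Pf x pF)

/-- the own elements of the level 11 which are not natural -/
inductive Ow (K w : ℕ) (t : Tops P) (b : ℕ) (θ : P → ℕ) (z x : P) : Prop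
  | far (hc : min K (w + 1) ≤ ct 5 (θ x + 1) z)
  | pend (hp : ∀ y, z ⋖ y → y = x)
      (he : (θ x = 0 ∧ Pf x pQ) ∨ (θ x = 1 ∧ Pf x pF) ∨ (θ x = 2 ∧ Pf x pE6))
  | cx (h : IsC t b θ z)

/-- a pendant of the level 12 below a pendant of the end of `E7` -/
def Cp7 (θ : P → ℕ) (z x : P) : Prop :=
  lev z = 12 ∧ (∀ y, z ⋖ y → y = x) ∧ θ x = 3 ∧ Pf x pE7 ∧ nab 10 x = 1

/-- data of one component: natural set `S`, first pole below `K` at the energy `w` with the
value `ρ` (none if `w = K`) -/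
structure TD (K : ℕ) (t : Tops P) (b w : ℕ) (ρ : ℤ) (S : Finset P) (θ : P → ℕ)
    (B : P → Prop) : Prop where
  b_one : 1 ≤ b
  w_pos : 1 ≤ w
  w_le : w ≤ K
  sg : w < K → (20 ≤ w ∧ w < 25 ∧ ρ < 0) ∨ (w = 27 ∧ 0 < ρ)
  up : ∀ x ∈ S, ∀ y, x ≤ y → y ∈ S
  le_t : ∀ x ∈ S, x ≤ (t : P)
  low : lowPart 10 (t : P) ⊆ S
  own : ∀ z x, lev z = 11 → z ∉ S → (∀ y, z ⋖ y → y ≤ (t : P)) → z ⋖ x →
    (∀ y, z ⋖ y → θ x ≤ θ y) → Ow K w t b θ z x
  deep : ∀ z x, 12 ≤ lev z → z ∉ S → x ∈ S → z ⋖ x →
    min K (w + 1) ≤ ct 5 (θ x + 1) z ∨ Cp7 θ z x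
  ends : ∀ x ≤ (t : P), lev x = 10 → (Win.uc x).card = 1 → En θ x
  data : ∀ N : Tops P → Finset P, NatSys N → (∀ s : Tops P, lowPart 10 (s : P) ⊆ N s) →
    N t = S → ∀ θ' B', (∀ x ∈ N t, θ' x = θ x) → (∀ x ∈ N t, (B' x ↔ B x)) →
    CompDataL (unnat N) topOf t 5 b w θ' B'
  pole : w < K → ∀ N : Tops P → Finset P, NatSys N → N t = S → ∀ f,
    (∀ n, exq n f = Z {x : {x : P // x ∉ unnat N} // topOf (x : P) = t} 5 n) → Pl w b ρ f

/-- a smaller bound -/
theorem TD.mono {K K' : ℕ} {b w : ℕ} {ρ : ℤ} {S : Finset P} {θ : P → ℕ} {B : P → Prop}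
    (T : TD K t b w ρ S θ B) (h : K' ≤ K) (h1 : 1 ≤ K') : TD K' t b (min w K') ρ S θ B where
  b_one := T.b_one
  w_pos := by have := T.w_pos; omega
  w_le := Nat.min_le_right _ _
  sg := fun hw => by
    have h2 : min w K' = w := by omega
    rw [h2]
    exact T.sg (by omega)
  up := T.up
  le_t := T.le_t
  low := T.low
  own := fun z x hl hz ho hzx hm => by
    rcases T.own z x hl hz ho hzx hm with hc | ⟨hp, he⟩ | hc
    · exact Ow.far (le_trans (by omega) hc)
    · exact Ow.pend hp he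
    · exact Ow.cx hc
  deep := fun z x hl hz hx hzx => by
    rcases T.deep z x hl hz hx hzx with hc | hc
    · exact Or.inl (le_trans (by omega) hc)
    · exact Or.inr hc
  ends := T.ends
  data := fun N HN hlow hN θ' B' hθ hB =>
    CompDataL.of_le (T.data N HN hlow hN θ' B' hθ hB) (Nat.min_le_left _ _)
  pole := fun hw => by
    have h2 : min w K' = w := by omega
    rw [h2]
    exact T.pole (by omega)

/-- the sets `onlyB` as natural sets -/
lemma natSys_only : NatSys (fun s : Tops P => onlyB s) where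
  up := fun _ _ hx _ hxy => onlyB_up hx hxy
  le_t := fun _ _ hx => onlyB_le hx

/-- one natural set is replaced -/
lemma natSys_updO {S : Finset P} (h1 : ∀ x ∈ S, ∀ y, x ≤ y → y ∈ S)
    (h2 : ∀ x ∈ S, x ≤ (t : P)) : NatSys (upd (fun s : Tops P => onlyB s) t S) where
  up := by
    intro s
    by_cases h : s = t
    · subst h
      rw [upd_self]
      exact h1
    · rw [upd_ne _ _ h]
      exact natSys_only.up s
  le_t := by
    intro s
    by_cases h : s = t
    · subst h
      rw [upd_self]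
      exact h2
    · rw [upd_ne _ _ h]
      exact natSys_only.le_t s

/-- an element outside with a natural cover -/
lemma unnat_updO {S : Finset P} (h2 : ∀ x ∈ S, x ≤ (t : P)) {z x : P} (hz : z ∉ S) (hx : x ∈ S)
    (hzx : z ≤ x) : z ∈ unnat (upd (fun s : Tops P => onlyB s) t S) := by
  rw [mem_unnat]
  intro s hs
  by_cases h : s = t
  · subst h
    rw [upd_self] at hs
    exact hz hs
  · rw [upd_ne _ _ h] at hs
    exact h (Subtype.ext (mem_onlyB.mp hs t t.2 (hzx.trans (h2 x hx))).symm)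

/-- all covers of an element of level 11 are below one top only: it is below this top only -/
lemma onlyB_eleven (h : Win.GoodTo P r 10) {z : P} (hl : lev z = 11)
    (ho : ∀ y, z ⋖ y → y ≤ (t : P)) : z ∈ onlyB t := by
  rw [mem_onlyB]
  intro s hs hzs
  have hlt : z < s := lt_of_le_of_ne hzs (by rintro rfl; omega)
  obtain ⟨y, hy, hys⟩ := Hul.exists_cov hlt
  have h1 := (h.H.covBy_iff.mp hy).2
  have h2 := only_low h y (ho y hy) (by omega)
  exact mem_onlyB.mp h2 s hs hys

/-- levels with one element -/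
lemma nab_single (C : Cp.Comp 10 (t : P) lo hi e) (h : Win.GoodTo P r 10) {x : P}
    (hx : x ≤ (t : P)) (hl : lev x = 10) {k : ℕ} (hk : k ≤ 10) (h1 : lo k = hi k) :
    nab k x = 1 := by
  classical
  refine le_antisymm ?_ (one_le_nab (by omega))
  unfold nab
  rw [Finset.card_le_one]
  intro a ha b hb
  rw [mem_filter, mem_lv] at ha hb
  have key : ∀ y : P, lev y = k ∧ x ≤ y → y = e k (lo k) := by
    intro y hy
    have hyt : y ≤ (t : P) := Cp.up_le h.H h.good t.2 hx hl.le hy.2
    obtain ⟨s, s1, s2, hs⟩ := C.surj y hyt (by omega)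
    rw [hy.1] at s1 s2 hs
    rw [← hs, show s = lo k by omega]
  rw [key a ha, key b hb]

/-- light components -/
theorem tdLight (h : Win.GoodTo P r 10) (C : Cp.Comp 10 (t : P) lo hi e)
    (h5 : ∀ k ≤ 5, lo k = hi k) : TD 33 t 1 33 0 (onlyB t) (fun x => lev x - 5)
      (fun _ => False) where
  b_one := le_rfl
  w_pos := by norm_num
  w_le := le_rfl
  sg := fun h => absurd h (by norm_num)
  up := fun x hx y hxy => onlyB_up hx hxy
  le_t := fun x hx => onlyB_le hx
  low := fun x hx => by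
    rw [mem_lowPart] at hx
    exact only_low h x hx.1 hx.2
  own := fun z x hl hz ho _ _ => absurd (onlyB_eleven h hl ho) hz
  deep := fun z x hl hz hx hzx => by
    left
    have hlz := (h.H.covBy_iff.mp hzx).2
    have h1 : ∃ s : P, lev s = 0 ∧ z ≤ s ∧ s ≠ t := by
      rw [mem_onlyB] at hz
      push Not at hz
      exact hz
    obtain ⟨s, hs1, hs2, hs3⟩ := h1
    have h2 := sq_le_cst (i := 5) (h := fun _ => lev x - 5 + 1) (z := z) (by omega)
      (by show lev x - 5 + 1 = lev z - 5; omega) (fun k _ hk =>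
        two_le_nab_join natSys_only h.H.gradedBelow (t := t) hx hzx.1.le hs1 hs3 hs2 (by omega))
    have h3 : 7 ^ 2 ≤ (lev z - 5) ^ 2 := Nat.pow_le_pow_left (by omega) 2
    have h4 : ct 5 (lev x - 5 + 1) z = cst 5 (fun _ => lev x - 5 + 1) z := rfl
    omega
  ends := fun x hx hl _ => En.far (by show 5 ≤ lev x - 5; omega)
    (fun k hk => nab_single C h hx hl (by omega) (h5 k hk))
  data := by
    intro N HN hlow hN θ' B' hθ hB
    have H := exists_light (t := t) C h.H h.good h.H.gradedBelow (i := 5) (by norm_num)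
    refine compL_nat HN H (fun x hx => by rwa [hN] at hx) (fun x _ hx => absurd hx (by simp))
      hθ hB 33
  pole := fun h => absurd h (by norm_num)

/-- the quadric -/
theorem tdQuad (h : Win.GoodTo P r 10) (C : Cp.Comp 10 (t : P) lo hi e)
    (Q : QRows 10 5 lo hi) : TD 33 t (hi 5 - lo 5 + 1) 33 0 (lowPart 10 (t : P)) (fun _ => 0)
      (fun x => x ∈ lowPart 10 (t : P)) := by
  classical
  have hQ : QInf 5 5 t := Q.inf (m := 5) C (by norm_num)
  have hup := low_up (t := t) (m := 5) h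
  have hN := natTop_quad (by norm_num) (dvd_W_Qd 5) hQ (fun x hx y hxy => hup x y hxy hx)
  have h4 := Q.at'
  have hb : hi 5 - lo 5 + 1 = 2 := by omega
  have hprof : ∀ x, x ≤ (t : P) → lev x = 10 → Pf x pQ := by
    intro x hx hl k hk
    have hpr := quad_prof hQ hx (by omega) hup (by norm_num)
    have h5 := hpr (10 - k) (by omega)
    rw [show 2 * 5 - (10 - k) = k by omega] at h5
    rw [h5]
    have h6 : ∀ k < 10, 1 + Fi.gD (List.replicate 5 0 ++ [1]) (10 - k) = pQ.getD k 0 := by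
      decide +kernel
    exact h6 k hk
  rw [hb]
  constructor
  · norm_num
  · norm_num
  · exact le_rfl
  · exact fun h => absurd h (by norm_num)
  · exact fun x hx y hxy => hup x y hxy hx
  · exact fun x hx => (mem_lowPart.mp hx).1
  · exact Finset.Subset.refl _
  · intro z x hl hz ho hzx _
    have hlx : lev x = 10 := by
      have := (h.H.covBy_iff.mp hzx).2
      omega
    refine Ow.pend ?_ (Or.inl ⟨rfl, hprof x (ho x hzx) hlx⟩)
    intro y hy
    have hly : lev y = 10 := by
      have := (h.H.covBy_iff.mp hy).2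
      omega
    exact le_antisymm (hQ.bot y (ho y hy) (by omega) x (ho x hzx) (by omega))
      (hQ.bot x (ho x hzx) (by omega) y (ho y hy) (by omega))
  · intro z x hl _ hx hzx
    have := (h.H.covBy_iff.mp hzx).2
    have := (mem_lowPart.mp hx).2
    omega
  · exact fun x hxt hl _ => En.q rfl (hprof x hxt hl)
  · intro N HN hlow hN' θ' B' hθ hB
    refine compL_nat HN hN ?_ ?_ hθ hB 33
    · intro x hx
      rw [hN'] at hx
      exact hx
    · intro x hx _
      rw [hN']
      exact hx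
  · exact fun h => absurd h (by norm_num)

end Pool.Agent.GaussPoset.J10
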