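import Pool.Agent.W_448j10_h67.JbH

/-!
The components at the window 5, level 10: natural sets with twins of the level 11
(MP_448cb3_co).
-/

namespace Pool.Agent.GaussPoset.J10

set_option linter.unusedSectionVars false

open Polynomial Finset Dd Wd Cl J8

universe u

variable {P : Type u} [Fintype P] [PartialOrder P] [DecidableEq P] {r : ℕ}
variable {t : Tops P}

/-- elements of the level 11 with the strict up-set of an element of `N'` -/
noncomputable def twS (N' : Finset P) : Finset P := by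
  classical exact univ.filter (fun z => z ∉ N' ∧ lev z = 11 ∧ ∃ y ∈ N', ∀ w, z < w ↔ y < w)

lemma mem_twS {N' : Finset P} {z : P} :
    z ∈ twS N' ↔ z ∉ N' ∧ lev z = 11 ∧ ∃ y ∈ N', ∀ w, z < w ↔ y < w := by
  classical
  unfold twS
  simp

/-- the partner of a twin -/
noncomputable def twF (N' : Finset P) (z : P) : P := by
  classical exact if h : ∃ y ∈ N', ∀ w, z < w ↔ y < w then h.choose else z

lemma twF_spec {N' : Finset P} {z : P} (hz : z ∈ twS N') :
    twF N' z ∈ N' ∧ ∀ w, z < w ↔ twF N' z < w := by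
  have h := (mem_twS.mp hz).2.2
  unfold twF
  rw [dif_pos h]
  exact h.choose_spec

/-- the thresholds with twins -/
noncomputable def thT (N' : Finset P) (θ : P → ℕ) (x : P) : ℕ := by
  classical exact if x ∈ twS N' then θ (twF N' x) else θ x

lemma thT_of {N' : Finset P} {θ : P → ℕ} {x : P} (h : x ∈ twS N') :
    thT N' θ x = θ (twF N' x) := if_pos h

lemma thT_not {N' : Finset P} {θ : P → ℕ} {x : P} (h : x ∉ twS N') : thT N' θ x = θ x := if_neg h

/-- elements with two elements on every level above each element below -/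
structure FulL (N' : Finset P) (θ : P → ℕ) (x : P) : Prop where
  th : θ x = lev x - 5
  two : ∀ z, z ∉ N' → z ≤ x → ∀ k, 6 ≤ k → k ≤ lev x → 2 ≤ nab k z
  tw : ∀ z, z ∉ N' → (∀ w, x < w ↔ z < w) → False

/-- **The data of a natural set with twins.** -/
theorem tdTw (h : Win.GoodTo P r 10) {N' : Finset P} {θ : P → ℕ} {B : P → Prop} {b : ℕ}
    (H : NatTop 5 t b N' θ B) (hb : 1 ≤ b) (hlow : lowPart 10 (t : P) ⊆ N')
    (hB : ∀ x ∈ N', B x → lev x ≤ 10) (hle : ∀ x ∈ N', θ x ≤ lev x - 5)
    (hk : ∀ x ∈ N', 11 ≤ lev x → FulL N' θ x ∨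
      (1 ≤ θ x ∧ 34 ≤ ct 5 (θ x + 1) x + (θ x + 1)))
    (hown : ∀ z x, lev z = 11 → z ∉ N' → (∀ y ∈ N', ¬ ∀ w, z < w ↔ y < w) →
      (∀ y, z ⋖ y → y ≤ (t : P)) → z ⋖ x → (∀ y, z ⋖ y → θ x ≤ θ y) → Ow 33 33 t b θ z x)
    (hends : ∀ x ≤ (t : P), lev x = 10 → (Win.uc x).card = 1 → En θ x) :
    TD 33 t b 33 0 (N' ∪ twS N') (thT N' θ) (fun x => x ∈ N' ∧ B x) := by
  classical
  have HG := h.H
  have hlT : ∀ z ∈ twS N', lev z = 11 := fun z hz => (mem_twS.mp hz).2.1
  have hnT : ∀ x, lev x ≤ 10 → x ∉ twS N' := fun x hx hT => by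
    have := hlT x hT
    omega
  have hth10 : ∀ x, lev x = 10 → thT N' θ x = θ x := fun x hx => thT_not (hnT x hx.le)
  have hTN : ∀ x ∈ N', x ∉ twS N' := fun x hx hT => (mem_twS.mp hT).1 hx
  -- a partner
  have hpart : ∀ z ∈ twS N', twF N' z ∈ N' ∧ lev (twF N' z) = 11 ∧
      1 ≤ θ (twF N' z) ∧ θ (twF N' z) ≤ 6 ∧
      34 ≤ ct 5 (θ (twF N' z) + 1) (twF N' z) + (θ (twF N' z) + 1) := by
    intro z hz
    obtain ⟨h1, h2⟩ := twF_spec hz
    have h3 : lev (twF N' z) = 11 := by
      rw [← hlT z hz]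
      exact (lev_eq_of_up h2).symm
    have h4 := hle _ h1
    rcases hk _ h1 (by omega) with h5 | h5
    · exact (h5.tw z (mem_twS.mp hz).1 fun w => (h2 w).symm).elim
    · exact ⟨h1, h3, h5.1, by omega, h5.2⟩
  have htop : ∀ z ∈ twS N', z ≤ (t : P) := by
    intro z hz
    have hlz := hlT z hz
    have hlt : z < (topOf z : P) := lt_of_le_of_ne (le_topOf z) (by
      intro h
      have h3 := (topOf z).2
      rw [← h] at h3
      omega)
    obtain ⟨v, hv, -⟩ := Hul.exists_cov hlt
    obtain ⟨h1, h2⟩ := twF_spec hz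
    exact hv.1.le.trans (H.le_t v (H.up _ h1 v ((h2 v).mp hv.1).le))
  have hup : ∀ x ∈ N' ∪ twS N', ∀ y, x ≤ y → y ∈ N' ∪ twS N' := by
    intro x hx y hxy
    rw [mem_union] at hx ⊢
    rcases hx with hx | hx
    · exact Or.inl (H.up x hx y hxy)
    · rcases eq_or_lt_of_le hxy with h1 | h1
      · rw [← h1]; exact Or.inr hx
      · obtain ⟨h2, h3⟩ := twF_spec hx
        exact Or.inl (H.up _ h2 y ((h3 y).mp h1).le)
  constructor
  · exact hb
  · norm_num
  · exact le_rfl
  · exact fun h => absurd h (by norm_num)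
  · exact hup
  · intro x hx
    rw [mem_union] at hx
    rcases hx with hx | hx
    · exact H.le_t x hx
    · exact htop x hx
  · exact fun x hx => mem_union_left _ (hlow hx)
  · -- own elements
    intro z x hl hz ho hzx hm
    rw [mem_union, not_or] at hz
    have hly : ∀ y, z ⋖ y → lev y = 10 := by
      intro y hy
      have := (HG.covBy_iff.mp hy).2
      omega
    have h1 := hown z x hl hz.1 (fun y hy hw => hz.2 (mem_twS.mpr ⟨hz.1, hl, y, hy, hw⟩)) ho hzx
      (fun y hy => by
        have := hm y hy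
        rwa [hth10 x (hly x hzx), hth10 y (hly y hy)] at this)
    have hx := hth10 x (hly x hzx)
    rcases h1 with hc | ⟨hp, he⟩ | hc
    · exact Ow.far (by rw [hx]; exact hc)
    · exact Ow.pend hp (by rw [hx]; exact he)
    · refine Ow.cx ?_
      obtain ⟨Nc, co, F, S, C, g1, g2⟩ := hc
      exact ⟨Nc, co, F, S, C, g1, by rw [hth10 F C.lev_F]; exact g2⟩
  · -- deep elements
    intro z x hl hz hx hzx
    left
    rw [mem_union, not_or] at hz
    have hlz := (HG.covBy_iff.mp hzx).2
    rw [mem_union] at hx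
    have hcov : ∀ k, k ≤ lev z - 5 → ct 5 k x + k ≤ ct 5 k z := by
      intro k hk'
      have h7 := ct_cov (i := 5) (k := k) hzx.1
      rw [Nat.min_eq_left hk'] at h7
      omega
    rcases hx with hx | hx
    · rw [thT_not (hTN x hx)]
      have h4 := hle x hx
      rcases hk x hx (by omega) with h5 | ⟨h5, h6⟩
      · have h2 := sq_le_cst (i := 5) (h := fun _ => lev x - 5 + 1) (z := z) (by omega)
          (by show lev x - 5 + 1 = lev z - 5; omega) (fun k hk1 hk2 =>
            h5.two z hz.1 hzx.1.le k (by omega) (by omega))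
        have h3 : 7 ^ 2 ≤ (lev z - 5) ^ 2 := Nat.pow_le_pow_left (by omega) 2
        have h8 : ct 5 (lev x - 5 + 1) z = cst 5 (fun _ => lev x - 5 + 1) z := rfl
        rw [h5.th]
        omega
      · have h7 := hcov (θ x + 1) (by omega)
        omega
    · rw [thT_of hx]
      obtain ⟨g1, g2, g3, g4, g5⟩ := hpart x hx
      have h7 := hcov (θ (twF N' x) + 1) (by omega)
      have h8 : ct 5 (θ (twF N' x) + 1) x = ct 5 (θ (twF N' x) + 1) (twF N' x) :=
        ct_congr_up (twF_spec hx).2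
      omega
  · intro x hx hl hu
    have h1 := hth10 x hl
    rcases hends x hx hl hu with ⟨g, g'⟩ | ⟨g, g'⟩ | ⟨g, g'⟩ | ⟨g, g'⟩ | ⟨g, g'⟩
    · exact En.far (by rw [h1]; exact g) g'
    · exact En.q (by rw [h1]; exact g) g'
    · exact En.e7 (by rw [h1]; exact g) g'
    · exact En.e6 (by rw [h1]; exact g) g'
    · exact En.f (by rw [h1]; exact g) g'
  · -- the data
    intro N HN hlowN hN θ' B' hθ hB'
    have hmem : ∀ x, x ∈ N t ↔ x ∈ N' ∨ x ∈ twS N' := by
      intro x
      rw [hN, mem_union]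
    refine compL_twins HN (i := 5) (j := 10) (by norm_num) hlowN H (T := twS N') (θ := θ')
      (B := B') (tw := twF N') (n0 := 33) (fun x hx => (hmem x).mp hx)
      (fun y hy => ⟨(hmem y).mpr (Or.inr hy), (hmem _).mpr (Or.inl (hpart y hy).1)⟩)
      (fun x hx hl => hlow (mem_lowPart.mpr ⟨hx, hl⟩)) (fun x hx _ => (hmem x).mpr (Or.inl hx))
      (fun x hx hxT => by rw [hθ x hx, thT_not hxT])
      (fun y hy => by rw [hθ y ((hmem y).mpr (Or.inr hy)), thT_of hy])
      (fun x hx hxT => ?_) (fun y hy hc => ?_) (θ0 := thT N' θ) (fun x hx => thT_not hx)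
      (fun y hy => thT_of hy) ⟨?_, ?_, ?_, ?_, ?_⟩
    · rw [hB' x hx]
      exact and_iff_right (((hmem x).mp hx).resolve_right hxT)
    · exact (mem_twS.mp hy).1 ((hB' y ((hmem y).mpr (Or.inr hy))).mp hc).1
    · exact fun y hy => (mem_twS.mp hy).1
    · exact fun y hy => (hpart y hy).1
    · exact fun y hy hc => (mem_twS.mp hy).1 hc.1
    · intro y hy
      obtain ⟨g1, g2, g3, g4, g5⟩ := hpart y hy
      have hy1 : twF N' y ∉ twS N' := hTN _ g1
      have h6 : ct 5 (θ (twF N' y) + 1) (twF N' y) ≤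
          ∑ w, (if twF N' y ≤ w then lev w - 5 else 0) := by
        rw [ct_eq_sum]
        refine Finset.sum_le_sum fun w _ => ?_
        split_ifs
        · exact Nat.min_le_right _ _
        · exact le_rfl
      have h7 := ct_succ 5 (θ (twF N' y) + 1) (twF N' y)
      rw [g2] at h7
      refine ⟨?_, fun w => ((twF_spec hy).2 w).symm, ?_, ?_, ?_, ?_, ?_⟩
      · intro hh
        exact (mem_twS.mp hy).1 (hh ▸ g1)
      · rw [thT_not hy1]; exact g3
      · rw [thT_not hy1, thT_of hy]
      · rw [thT_not hy1, g2]; omega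
      · rw [thT_not hy1]; omega
      · rw [thT_not hy1]; omega
    · intro y hy
      rw [(hpart y hy).2.1]
      norm_num
  · exact fun h => absurd h (by norm_num)

end Pool.Agent.GaussPoset.J10
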