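import Pool.Agent.W_448j10_h67.JbI

/-!
The components at the window 5, level 10: rectangle-like components (MP_448cb3_co).
-/

namespace Pool.Agent.GaussPoset.J10

set_option linter.unusedSectionVars false

open Polynomial Finset Dd Wd Cl J8

universe u

variable {P : Type u} [Fintype P] [PartialOrder P] [DecidableEq P] {r : ℕ}
variable {t : Tops P} {lo hi : ℕ → ℕ} {e : ℕ → ℕ → P}

/-- the thresholds of a natural set are bounded -/
lemma natTop_le {N' : Finset P} {θ : P → ℕ} {B : P → Prop} {b : ℕ} (H : NatTop 5 t b N' θ B) :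
    ∀ x ∈ N', θ x ≤ lev x - 5 := by
  intro x hx
  have HM := natSys_updO (t := t) H.up H.le_t
  have hC := H.data _ HM (upd_self _ t N') θ (fun x => x ∈ N' ∧ B x) (fun _ _ => rfl)
    (fun x hx => ⟨fun h => h.2, fun h => ⟨hx, h⟩⟩)
  have h1 : x ∈ upd (fun s : Tops P => onlyB s) t N' t := by
    rw [upd_self]
    exact hx
  exact hC.le x (HM.mem_iff.mp h1).1 (HM.mem_iff.mp h1).2

/-- covers of an element of level 11 with the same strict up-set -/
lemma up_pair_eq (H : Gr P r) {z y x x' : P} (hzx : z ⋖ x) (hzx' : z ⋖ x') (hyx : y ⋖ x)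
    (hyx' : y ⋖ x') (hne : x ≠ x') : ∀ w, z < w ↔ y < w := by
  refine up_of_cov fun w => ?_
  constructor
  · intro hw
    rcases uc_pair H hzx hzx' hne hw with h1 | h1
    · rw [h1]; exact hyx
    · rw [h1]; exact hyx'
  · intro hw
    rcases uc_pair H hyx hyx' hne hw with h1 | h1
    · rw [h1]; exact hzx
    · rw [h1]; exact hzx'

/-- one or two covers -/
lemma cov_cases (H : Gr P r) {z x : P} (hzx : z ⋖ x) :
    (∀ y, z ⋖ y → y = x) ∨ ∃ x', z ⋖ x' ∧ x' ≠ x := by
  by_cases hp : ∀ y, z ⋖ y → y = x
  · exact Or.inl hp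
  · push Not at hp
    exact Or.inr hp

/-- two neighbours or two ends -/
lemma near11 (h : Win.GoodTo P r 10) {z x x' : P} (hl : lev z = 11) (hzx : z ⋖ x)
    (hzx' : z ⋖ x') (hne : x ≠ x') : (∃ p, x ⋖ p ∧ x' ⋖ p) ∨
      ((Win.uc x).card = 1 ∧ (Win.uc x').card = 1) := by
  rcases (Win.near_level' (i := 9) h (by norm_num)).1 z x x' (by omega) hzx hzx' hne with
    h6 | ⟨h6, h7, -⟩
  · left
    obtain ⟨u, hu1, hu2⟩ := Win.exists_of_ucv (v := x) (v' := x') (by rw [h6]; exact one_pos)
    exact ⟨u, hu1, hu2⟩
  · exact Or.inr ⟨h6, h7⟩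

/-- rectangle-like components -/
theorem tdRect (h : Win.GoodTo P r 10) (C : Cp.Comp 10 (t : P) lo hi e)
    (h1 : lo 1 = 0 ∧ hi 1 = 1) (S : RectShape 10 lo hi) :
    ∃ S θ B, TD 33 t (hi 5 - lo 5 + 1) 33 0 S θ B := by
  classical
  have H := h.H
  have hg := h.good
  have hlt : lo 5 < hi 5 := by
    have g1 := C.lo_mono (l := 1) (d := 4) (by norm_num)
    have g2 := C.hi_mono (l := 1) (d := 4) (by norm_num)
    norm_num at g1 g2
    by_contra hcon
    have g3 := C.lo_le 5 (by norm_num)
    have g4 := shape_lo C S.lo (l := 5) (by omega) 5 (by norm_num)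
    have g5 := shape_hi C S.hi (l := 5) (by omega) 5 (by norm_num)
    have g6 := C.lo_le (5 + 5) (by norm_num)
    omega
  obtain ⟨Nc, co, R, -⟩ := exists_rect C H hg H.gradedBelow S (i := 5) (by norm_num) hlt
  have hR := R.natTop H.gradedBelow (by norm_num)
  have hmem : ∀ x, x ≤ (t : P) → lev x = 10 → x ∈ Nc := fun x hx hl =>
    R.strip (mem_lowPart.mpr ⟨hx, hl.le⟩)
  have hb := R.b_le
  have hb2 := R.b_two
  set b := hi 5 - lo 5 + 1 with hbe
  set N0 := upd (fun s : Tops P => onlyB s) t (natR Nc co) with hN0
  have HN := natSys_updO (t := t) hR.up hR.le_t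
  have hNt : N0 t = natR Nc co := upd_self _ _ _
  have hun : ∀ {z x : P}, z ∉ natR Nc co → x ∈ natR Nc co → z ≤ x → z ∈ unnat N0 :=
    fun hz hx hzx => unnat_updO hR.le_t hz hx hzx
  -- straight elements
  have hstr : ∀ x ∈ Nc, x ∉ junk (fun _ => True) Nc co → x ∉ junk (fun _ => True) Nc (swp co) →
      thR 5 b Nc co x = ((co x).1 - (b - 1)) + ((co x).2 - 5) := by
    intro x _ h1 h2
    unfold thR
    rw [if_neg (by push Not; exact ⟨h1, h2⟩)]
  have hjk : ∀ x ∈ Nc, thR 5 b Nc co x = lev x - 5 ∨
      thR 5 b Nc co x = ((co x).1 - (b - 1)) + ((co x).2 - 5) := by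
    intro x _
    unfold thR
    split_ifs
    · exact Or.inl rfl
    · exact Or.inr rfl
  have hrow : b = 6 ∨ ∀ x ∈ Nc, (co x).1 ≤ b - 1 := R.rows
  -- no pendants
  have hnop : ∀ x z : P, z ∉ natR Nc co → x ≤ (t : P) → lev x = 10 → z ⋖ x →
      (∀ y, z ⋖ y → y = x) → False := by
    intro x z hz hxt hxl hzx honly
    have hx := hmem x hxt hxl
    have h3 := rect_pendant H R hNt (hun hz (mem_natR.mpr (Or.inl hx)) hzx.1.le)
      (by rw [hNt]; exact mem_natR.mpr (Or.inl hx)) hzx honly
    exact rectShape_no_pendant (i := 9) h (by norm_num) t.2 C S hxl hxt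
      (chart_inner_uc R.chart H hx h3.2.2.2.1 h3.2.2.2.2) hzx honly
  -- single-up elements
  have hend : ∀ x ∈ Nc, lev x = 10 → (Win.uc x).card = 1 → co x = (0, 10) ∨ co x = (10, 0) := by
    intro x hx hl hu
    have hlc := R.chart.lev x hx
    by_contra hcon
    push Not at hcon
    have h3 : 1 ≤ (co x).1 := by
      by_contra h4
      exact hcon.1 (Prod.ext (by simp only; omega) (by simp only; omega))
    have h4 : 1 ≤ (co x).2 := by
      by_contra h4
      exact hcon.2 (Prod.ext (by simp only; omega) (by simp only; omega))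
    have := chart_inner_uc R.chart H hx h3 h4
    omega
  have hendth : ∀ x ∈ Nc, co x = (0, 10) ∨ co x = (10, 0) → thR 5 b Nc co x = 5 := by
    intro x hx hc
    have hlc := R.chart.lev x hx
    rcases hjk x hx with h2 | h2
    · rcases hc with hc | hc <;> rw [hc] at hlc <;> simp only at hlc <;> omega
    · rw [h2]
      rcases hc with hc | hc
      · rw [hc]
        simp only
        omega
      · rcases hrow with h3 | h3
        · rw [hc, h3]
          rfl
        · have := h3 x hx
          rw [hc] at this
          simp only at this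
          omega
  refine ⟨_, _, _, tdTw h hR (by omega) (fun x hx => mem_natR.mpr (Or.inl (R.strip hx))) ?_
    (natTop_le hR) ?_ ?_ ?_⟩
  · rintro x - ⟨hx, hc⟩
    rw [R.chart.lev x hx, hc]
    simp only
    omega
  · -- costs
    intro x hx hl
    have hF : (x ∈ junk (fun _ => True) Nc co ∨ x ∈ junk (fun _ => True) Nc (swp co) ∨
        (x ∈ Nc ∧ ((co x).1 = 0 ∨ (co x).2 = 0))) → thR 5 b Nc co x = lev x - 5 →
        FulL (natR Nc co) (thR 5 b Nc co) x := by
      intro h7 hth
      refine ⟨hth, ?_, ?_⟩
      · intro z hz hzx k hk hkx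
        exact rect_two_le_nab H R hNt (hun hz hx hzx) hzx h7 (by omega) hkx
      · intro z hz hw
        have hxt : x < (topOf x : P) := lt_of_le_of_ne (le_topOf x) (by
          intro h
          have h3 := (topOf x).2
          rw [← h] at h3
          omega)
        obtain ⟨u, hu, -⟩ := Hul.exists_cov hxt
        have huN : u ∈ natR Nc co := hR.up x hx u hu.1.le
        have hzU : z ∈ unnat N0 := hun hz huN ((hw u).mp hu.1).le
        rcases h7 with h' | h' | ⟨hxN, h'⟩
        · exact hz (mem_natR.mpr (Or.inr (Or.inl (junk_twin h' hw))))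
        · exact hz (mem_natR.mpr (Or.inr (Or.inr (junk_twin h' hw))))
        · have hlx := R.chart.lev x hxN
          rcases h' with h7 | h7
          · obtain ⟨u, hu, hcu⟩ := R.chart.low x hxN (0, (co x).2 - 1)
              ⟨Nat.zero_le _, Nat.sub_le _ _⟩ trivial
            refine straight_twin H R hNt hxN hu ?_ ?_ ?_ hzU hw
            · rw [hcu]
              exact Or.inr ⟨by simp only; omega, by simp only; omega⟩
            · intro y hy hp
              rw [hcu]
              rcases hp with hp | hp
              · omega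
              · exact Prod.ext (by simp only; omega) (by simp only; omega)
            · rw [hcu]
              exact Or.inl rfl
          · obtain ⟨u, hu, hcu⟩ := R.chart.low x hxN ((co x).1 - 1, 0)
              ⟨Nat.sub_le _ _, Nat.zero_le _⟩ trivial
            refine straight_twin H R hNt hxN hu ?_ ?_ ?_ hzU hw
            · rw [hcu]
              exact Or.inl ⟨by simp only; omega, by simp only; omega⟩
            · intro y hy hp
              rw [hcu]
              rcases hp with hp | hp
              · exact Prod.ext (by simp only; omega) (by simp only; omega)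
              · omega
            · rw [hcu]
              exact Or.inr rfl
    by_cases hJ : x ∈ junk (fun _ => True) Nc co ∨ x ∈ junk (fun _ => True) Nc (swp co)
    · left
      refine hF ?_ ?_
      · rcases hJ with h' | h'
        · exact Or.inl h'
        · exact Or.inr (Or.inl h')
      · unfold thR
        rw [if_pos hJ]
    · have hxN : x ∈ Nc := by
        rw [mem_natR] at hx
        rcases hx with h | h | h
        · exact h
        · exact absurd (Or.inl h) hJ
        · exact absurd (Or.inr h) hJ
      have hlx := R.chart.lev x hxN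
      push Not at hJ
      have hth := hstr x hxN hJ.1 hJ.2
      have hr := hrow.imp_right (fun h3 => h3 x hxN)
      by_cases h7 : (co x).1 = 0 ∨ (co x).2 = 0
      · left
        refine hF (Or.inr (Or.inr ⟨hxN, h7⟩)) ?_
        rw [hth]
        omega
      · right
        push Not at h7
        refine ⟨by rw [hth]; omega, ?_⟩
        have := kap_chart (m := 5) (k := thR 5 b Nc co x + 1) (by norm_num) R.chart hxN
          (by omega) (by omega) (by omega) (by rw [hth]; omega)
        omega
  · -- own elements
    intro z x hl hz hnt ho hzx _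
    have hly : ∀ y, z ⋖ y → lev y = 10 := by
      intro y hy
      have := (H.covBy_iff.mp hy).2
      omega
    have hx := hmem x (ho x hzx) (hly x hzx)
    rcases cov_cases H hzx with hp | ⟨x', hzx', hne⟩
    · exact (hnop x z hz (ho x hzx) (hly x hzx) hzx hp).elim
    · have hx' := hmem x' (ho x' hzx') (hly x' hzx')
      rcases near11 h hl hzx hzx' (Ne.symm hne) with ⟨p, hp1, hp2⟩ | ⟨u1, u2⟩
      · obtain ⟨y, hy, hyx, hyx'⟩ := near_chart H R.chart R.max (fun _ _ _ => trivial) hx hx'
          hp1 hp2 hzx hzx' (Ne.symm hne) (fun h => hz (mem_natR.mpr (Or.inl h)))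
        exact (hnt y (mem_natR.mpr (Or.inl hy))
          (up_pair_eq H hzx hzx' hyx hyx' (Ne.symm hne))).elim
      · refine Ow.far ?_
        have hc := hend x hx (hly x hzx) u1
        rw [hendth x hx hc]
        have h3 := sq_le_cst (i := 5) (h := fun _ => 5 + 1) (z := z) (by omega)
          (by show 5 + 1 = lev z - 5; omega) (fun k hk1 hk2 =>
            rect_two_le_nab H R hNt (hun hz (mem_natR.mpr (Or.inl hx)) hzx.1.le) hzx.1.le
              (Or.inr (Or.inr ⟨hx, by
                rcases hc with hc | hc
                · left; rw [hc]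
                · right; rw [hc]⟩)) (by omega) (by rw [hly x hzx]; omega))
        rw [hl] at h3
        have h4 : ct 5 (5 + 1) z = cst 5 (fun _ => 5 + 1) z := rfl
        rw [h4]
        exact le_trans (by norm_num) h3
  · -- ends
    intro x hxt hl hu
    have hx := hmem x hxt hl
    have hc := hend x hx hl hu
    refine En.far (hendth x hx hc).ge fun k hk => ?_
    have h3 := nab_chart R.chart hx k
    have hlx := R.chart.lev x hx
    have h4 := card_cellsAt_true (l := k) (p := co x) (by omega)
    rw [← h3] at h4
    rcases hc with hc | hc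
    · rw [hc] at h4
      simp only at h4
      omega
    · rw [hc] at h4
      simp only at h4
      omega

end Pool.Agent.GaussPoset.J10
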