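import Pool.Agent.W_448j10_h67.JbJ

/-!
The components at the window 5, level 10: stair-like components (MP_448cb3_co).
-/

namespace Pool.Agent.GaussPoset.J10

set_option linter.unusedSectionVars false

open Polynomial Finset Dd Wd Cl J8

universe u

variable {P : Type u} [Fintype P] [PartialOrder P] [DecidableEq P] {r : ℕ}
variable {t : Tops P} {lo hi : ℕ → ℕ} {e : ℕ → ℕ → P}

/-- the profile of the fold end -/
lemma fold_prof10 {Nc : Finset P} {co : P → ℕ × ℕ}
    (C : Chart (t : P) (fun c => c.1 ≤ c.2) Nc co) {x : P} (hx : x ∈ Nc)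
    (hc : co x = (5, 5)) : Pf x pF := by
  intro k hk
  have h3 := nab_chart C hx k
  have h4 := card_cellsAt_shift (l := k) (p := co x) (by rw [hc]) (by
    rw [hc]
    show k ≤ 5 + 5
    omega)
  rw [← h3, hc] at h4
  simp only at h4
  have h5 : ∀ k < 10, min (k / 2) 5 + 1 - (k - 5) = pF.getD k 0 := by decide
  rw [← h5 k hk]
  omega

/-- no natural element below the fold end and the straight end -/
lemma stair_noC (H : Gr P r) {Nc : Finset P} {co : P → ℕ × ℕ}
    (C : Chart (t : P) (fun c => c.1 ≤ c.2) Nc co) {y F S : P} (hF : F ∈ Nc) (hS : S ∈ Nc)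
    (hcF : co F = (5, 5)) (hcS : co S = (0, 10)) (hyF : y ⋖ F) (hyS : y ⋖ S)
    (hy : y ∈ natS Nc co) : False := by
  rcases mem_natS.mp hy with h1 | h1
  · have p1 := (chart_cov C H h1 hF).mp hyF
    have p2 := (chart_cov C H h1 hS).mp hyS
    rw [hcF] at p1
    rw [hcS] at p2
    unfold Prd at p1 p2
    simp only at p1 p2
    omega
  · obtain ⟨x1, E1, hz⟩ := mem_junk.mp h1
    rcases (mem_jset.mp hz).2 F hyF.1.le with h2 | h2
    · have h3 := (C.le_iff F hF x1 E1.mem).mp h2
      have h4 := E1.lt F hF (by rw [hcF]; norm_num)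
      have h5 : (co x1).2 ≤ (co F).2 := h3.2
      omega
    · have h3 := (C.le_iff x1 E1.mem F hF).mp h2
      have h4 : (co F).1 ≤ (co x1).1 := h3.1
      rw [hcF, E1.fst] at h4
      exact absurd h4 (by norm_num)

lemma kapS_five : KapS 5 34 := by
  intro s c h1 h2 h3
  have h4 : ∀ s ≤ 5, 1 ≤ s → 34 ≤ ((s - 2 * (5 / 2)) + ((2 * 5 + 1 - s) - 5) + 1) +
      ∑ a ∈ range (s + 1), rowW true (fun k => min ((s - 2 * (5 / 2)) +
        ((2 * 5 + 1 - s) - 5) + 1) (k - 5)) (2 * 5 + 1 - s) (2 * 5 + 1) a := by
    decide +kernel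
  obtain rfl : c = 2 * 5 + 1 - s := by omega
  exact h4 s h2 h1

/-- stair-like components -/
theorem tdStair (h : Win.GoodTo P r 10) (C : Cp.Comp 10 (t : P) lo hi e)
    (S : StairShape 10 lo hi) : ∃ S' θ B, TD 33 t (hi 5 - lo 5 + 1) 33 0 S' θ B ∧
      (lo 10 = 0 → ∀ z, z ⋖ e 10 5 → z ⋖ e 10 0 → z ∉ S' ∧ IsC t (hi 5 - lo 5 + 1) θ z) := by
  classical
  have H := h.H
  have hg := h.good
  have e0 : lo 5 = 0 := by
    by_contra hcon
    have e1 := shape_lo C S.lo (l := 5) (by omega) 5 (by norm_num)
    have e2 := S.hi (5 + 5) (by norm_num)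
    have e3 := C.lo_le (5 + 5) (by norm_num)
    omega
  have u5 := S.hi 5 (by norm_num)
  have u10 := S.hi 10 le_rfl
  norm_num at u5 u10
  have hb : hi 5 - lo 5 + 1 = 3 := by omega
  obtain ⟨Nc, co, R, hco⟩ := exists_stair' C H hg H.gradedBelow S (i := 5) (by norm_num) e0
  have CC := R.chart
  have hR := R.natTop H.gradedBelow (by norm_num) (by norm_num)
  have h52 : 5 / 2 + 1 = 3 := by norm_num
  rw [h52] at hR
  have hmem : ∀ x, x ≤ (t : P) → lev x = 10 → x ∈ Nc := fun x hx hl =>
    R.strip (mem_lowPart.mpr ⟨hx, hl.le⟩)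
  have hcl : ∀ x ∈ Nc, lev x = 10 → (co x).1 + (co x).2 = 10 ∧ (co x).1 ≤ (co x).2 := by
    intro x hx hl
    have h1 := CC.lev x hx
    exact ⟨by omega, CC.mem x hx⟩
  have hend : ∀ x ∈ Nc, lev x = 10 → (Win.uc x).card = 1 →
      co x = (5, 5) ∨ co x = (0, 10) := by
    intro x hx hl hu1
    obtain ⟨h1, h2⟩ := hcl x hx hl
    by_contra hcon
    push Not at hcon
    have h3 : (co x).1 ≠ 5 := fun h4 => hcon.1 (Prod.ext h4 (by simp only; omega))
    have h4 : (co x).1 ≠ 0 := fun h4 => hcon.2 (Prod.ext h4 (by simp only; omega))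
    have := chartS_inner_uc CC H hx (by omega) (by omega)
    omega
  have hnop : ∀ x z : P, x ≤ (t : P) → lev x = 10 → (Win.uc x).card = 2 → z ⋖ x →
      (∀ y, z ⋖ y → y = x) → False := by
    intro x z hxt hxl hx2 hzx honly
    have h2 := stairShape_pendant (i := 9) h (by norm_num) t.2 C S hxl hxt hx2 hzx honly
    have h3 := cell_lev C (x := x) hxt (by omega)
    omega
  set N0 := upd (fun s : Tops P => onlyB s) t (natS Nc co) with hN0
  have HN := natSys_updO (t := t) hR.up hR.le_t
  have hNt : N0 t = natS Nc co := upd_self _ _ _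
  have hun : ∀ {z x : P}, z ∉ natS Nc co → x ∈ natS Nc co → z ≤ x → z ∈ unnat N0 :=
    fun hz hx hzx => unnat_updO hR.le_t hz hx hzx
  have hjk : ∀ x ∈ Nc, thS 5 Nc co x = lev x - 5 ∨
      thS 5 Nc co x = ((co x).1 - 4) + ((co x).2 - 5) := by
    intro x _
    unfold thS
    split_ifs
    · exact Or.inl rfl
    · exact Or.inr rfl
  have hnj : ∀ x ∈ Nc, x ∉ junk (fun c => c.1 ≤ c.2) Nc co →
      thS 5 Nc co x = ((co x).1 - 4) + ((co x).2 - 5) := by
    intro x _ h1
    unfold thS
    rw [if_neg h1]
  have hendth : ∀ x ∈ Nc, co x = (0, 10) → thS 5 Nc co x = 5 := by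
    intro x hx hc
    have hlc := CC.lev x hx
    rcases hjk x hx with h2 | h2
    · rw [hc] at hlc
      simp only at hlc
      omega
    · rw [h2, hc]
      rfl
  have hFth : ∀ x ∈ Nc, co x = (5, 5) → thS 5 Nc co x = 1 := by
    intro x hx hc
    rw [hnj x hx (not_junk CC hx (by rw [hc]; norm_num)), hc]
    rfl
  have TT : TD 33 t 3 33 0 (natS Nc co ∪ twS (natS Nc co)) (thT (natS Nc co) (thS 5 Nc co))
      (fun x => x ∈ natS Nc co ∧ (x ∈ Nc ∧ co x = (2 * (5 / 2), 5))) := by
    refine tdTw h hR (by norm_num) (fun x hx => mem_natS.mpr (Or.inl (R.strip hx))) ?_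
      (natTop_le hR) ?_ ?_ ?_
    · rintro x - ⟨hx, hc⟩
      rw [CC.lev x hx, hc]
      norm_num
    · -- costs
      intro x hx hl
      have hF : (x ∈ junk (fun c => c.1 ≤ c.2) Nc co ∨ (x ∈ Nc ∧ (co x).1 = 0)) →
          thS 5 Nc co x = lev x - 5 → FulL (natS Nc co) (thS 5 Nc co) x := by
        intro h7 hth
        refine ⟨hth, ?_, ?_⟩
        · intro z hz hzx k hk hkx
          exact stair_two_le_nab H R hNt (hun hz hx hzx) hzx h7 (by omega) hkx
        · intro z hz hw
          have hxt : x < (topOf x : P) := lt_of_le_of_ne (le_topOf x) (by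
            intro h
            have h3 := (topOf x).2
            rw [← h] at h3
            omega)
          obtain ⟨u, hu, -⟩ := Hul.exists_cov hxt
          have huN : u ∈ natS Nc co := hR.up x hx u hu.1.le
          have hzU : z ∈ unnat N0 := hun hz huN ((hw u).mp hu.1).le
          rcases h7 with h' | ⟨hxN, h'⟩
          · exact hz (mem_natS.mpr (Or.inr (junk_twin h' hw)))
          · have hlx := CC.lev x hxN
            obtain ⟨u, hu, hcu⟩ := CC.low x hxN (0, (co x).2 - 1)
              ⟨Nat.zero_le _, Nat.sub_le _ _⟩ (Nat.zero_le _)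
            refine straight_twinS H R (by norm_num) hNt hxN hu ?_ ?_ ?_ hzU hw
            · rw [hcu]
              exact Or.inr ⟨by simp only; omega, by simp only; omega⟩
            · intro y hy hp
              rw [hcu]
              rcases hp with hp | hp
              · omega
              · exact Prod.ext (by simp only; omega) (by simp only; omega)
            · rw [hcu]
      by_cases hJ : x ∈ junk (fun c => c.1 ≤ c.2) Nc co
      · left
        refine hF (Or.inl hJ) ?_
        unfold thS
        rw [if_pos hJ]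
      · have hxN : x ∈ Nc := by
          rw [mem_natS] at hx
          rcases hx with h | h
          · exact h
          · exact absurd h hJ
        have hlx := CC.lev x hxN
        have hcx : (co x).1 ≤ (co x).2 := CC.mem x hxN
        have hth := hnj x hxN hJ
        by_cases h7 : (co x).1 = 0
        · left
          refine hF (Or.inr ⟨hxN, h7⟩) ?_
          rw [hth]
          omega
        · right
          refine ⟨by rw [hth]; omega, ?_⟩
          exact kap_chartG (m := 5) (k := thS 5 Nc co x + 1) kapS_five (by norm_num) CC hxN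
            (by omega) (by omega) (by rw [hth])
    · -- own elements
      intro z x hl hz hnt ho hzx hm
      have hly : ∀ y, z ⋖ y → lev y = 10 := by
        intro y hy
        have := (H.covBy_iff.mp hy).2
        omega
      have hx := hmem x (ho x hzx) (hly x hzx)
      rcases cov_cases H hzx with hp | ⟨x', hzx', hne⟩
      · have h3 := stair_pendant H R (by norm_num) hNt (hun hz (mem_natS.mpr (Or.inl hx))
          hzx.1.le) (by rw [hNt]; exact mem_natS.mpr (Or.inl hx)) hzx hp
        by_cases hu : (Win.uc x).card = 2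
        · exact (hnop x z (ho x hzx) (hly x hzx) hu hzx hp).elim
        · have hu1 : (Win.uc x).card = 1 := by
            rcases Win.uc_card_cases H (x := x) (by rw [hly x hzx]; norm_num) with h4 | h4
            · exact h4
            · exact absurd h4 hu
          rcases hend x hx (hly x hzx) hu1 with hc | hc
          · exact Ow.pend hp (Or.inr (Or.inl ⟨hFth x hx hc, fold_prof10 CC hx hc⟩))
          · have h4 := h3.2.2
            rw [hc] at h4
            exact absurd h4 (by norm_num)
      · have hx' := hmem x' (ho x' hzx') (hly x' hzx')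
        rcases near11 h hl hzx hzx' (Ne.symm hne) with ⟨p, hp1, hp2⟩ | ⟨u1, u2⟩
        · obtain ⟨y, hy, hyx, hyx'⟩ := near_chart H CC R.max
            (fun s c (h : s + 1 ≤ c) => show s + 1 ≤ c + 1 by omega) hx hx'
            hp1 hp2 hzx hzx' (Ne.symm hne) (fun h => hz (mem_natS.mpr (Or.inl h)))
          exact (hnt y (mem_natS.mpr (Or.inl hy))
            (up_pair_eq H hzx hzx' hyx hyx' (Ne.symm hne))).elim
        · refine Ow.cx ?_
          have key : ∀ a c : P, a ∈ Nc → c ∈ Nc → z ⋖ a → z ⋖ c → a ≠ c →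
              co a = (5, 5) → (Win.uc c).card = 1 → IsC t 3 (thS 5 Nc co) z := by
            intro a c ha hc hza hzc hac hca huc
            have hcc : co c = (0, 10) := by
              rcases hend c hc (hly c hzc) huc with g | g
              · exact absurd (CC.inj a ha c hc (by rw [hca, g])) hac
              · exact g
            exact ⟨Nc, co, a, c, ⟨CC, R.strip, ha, hc, hca, hcc, hza, hzc,
              fun y hy => uc_pair H hza hzc hac hy⟩, rfl, hFth a ha hca⟩
          rcases hend x hx (hly x hzx) u1 with hc | hc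
          · exact key x x' hx hx' hzx hzx' (Ne.symm hne) hc u2
          · rcases hend x' hx' (hly x' hzx') u2 with hc' | hc'
            · exact key x' x hx' hx hzx' hzx hne hc' u1
            · exact absurd (CC.inj x' hx' x hx (by rw [hc', hc])) hne
    · -- ends
      intro x hxt hl hu
      have hx := hmem x hxt hl
      rcases hend x hx hl hu with hc | hc
      · exact En.f (hFth x hx hc) (fold_prof10 CC hx hc)
      · refine En.far (hendth x hx hc).ge fun k hk => ?_
        have h3 := nab_chart CC hx k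
        have h4 := card_cellsAt_shift (l := k) (p := co x) (CC.mem x hx) (by
          have := CC.lev x hx
          omega)
        rw [← h3, hc] at h4
        simp only at h4
        omega
  rw [hb]
  refine ⟨_, _, _, TT, ?_⟩
  intro h0 z hz5 hz0
  have m5 : e 10 5 ∈ lowPart 10 (t : P) := mem_lowPart.mpr
    ⟨C.le_t 10 5 le_rfl (by omega) (by omega), (C.lev_e 10 5 le_rfl (by omega) (by omega)).le⟩
  have m0 : e 10 0 ∈ lowPart 10 (t : P) := mem_lowPart.mpr
    ⟨C.le_t 10 0 le_rfl (by omega) (by omega), (C.lev_e 10 0 le_rfl (by omega) (by omega)).le⟩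
  have c5 : co (e 10 5) = (5, 5) := by
    rw [hco _ m5]
    unfold ccoord
    rw [scoord_e C (k := 10) (s := 5) le_rfl (by omega) (by omega),
      C.lev_e 10 5 le_rfl (by omega) (by omega)]
  have c0 : co (e 10 0) = (0, 10) := by
    rw [hco _ m0]
    unfold ccoord
    rw [scoord_e C (k := 10) (s := 0) le_rfl (by omega) (by omega),
      C.lev_e 10 0 le_rfl (by omega) (by omega)]
  have hne : e 10 5 ≠ e 10 0 := by
    intro hh
    have := C.inj 10 5 0 le_rfl (by omega) (by omega) (by omega) (by omega) hh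
    omega
  have hzN : z ∉ natS Nc co := fun hz =>
    stair_noC H CC (R.strip m5) (R.strip m0) c5 c0 hz5 hz0 hz
  refine ⟨?_, Nc, co, e 10 5, e 10 0, ⟨CC, R.strip, R.strip m5, R.strip m0, c5, c0, hz5, hz0,
      fun y hy => uc_pair H hz5 hz0 hne hy⟩, rfl, ?_⟩
  · rw [mem_union, not_or]
    refine ⟨hzN, fun hT => ?_⟩
    obtain ⟨-, -, y, hy, hw⟩ := mem_twS.mp hT
    exact stair_noC H CC (R.strip m5) (R.strip m0) c5 c0 ((cov_of_up hw).mp hz5)
      ((cov_of_up hw).mp hz0) hy
  · rw [thT_not]
    · exact hFth _ (R.strip m5) c5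
    · intro hT
      have h1 := (mem_twS.mp hT).2.1
      rw [C.lev_e 10 5 le_rfl (by omega) (by omega)] at h1
      omega

end Pool.Agent.GaussPoset.J10
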