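import Pool.Agent.W_448j10_h67.JbK

/-!
The components at the window 5, level 10: `E6` (MP_448cb3_co).
-/

namespace Pool.Agent.GaussPoset.J10

set_option linter.unusedSectionVars false

open Polynomial Finset Dd Wd Cl J8

universe u

variable {P : Type u} [Fintype P] [PartialOrder P] [DecidableEq P] {r : ℕ}
variable {t : Tops P} {lo hi : ℕ → ℕ} {e : ℕ → ℕ → P}

/-- thresholds of `E6` at the window `5` -/
def E6t5 : ℕ → ℕ → ℕ := tab [] 8

theorem E6_th5 : thChk 16 5 13 (fun a => E6lv.getD a 0) (fun a => E6cv.getD a 0)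
    (fun a => E6um.getD a 0) (fun a => E6t5 (E6lv.getD a 0) (E6sl.getD a 0)) = true := by
  decide +kernel

/-- `E6` at the window `5`, largest thresholds -/
theorem natTopC_E6_5 {j : ℕ} (D : WordD j 3 w6 lo hi) (C : Cp.Comp j (t : P) lo hi e)
    (H : Gr P r) (hg : ∀ l, l < j → Win.Good P l) (hj : 8 ≤ j) (hj' : j ≤ 10) :
    NatTop 5 t 2 (lowPart j (t : P)) (thC lo hi e E6t5) (fun x => x = e 8 3) :=
  E6_strip.natTopC E6_us D C H hg hj' E6_th5 hj (by decide +kernel)
    (E6_clean D C H hg t.2 (i := 5) (by omega) (by omega) hj')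

/-- the elements above a cell of the last row of a word -/
lemma nab_word10 {a : ℕ} {w : List Ltr} (D : WordD 10 a w lo hi)
    (C : Cp.Comp 10 (t : P) lo hi e) (h : Win.GoodTo P r 10) {s : ℕ} (h1 : losW a w 10 ≤ s)
    (h2 : s ≤ hisW a w 10) {p : List ℕ}
    (hc : ∀ l < 10, (upI (losW a w) (hisW a w) 10 s (10 - l)).2 + 1 -
      (upI (losW a w) (hisW a w) 10 s (10 - l)).1 = p.getD l 0) : Pf (e 10 s) p := by
  intro l hl
  obtain ⟨r1, r2⟩ := D.rows C
  have h3 := nab_upI C h.H h.good t.2 (s := s) (by rw [r1 10 le_rfl]; exact h1)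
    (by rw [r2 10 le_rfl]; exact h2) (m := 10 - l) (by omega)
  have h4 : upI lo hi 10 s (10 - l) = upI (losW a w) (hisW a w) 10 s (10 - l) := by
    have := upI_congr (L := losW a w) (H := hisW a w) (lo := lo) (hi := hi) (B := 0)
      (N := 10) (s := s) (fun n hn => by rw [Nat.zero_add]; exact (r1 n hn).symm)
      (fun n hn => by rw [Nat.zero_add]; exact (r2 n hn).symm) (10 - l) (by omega)
    rw [this]
  rw [h4, hc l hl, show 10 - (10 - l) = l by omega] at h3
  exact h3

lemma E6_rows10 : losW 3 w6 10 = 3 ∧ hisW 3 w6 10 = 3 ∧ losW 3 w6 5 = 1 ∧ hisW 3 w6 5 = 2 := by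
  decide +kernel

/-- `E6` -/
theorem tdE6 (h : Win.GoodTo P r 10) (C : Cp.Comp 10 (t : P) lo hi e)
    (D : WordD 10 3 w6 lo hi) : ∃ S θ B, TD 33 t (hi 5 - lo 5 + 1) 33 0 S θ B := by
  classical
  have hN := natTopC_E6_5 D C h.H h.good (by norm_num) (by norm_num)
  obtain ⟨r1, r2⟩ := D.rows C
  obtain ⟨e1, e2, e3, e4⟩ := E6_rows10
  have hb : hi 5 - lo 5 + 1 = 2 := by
    rw [r1 5 (by norm_num), r2 5 (by norm_num), e3, e4]
  have hcell : ∀ x, x ≤ (t : P) → lev x = 10 → x = e 10 3 := by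
    intro x hx hl
    obtain ⟨s, s1, s2, hs⟩ := C.surj x hx hl.le
    rw [hl] at s1 s2 hs
    rw [r1 10 le_rfl, e1] at s1
    rw [r2 10 le_rfl, e2] at s2
    rw [← hs, show s = 3 by omega]
  have hth : thC lo hi e E6t5 (e 10 3) = 2 := by
    rw [thC_e C E6t5 le_rfl (by rw [r1 10 le_rfl, e1]) (by rw [r2 10 le_rfl, e2])]
    decide +kernel
  have hprof : Pf (e 10 3) pE6 := nab_word10 D C h (by rw [e1]) (by rw [e2]) (by decide +kernel)
  have hup := low_up (t := t) (m := 5) h
  rw [hb]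
  refine ⟨lowPart 10 (t : P), thC lo hi e E6t5, fun x => x = e 8 3, ?_⟩
  constructor
  · norm_num
  · norm_num
  · exact le_rfl
  · exact fun h => absurd h (by norm_num)
  · exact fun x hx y hxy => hup x y hxy hx
  · exact fun x hx => (mem_lowPart.mp hx).1
  · exact Finset.Subset.refl _
  · intro z x hl hz ho hzx _
    have hly : ∀ y, z ⋖ y → lev y = 10 := by
      intro y hy
      have := (h.H.covBy_iff.mp hy).2
      omega
    have hx := hcell x (ho x hzx) (hly x hzx)
    refine Ow.pend ?_ (Or.inr (Or.inr ?_))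
    · intro y hy
      rw [hx, hcell y (ho y hy) (hly y hy)]
    · rw [hx]
      exact ⟨hth, hprof⟩
  · intro z x hl _ hx hzx
    have := (h.H.covBy_iff.mp hzx).2
    have := (mem_lowPart.mp hx).2
    omega
  · intro x hxt hl _
    rw [hcell x hxt hl]
    exact En.e6 hth hprof
  · intro N HN hlow hN' θ' B' hθ hB
    refine compL_nat HN hN ?_ ?_ hθ hB 33
    · intro x hx
      rw [hN'] at hx
      exact hx
    · intro x hx _
      rw [hN']
      exact hx
  · exact fun h => absurd h (by norm_num)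

end Pool.Agent.GaussPoset.J10
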