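import Pool.Agent.W_448j10_h67.JbL

/-!
The components at the window 5, level 10: coded components (MP_448cb3_co).
-/

namespace Pool.Agent.GaussPoset.J10

set_option linter.unusedSectionVars false

open Polynomial Finset Dd Wd Cl J8 Sg

universe u

variable {P : Type u} [Fintype P] [PartialOrder P] [DecidableEq P] {r : ℕ}
variable {t : Tops P} {lo hi : ℕ → ℕ} {e : ℕ → ℕ → P}
variable {N J0 : ℕ} {cv lv um th : ℕ → ℕ} {c : ℕ → P} {Us : List ℕ} {L : List Ent}

/-- the check of the pole of the complete mask `J0` -/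
def poleC (N i w β : ℕ) (ρ : ℤ) (lv : ℕ → ℕ) (Us : List ℕ) (L : List Ent) (J0 : ℕ) : Bool :=
  (L.any fun y => Nat.beq y.1 w && Nat.beq y.2.2.1 J0 &&
    decide (sgn y.2.2.2.1 y.2.2.2.2.1 i * sc y.2.1 y.2.2.2.2.2.2 = ρ * (-1) ^ β)) &&
  (Us.any fun J => Nat.beq J J0) &&
  decide (((range N).filter (fun a => J0.testBit a = true ∧ lv a < i)).card = β) &&
  decide (((range N).filter (fun a => J0.testBit a = true ∧ lv a = i)).card = 2)

/-- the value of a complete coded set -/
theorem CodM.pole' (C : CodM N J0 cv lv c) (hU : UsOK N cv Us) {B i K bm w β : ℕ} {ρ : ℤ}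
    (h : polD N B K Us i (L.map Prod.snd) = true) (hm : mstC N K i lv Us bm L = true)
    (hp : poleC N i w β ρ lv Us L J0 = true) {S : Finset P}
    (hS : ∀ y, y ∈ S ↔ ∃ a, J0.testBit a = true ∧ c a = y)
    {f : Polynomial (PowerSeries ℤ)} (hf : ∀ n, exq n f = Z {y : P // y ∈ S} i n) :
    Pl w 2 ρ f := by
  unfold poleC at hp
  simp only [Bool.and_eq_true, decide_eq_true_eq] at hp
  obtain ⟨⟨⟨h1, h2⟩, h3⟩, h4⟩ := hp
  rw [List.any_eq_true] at h1 h2
  obtain ⟨y, hy, h5⟩ := h1
  simp only [Bool.and_eq_true, decide_eq_true_eq] at h5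
  obtain ⟨⟨h5, h6⟩, h7⟩ := h5
  obtain ⟨J, hJ, h8⟩ := h2
  have h5 := Nat.eq_of_beq_eq_true h5
  have h6 := Nat.eq_of_beq_eq_true h6
  have h8 := Nat.eq_of_beq_eq_true h8
  have := C.pole hU h hm hy (by rw [h6, ← h8]; exact hJ) h6 hS h3 h4 h7 hf
  rwa [h5] at this

lemma Cx.above {S : Finset P} (C : Cx N J0 cv lv c S) : ∀ x ∈ S, ∀ y, x ≤ y → y ∈ S := by
  intro x hx y hxy
  rw [C.mem] at hx ⊢
  obtain ⟨a, ha, rfl⟩ := hx
  exact C.cod.above ha hxy

lemma Cx.in_S {S : Finset P} (C : Cx N J0 cv lv c S) {a : ℕ} (ha : J0.testBit a = true) :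
    c a ∈ S := (C.mem _).mpr ⟨a, ha, rfl⟩

/-- **The data of a coded component.** -/
theorem tdCx {S : Finset P} (C : Cx N J0 cv lv c S) (hU : UsOK N cv Us) {B K bm K0 w a0 β : ℕ}
    {ρ : ℤ} (hth : thChk N 5 a0 lv cv um th = true) (ha0 : J0.testBit a0 = true)
    (h : polD N B K Us 5 (L.map Prod.snd) = true) (hm : mstC N K 5 lv Us bm L = true)
    (hw : mskC L J0 w = true) (hbn : Sm bm J0) (hbm : bmC N 5 a0 bm lv um = true)
    (hw1 : 1 ≤ w) (hwK : w ≤ K0)
    (hp : w < K0 → poleC N 5 w β ρ lv Us L J0 = true)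
    (hsg : w < K0 → (20 ≤ w ∧ w < 25 ∧ ρ < 0) ∨ (w = 27 ∧ 0 < ρ))
    (hlow : lowPart 10 (t : P) ⊆ S) (hle : ∀ x ∈ S, x ≤ (t : P))
    (hown : ∀ z x, lev z = 11 → z ∉ S → (∀ y, z ⋖ y → y ≤ (t : P)) → z ⋖ x →
      (∀ y, z ⋖ y → thM N J0 c th x ≤ thM N J0 c th y) → Ow K0 w t 2 (thM N J0 c th) z x)
    (hdeep : ∀ z x, 12 ≤ lev z → z ∉ S → x ∈ S → z ⋖ x →
      min K0 (w + 1) ≤ ct 5 (thM N J0 c th x + 1) z ∨ Cp7 (thM N J0 c th) z x)
    (hends : ∀ x ≤ (t : P), lev x = 10 → (Win.uc x).card = 1 → En (thM N J0 c th) x) :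
    TD K0 t 2 w ρ S (thM N J0 c th) (fun x => x = c a0) where
  b_one := by norm_num
  w_pos := hw1
  w_le := hwK
  sg := hsg
  up := C.above
  le_t := hle
  low := hlow
  own := hown
  deep := hdeep
  ends := hends
  data := by
    intro M HM _ hM θ' B' hθ hB
    have hl := C.cod.locL hU hth ha0 C.mem h hm hw hbn hbm
    rw [← hM] at hl
    exact hl.data HM θ' B' hθ hB
  pole := by
    intro hwK' M HM hM f hf
    refine C.cod.pole' hU h hm (hp hwK') C.mem (f := f) fun n => ?_
    rw [hf n]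
    have hiso : {x : P // x ∈ S} ≃o {x : {x : P // x ∉ unnat M} // topOf (x : P) = t} :=
      isoPart HM t (Finset.Subset.refl _) S (fun x => by
        rw [hM]
        constructor
        · intro hx
          exact ⟨hx, (HM.mem_iff.mp (by rw [hM]; exact hx)).1⟩
        · exact fun hx => hx.1)
    rw [Z_iso hiso]

/-- masks with bits added -/
lemma sm_lor {I J k : ℕ} (h : Sm I J) : Sm I (Nat.lor J (2 ^ k)) := fun a ha =>
  bit_lor.mpr (Or.inl (h a ha))

/-- cost of an element with the cover `x` and another element `y` above -/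
lemma ct_two {i k : ℕ} {z x y : P} (hzx : z < x) (hzy : z < y) (hxy : ¬ x ≤ y)
    (hk : k ≤ lev z - i) : ct i k x + k + min k (lev y - i) ≤ ct i k z := by
  classical
  rw [ct_succ i k z, ct_eq_sum, Nat.min_eq_left hk]
  have h1 : (∑ w, if x ≤ w then min k (lev w - i) else 0) + min k (lev y - i) ≤
      ∑ w, if z < w then min k (lev w - i) else 0 := by
    rw [← Finset.add_sum_erase univ (fun w => if z < w then min k (lev w - i) else 0)
      (mem_univ y), if_pos hzy, ← Finset.add_sum_erase univ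
      (fun w => if x ≤ w then min k (lev w - i) else 0) (mem_univ y), if_neg hxy, zero_add,
      Nat.add_comm]
    refine Nat.add_le_add_left (Finset.sum_le_sum fun w _ => ?_) _
    by_cases hw : x ≤ w
    · rw [if_pos hw, if_pos (hzx.trans_le hw)]
    · rw [if_neg hw]
      exact Nat.zero_le _
  omega

/-- cost of an element with the cover `x` and two other elements above -/
lemma ct_three {i k : ℕ} {z x y v : P} (hzx : z < x) (hzy : z < y) (hyv : y < v)
    (hxy : ¬ x ≤ y) (hxv : ¬ x ≤ v) (hk : k ≤ lev z - i) :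
    ct i k x + k + min k (lev y - i) + min k (lev v - i) ≤ ct i k z := by
  classical
  rw [ct_succ i k z, ct_eq_sum, Nat.min_eq_left hk]
  have hne : y ≠ v := hyv.ne
  have h1 : (∑ w, if x ≤ w then min k (lev w - i) else 0) + min k (lev y - i) +
      min k (lev v - i) ≤ ∑ w, if z < w then min k (lev w - i) else 0 := by
    have hv : v ∈ univ.erase y := mem_erase.mpr ⟨hne.symm, mem_univ _⟩
    rw [← Finset.add_sum_erase univ (fun w => if z < w then min k (lev w - i) else 0)
      (mem_univ y), if_pos hzy, ← Finset.add_sum_erase univ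
      (fun w => if x ≤ w then min k (lev w - i) else 0) (mem_univ y), if_neg hxy, zero_add,
      ← Finset.add_sum_erase (univ.erase y) (fun w => if z < w then min k (lev w - i) else 0)
      hv, if_pos (hzy.trans hyv), ← Finset.add_sum_erase (univ.erase y)
      (fun w => if x ≤ w then min k (lev w - i) else 0) hv, if_neg hxv, zero_add]
    have h2 : (∑ w ∈ (univ.erase y).erase v, if x ≤ w then min k (lev w - i) else 0) ≤
        ∑ w ∈ (univ.erase y).erase v, if z < w then min k (lev w - i) else 0 := by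
      refine Finset.sum_le_sum fun w _ => ?_
      by_cases hw : x ≤ w
      · rw [if_pos hw, if_pos (hzx.trans_le hw)]
      · rw [if_neg hw]
        exact Nat.zero_le _
    omega
  omega

end Pool.Agent.GaussPoset.J10
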