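import Pool.Agent.W_448j10_h67.JbG
import Pool.Agent.W_448j10_h67.JbM

/-!
The components at the window 5, level 10: `E7` (MP_448cb3_co).
-/

namespace Pool.Agent.GaussPoset.J10

set_option linter.unusedSectionVars false

open Polynomial Finset Dd Wd Cl J8 Sg

universe u

variable {P : Type u} [Fintype P] [PartialOrder P] [DecidableEq P] {r : ℕ}
variable {t : Tops P} {lo hi : ℕ → ℕ} {e : ℕ → ℕ → P}

section

variable {N J0 : ℕ} {cv lv um th : ℕ → ℕ} {c : ℕ → P} {Us : List ℕ}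

/-- the mask of a cell from its covers -/
lemma CodM.cv_eq (C : CodM N J0 cv lv c) {a m : ℕ} (ha : J0.testBit a = true) (hm : Sm m J0)
    (hz : Cvs c m (c a)) : cv a = m := by
  have hs : Sm (cv a) J0 := sm_iff.mp (C.clo a ha)
  refine Nat.eq_of_testBit_eq fun b => ?_
  rw [Bool.eq_iff_iff]
  constructor
  · intro hb
    obtain ⟨d, hd, h1⟩ := (hz (c b)).mp ((C.cov a ha (c b)).mpr ⟨b, hs b hb, hb, rfl⟩)
    rwa [← C.inj d (hm d hd) b (hs b hb) h1]
  · intro hb
    obtain ⟨d, hd, hd2, h1⟩ := (C.cov a ha (c b)).mp ((hz (c b)).mpr ⟨b, hb, rfl⟩)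
    rwa [← C.inj d hd b (hm b hb) h1]

/-- one cover -/
lemma cvs_one {k : ℕ} {z : P} : Cvs c (2 ^ k) z ↔ ∀ y, z ⋖ y ↔ y = c k := by
  unfold Cvs
  refine forall_congr' fun y => ?_
  have : (∃ b, (2 ^ k).testBit b = true ∧ c b = y) ↔ y = c k := by
    constructor
    · rintro ⟨b, hb, rfl⟩
      by_cases h : k = b
      · rw [h]
      · rw [Nat.testBit_two_pow_of_ne h] at hb
        exact absurd hb (by simp)
    · rintro rfl
      exact ⟨k, Nat.testBit_two_pow_self, rfl⟩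
  rw [this]

/-- two covers -/
lemma cvs_two {k l : ℕ} {z : P} :
    Cvs c (Nat.lor (2 ^ k) (2 ^ l)) z ↔ ∀ y, z ⋖ y ↔ (y = c k ∨ y = c l) := by
  unfold Cvs
  refine forall_congr' fun y => ?_
  have : (∃ b, (Nat.lor (2 ^ k) (2 ^ l)).testBit b = true ∧ c b = y) ↔ (y = c k ∨ y = c l) := by
    constructor
    · rintro ⟨b, hb, rfl⟩
      rcases bit_lor.mp hb with h | h
      · by_cases h' : k = b
        · left; rw [h']
        · rw [Nat.testBit_two_pow_of_ne h'] at h
          exact absurd h (by simp)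
      · right; rw [h]
    · rintro (rfl | rfl)
      · exact ⟨k, bit_lor.mpr (Or.inl Nat.testBit_two_pow_self), rfl⟩
      · exact ⟨l, bit_lor.mpr (Or.inr rfl), rfl⟩
  rw [this]

/-- at most two more cells of one type, short form -/
theorem Cx.ins2' {S : Finset P} (C : Cx N J0 cv lv c S) {k k' m l : ℕ} (hk : k < N)
    (hk' : k' < N) (hne : k ≠ k') (hkJ : J0.testBit k = false) (hkJ' : J0.testBit k' = false)
    (hm : cv k = m) (hm' : cv k' = m) (hl : lv k = l) (hl' : lv k' = l) (hcv : Sm m J0)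
    {T : Finset P} (hT : T.card ≤ 2) (hTS : ∀ z ∈ T, z ∉ S)
    (hTc : ∀ z ∈ T, GaussPoset.lev z = l ∧ Cvs c m z) :
    ∃ (c' : ℕ → P) (J' : ℕ), (∀ a, J0.testBit a = true → c' a = c a) ∧
      Cx N J' cv lv c' (S ∪ T) ∧ (J' = J0 ∨ J' = Nat.lor J0 (2 ^ k) ∨
      J' = Nat.lor (Nat.lor J0 (2 ^ k)) (2 ^ k')) := by
  obtain ⟨c', J', h1, h2, h3⟩ := C.ins2 hk hk' hne hkJ hkJ' hm hm' hl hl' hcv hT hTS hTc
  refine ⟨c', J', h1, h2, ?_⟩
  rcases h3 with ⟨-, h3⟩ | ⟨z, -, h3, -⟩ | ⟨z, z', -, -, h3, -⟩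
  · exact Or.inl h3
  · exact Or.inr (Or.inl h3)
  · exact Or.inr (Or.inr h3)

/-- at most one more cell of one type, short form -/
theorem Cx.ins1' {S : Finset P} (C : Cx N J0 cv lv c S) {k m l : ℕ} (hk : k < N)
    (hkJ : J0.testBit k = false) (hm : cv k = m) (hl : lv k = l) (hcv : Sm m J0)
    {T : Finset P} (hT : T.card ≤ 1) (hTS : ∀ z ∈ T, z ∉ S)
    (hTc : ∀ z ∈ T, GaussPoset.lev z = l ∧ Cvs c m z) :
    ∃ (c' : ℕ → P) (J' : ℕ), (∀ a, J0.testBit a = true → c' a = c a) ∧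
      Cx N J' cv lv c' (S ∪ T) ∧ (J' = J0 ∨ J' = Nat.lor J0 (2 ^ k)) := by
  obtain ⟨c', J', h1, h2, h3⟩ := C.ins1 hk hkJ hm hl hcv hT hTS hTc
  refine ⟨c', J', h1, h2, ?_⟩
  rcases h3 with ⟨-, h3⟩ | ⟨z, -, h3, -⟩
  · exact Or.inl h3
  · exact Or.inr h3

/-- elements with the covers of a mask with a bit: at most two -/
lemma tyS_card (H : Gr P r) {m l k : ℕ} (hk : m.testBit k = true) : (tyS c m l).card ≤ 2 := by
  classical
  refine (Finset.card_le_card (t := Win.dc (c k)) fun y hy => ?_).trans (Win.dc_card_le H _)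
  rw [Win.mem_dc]
  exact ((mem_tyS.mp hy).2 (c k)).mpr ⟨k, hk, rfl⟩

/-- the cost above a cell -/
lemma CodM.ct_cell (C : CodM N J0 cv lv c) (hcv : ∀ a < N, cv a < 2 ^ a)
    (hum : ∀ a < N, um a = Nat.lor (2 ^ a) (orM um N (cv a))) {a : ℕ}
    (ha : J0.testBit a = true) (i k : ℕ) :
    ct i k (c a) = min k (lv a - i) + ∑ b ∈ (range N).filter
      (fun b => (orM um N (cv a)).testBit b = true ∧ J0.testBit b = true), min k (lv b - i) := by
  have h1 := C.ct_of hcv hum (z := c a) (m := cv a) (sm_iff.mp (C.clo a ha)) (fun y => by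
    rw [C.cov a ha y]
    constructor
    · rintro ⟨b, -, h2, h3⟩
      exact ⟨b, h2, h3⟩
    · rintro ⟨b, h2, h3⟩
      exact ⟨b, sm_iff.mp (C.clo a ha) b h2, h2, h3⟩) i k
  rw [h1, C.lev a ha]

end

/-- the cells of `E7` -/
def ce7 (e : ℕ → ℕ → P) (a : ℕ) : P := e (E7lv.getD a 0) (E7sl.getD a 0)

/-- the masks of `E7` with pendants and common children -/
def E7M : List ℕ := [524287, 1048575, 2097151, 2621439, 3145727, 4194303, 6815743, 7340031,
  8388607]

lemma E7M_chk : ∀ J ∈ E7M, mskC McL J (if J.testBit 20 then 27 else 33) = true ∧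
    (J.testBit 20 = true → poleC 23 5 27 6 1 (fun a => Mclv.getD a 0) Mcus McL J = true) ∧
    Nat.land 94207 J = 94207 ∧ Nat.land 524287 J = 524287 := by decide +kernel

lemma E7M_ct : ∀ J ∈ E7M, (∀ a ∈ [19, 20], min 4 (Mclv.getD a 0 - 5) +
      ∑ b ∈ (range 23).filter (fun b => (orM (fun a => Mcum.getD a 0) 23
        (Mccv.getD a 0)).testBit b = true ∧ J.testBit b = true), min 4 (Mclv.getD b 0 - 5) = 24) ∧
    (∀ a ∈ [21, 22], min 3 (Mclv.getD a 0 - 5) +
      ∑ b ∈ (range 23).filter (fun b => (orM (fun a => Mcum.getD a 0) 23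
        (Mccv.getD a 0)).testBit b = true ∧ J.testBit b = true),
        min 3 (Mclv.getD b 0 - 5) = 30) := by decide +kernel

lemma E7_rows10 : losW 4 w7 10 = 3 ∧ hisW 4 w7 10 = 4 ∧ losW 4 w7 9 = 3 ∧ hisW 4 w7 9 = 4 ∧
    losW 4 w7 8 = 2 ∧ hisW 4 w7 8 = 4 ∧ losW 4 w7 7 = 2 ∧ hisW 4 w7 7 = 3 ∧
    losW 4 w7 5 = 0 ∧ hisW 4 w7 5 = 1 := by decide +kernel

/-- the code of `E7` with elements of the level 11 -/
theorem E7_cx (h : Win.GoodTo P r 10) (C : Cp.Comp 10 (t : P) lo hi e)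
    (D : WordD 10 4 w7 lo hi) : ∃ c J S, Cx 23 J (fun a => Mccv.getD a 0)
      (fun a => Mclv.getD a 0) c S ∧ J ∈ E7M ∧ (∀ a < 19, c a = ce7 e a) ∧
      S = lowPart 10 (t : P) ∪ tyS c 131072 11 ∪ tyS c 393216 11 := by
  classical
  obtain ⟨r1, r2⟩ := D.rows C
  have hcod : Cod 19 (fun a => E7cv.getD a 0) (fun a => E7lv.getD a 0) (ce7 e) :=
    E7_strip.cod C h.H h.good t.2 (j := 10) (by norm_num) r1 r2
  have hle : ∀ a < 19, ce7 e a ∈ lowPart 10 (t : P) := by
    intro a ha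
    have h3 := E7_strip.row a (by omega)
    have h4 : ∀ a < 19, E7lv.getD a 0 ≤ 10 := by decide +kernel
    have h4 := h4 a ha
    rw [← r1 _ h4, ← r2 _ h4] at h3
    rw [mem_lowPart]
    unfold ce7
    rw [C.lev_e _ _ h4 h3.1 h3.2]
    exact ⟨C.le_t _ _ h4 h3.1 h3.2, h4⟩
  have C0 : Cx 23 (2 ^ 19 - 1) (fun a => Mccv.getD a 0) (fun a => Mclv.getD a 0) (ce7 e)
      (lowPart 10 (t : P)) := by
    refine Cx.ofCod (n := 19) hcod (by norm_num) (by decide +kernel) (by decide +kernel)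
      (by decide +kernel) ?_
    intro x
    constructor
    · intro hx
      exact E7_strip.surj' C (j := 10) (by norm_num) r1 r2 hx
    · rintro ⟨a, ha, rfl⟩
      exact hle a ha
  have hb19 : ∀ a, (524287 : ℕ).testBit a = true ↔ a < 19 := by
    intro a
    rw [show 524287 = 2 ^ 19 - 1 by norm_num, Nat.testBit_two_pow_sub_one]
    simp
  rw [show 2 ^ 19 - 1 = 524287 by norm_num] at C0
  have hS11 : ∀ {c : ℕ → P} {m : ℕ}, ∀ z ∈ tyS c m 11, z ∉ lowPart 10 (t : P) := by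
    intro c m z hz hlow
    have h1 := (mem_tyS.mp hz).1
    have h2 := (mem_lowPart.mp hlow).2
    omega
  obtain ⟨c1, J1, a1, C1, j1⟩ := C0.ins2' (k := 19) (k' := 20) (m := 131072) (l := 11)
    (by norm_num) (by norm_num) (by norm_num) (by decide) (by decide) (by decide +kernel)
    (by decide +kernel) (by decide +kernel) (by decide +kernel)
    (sm_iff.mp (by decide)) (T := tyS (ce7 e) 131072 11)
    (tyS_card h.H (k := 17) (by decide)) hS11 (fun z hz => mem_tyS.mp hz)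
  have hJ1 : J1 ∈ [524287, 1048575, 2097151] := by
    rcases j1 with rfl | rfl | rfl <;> decide
  have hJ1b : ∀ J ∈ [524287, 1048575, 2097151], J.testBit 21 = false ∧ J.testBit 22 = false ∧
      Nat.land 524287 J = 524287 := by decide
  obtain ⟨b1, b2, b3⟩ := hJ1b J1 hJ1
  have b3' := sm_iff.mp b3
  have hc1 : ∀ a < 19, c1 a = ce7 e a := fun a ha => a1 a ((hb19 a).mpr ha)
  obtain ⟨c2, J2, a2, C2, j2⟩ := C1.ins2' (k := 21) (k' := 22) (m := 393216) (l := 11)
    (by norm_num) (by norm_num) (by norm_num) b1 b2 (by decide +kernel)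
    (by decide +kernel) (by decide +kernel) (by decide +kernel)
    ((sm_iff.mp (by decide)).trans b3') (T := tyS c1 393216 11)
    (tyS_card h.H (k := 17) (by decide)) (by
      intro z hz hz'
      rw [mem_union] at hz'
      rcases hz' with hz' | hz'
      · exact hS11 z hz hz'
      · have e1 := (mem_tyS.mp hz).2
        have e2 := (mem_tyS.mp hz').2
        have e3 := (e1 (c1 18)).mpr ⟨18, by decide, rfl⟩
        obtain ⟨b, hb, hbc⟩ := (e2 (c1 18)).mp e3
        rw [hc1 18 (by norm_num)] at hbc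
        have hb17 : b = 17 := by
          by_contra hne
          rw [show (131072 : ℕ) = 2 ^ 17 by norm_num, Nat.testBit_two_pow_of_ne
            (Ne.symm hne)] at hb
          exact absurd hb (by simp)
        rw [hb17] at hbc
        have := hcod.inj 17 (by norm_num) 18 (by norm_num) hbc
        omega) (fun z hz => mem_tyS.mp hz)
  have hc2 : ∀ a < 19, c2 a = ce7 e a := fun a ha => by
    rw [a2 a (b3' a ((hb19 a).mpr ha)), hc1 a ha]
  refine ⟨c2, J2, _, C2, ?_, hc2, ?_⟩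
  · rcases j1 with rfl | rfl | rfl <;> rcases j2 with rfl | rfl | rfl <;> decide
  · have hbit : ∀ m, m < 2 ^ 19 → ∀ a, m.testBit a = true → a < 19 := fun m hm a ha => by
      by_contra hcon
      rw [Nat.testBit_lt_two_pow (lt_of_lt_of_le hm (Nat.pow_le_pow_right (by norm_num)
        (by omega)))] at ha
      exact absurd ha (by simp)
    rw [tyS_congr (c := ce7 e) (c' := c2) (m := 131072) (fun a ha => hc2 a
      (hbit _ (by norm_num) a ha)), tyS_congr (c := c1) (c' := c2) (m := 393216)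
      (fun a ha => by
        have := hbit _ (by norm_num) a ha
        rw [hc2 a this, hc1 a this])]

end Pool.Agent.GaussPoset.J10
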