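import Pool.Agent.W_448j10_h67.JbN
import Pool.Agent.W_448rr_h67.RrG

/-!
The components at the window 5, level 10: data of `E7` (MP_448cb3_co).
-/

namespace Pool.Agent.GaussPoset.J10

set_option linter.unusedSectionVars false

open Polynomial Finset Dd Wd Cl J8 Sg

universe u

variable {P : Type u} [Fintype P] [PartialOrder P] [DecidableEq P] {r : ℕ}
variable {t : Tops P} {lo hi : ℕ → ℕ} {e : ℕ → ℕ → P}

/-- cost of an element with the cover `x` -/
lemma ct_one {i k : ℕ} {z x : P} (hzx : z < x) (hk : k ≤ lev z - i) : ct i k x + k ≤ ct i k z := by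
  classical
  rw [ct_succ i k z, ct_eq_sum, Nat.min_eq_left hk, Nat.add_comm]
  refine Nat.add_le_add_left (Finset.sum_le_sum fun w _ => ?_) _
  by_cases hw : x ≤ w
  · rw [if_pos hw, if_pos (hzx.trans_le hw)]
  · rw [if_neg hw]
    exact Nat.zero_le _

/-- numbers above an element with one cover -/
lemma nab_one_cov {z x : P} (hx : ∀ y, z ⋖ y → y = x) (hzx : z ⋖ x) {k : ℕ} (hk : k < lev z) :
    nab k z = nab k x := by
  classical
  unfold nab
  congr 1
  ext y
  simp only [mem_filter, mem_lv]
  constructor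
  · rintro ⟨h1, h2⟩
    refine ⟨h1, ?_⟩
    have h3 : z < y := lt_of_le_of_ne h2 (by rintro rfl; omega)
    obtain ⟨v, hv, hvy⟩ := Hul.exists_cov h3
    rw [← hx v hv]
    exact hvy
  · rintro ⟨h1, h2⟩
    exact ⟨h1, hzx.le.trans h2⟩

/-- an element of the level 11 with covers in two cells -/
lemma one_of_two {z a b : P} (hz : ∃ y, z ⋖ y) (h : ∀ y, z ⋖ y → y = a ∨ y = b) :
    (∀ y, z ⋖ y ↔ y = a) ∨ (∀ y, z ⋖ y ↔ y = b) ∨ (∀ y, z ⋖ y ↔ (y = a ∨ y = b)) := by
  by_cases ha : z ⋖ a
  · by_cases hb : z ⋖ b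
    · right; right
      intro y
      exact ⟨h y, by rintro (rfl | rfl) <;> assumption⟩
    · left
      intro y
      constructor
      · intro hy
        rcases h y hy with h1 | h1
        · exact h1
        · rw [h1] at hy
          exact absurd hy hb
      · rintro rfl
        exact ha
  · right; left
    intro y
    constructor
    · intro hy
      rcases h y hy with h1 | h1
      · rw [h1] at hy
        exact absurd hy ha
      · exact h1
    · rintro rfl
      obtain ⟨v, hv⟩ := hz
      rcases h v hv with h1 | h1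
      · rw [h1] at hv
        exact absurd hv ha
      · rwa [h1] at hv

/-- elements of positive level have covers -/
lemma cov_ex {z : P} (hz : 1 ≤ lev z) : ∃ y, z ⋖ y := by
  have h1 : z < (topOf z : P) := lt_of_le_of_ne (le_topOf z) (by
    intro h
    have := (topOf z).2
    rw [← h] at this
    omega)
  obtain ⟨v, hv, -⟩ := Hul.exists_cov h1
  exact ⟨v, hv⟩

/-- the cells of a coded set -/
lemma Cx.cell {N J : ℕ} {cv lv : ℕ → ℕ} {c : ℕ → P} {S : Finset P} (C : Cx N J cv lv c S) {x : P}
    (hx : x ∈ S) : ∃ a < N, J.testBit a = true ∧ c a = x ∧ lev x = lv a := by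
  obtain ⟨a, ha, rfl⟩ := (C.mem x).mp hx
  exact ⟨a, bit_lt C.cod.lt ha, ha, rfl, C.cod.lev a ha⟩

/-- the cells of one type -/
lemma Cx.cell_ty {N J : ℕ} {cv lv : ℕ → ℕ} {c : ℕ → P} {S : Finset P} (C : Cx N J cv lv c S)
    {m l : ℕ} (hm : Sm m J) {x : P} (hx : x ∈ S) (hxt : x ∈ tyS c m l) :
    ∃ a < N, J.testBit a = true ∧ c a = x ∧ lv a = l ∧ cv a = m := by
  obtain ⟨a, h1, h2, rfl, h3⟩ := C.cell hx
  have h4 := mem_tyS.mp hxt
  exact ⟨a, h1, h2, rfl, by rw [← h3, h4.1], C.cod.cv_eq h2 hm h4.2⟩

lemma thChk_um {N i a0 : ℕ} {lv cv um th : ℕ → ℕ} (hth : thChk N i a0 lv cv um th = true) :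
    ∀ a < N, um a = Nat.lor (2 ^ a) (orM um N (cv a)) := by
  unfold thChk at hth
  simp only [Bool.and_eq_true, List.all_eq_true, List.mem_range, Bool.or_eq_true, ble_iff,
    beq_iff, Nat.blt_eq, Bool.not_eq_true'] at hth
  exact hth.1.1

/-- an inner element of the last row has two covers -/
lemma two_up (C : Cp.Comp 10 (t : P) lo hi e) {s : ℕ} (h1 : lo 10 ≤ s) (h2 : s ≤ hi 10)
    (h3 : lo 9 < s) (h4 : s ≤ hi 9) : (Win.uc (e 10 s)).card ≠ 1 := by
  intro hcon
  obtain ⟨q, hq⟩ := Finset.card_eq_one.mp hcon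
  have c1 : e 10 s ⋖ e 9 s := (C.cov 9 s s (by norm_num) h1 h2 (by omega) h4).mpr (Or.inl rfl)
  have c2 : e 10 s ⋖ e 9 (s - 1) := (C.cov 9 s (s - 1) (by norm_num) h1 h2 (by omega)
    (by omega)).mpr (Or.inr (by omega))
  rw [← Win.mem_uc, hq, mem_singleton] at c1 c2
  have := C.inj 9 s (s - 1) (by norm_num) (by omega) h4 (by omega) (by omega) (c1.trans c2.symm)
  omega

/-- the cells of the level `11` of `E7` -/
lemma E7_cells : ∀ a < 23, (Mclv.getD a 0 = 11 → Mccv.getD a 0 = 131072 → a = 19 ∨ a = 20) ∧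
    (Mclv.getD a 0 = 11 → Mccv.getD a 0 = 393216 → a = 21 ∨ a = 22) := by decide +kernel

/-- the data of the strip `E7` at the level 10 -/
theorem tdE7 (h : Win.GoodTo P r 10) (C : Cp.Comp 10 (t : P) lo hi e)
    (D : WordD 10 4 w7 lo hi) : ∃ w ρ S θ B, TD 33 t (hi 5 - lo 5 + 1) w ρ S θ B := by
  classical
  obtain ⟨c, J, S, C1, hJ, hc, hS⟩ := E7_cx h C D
  obtain ⟨m1, m2, m3, m4⟩ := E7M_chk J hJ
  obtain ⟨k1, k2⟩ := E7M_ct J hJ
  obtain ⟨r1, r2⟩ := D.rows C
  obtain ⟨e1, e2, e3, e4, e5, e6, e7, e8, e9, e10⟩ := E7_rows10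
  have l10 : lo 10 = 3 := by rw [r1 10 le_rfl, e1]
  have u10 : hi 10 = 4 := by rw [r2 10 le_rfl, e2]
  have l9 : lo 9 = 3 := by rw [r1 9 (by norm_num), e3]
  have u9 : hi 9 = 4 := by rw [r2 9 (by norm_num), e4]
  have l8 : lo 8 = 2 := by rw [r1 8 (by norm_num), e5]
  have u8 : hi 8 = 4 := by rw [r2 8 (by norm_num), e6]
  have l7 : lo 7 = 2 := by rw [r1 7 (by norm_num), e7]
  have u7 : hi 7 = 3 := by rw [r2 7 (by norm_num), e8]
  have hb : hi 5 - lo 5 + 1 = 2 := by
    rw [r1 5 (by norm_num), r2 5 (by norm_num), e9, e10]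
  have m4' := sm_iff.mp m4
  have hbit : ∀ a < 19, J.testBit a = true := fun a ha => m4' a (by
    rw [show 524287 = 2 ^ 19 - 1 by norm_num, Nat.testBit_two_pow_sub_one]
    simpa using ha)
  have c17 : c 17 = e 10 3 := hc 17 (by norm_num)
  have c18 : c 18 = e 10 4 := hc 18 (by norm_num)
  have hcell : ∀ x, x ≤ (t : P) → lev x = 10 → x = c 17 ∨ x = c 18 := by
    intro x hx hl
    obtain ⟨s, s1, s2, hs⟩ := C.surj x hx hl.le
    rw [hl] at s1 s2 hs
    rcases (show s = 3 ∨ s = 4 by omega) with h1 | h1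
    · left; rw [c17, ← hs, h1]
    · right; rw [c18, ← hs, h1]
  have hUS := Mc_us
  have hct : ∀ a < 23, J.testBit a = true → ∀ k, ct 5 k (c a) = min k (Mclv.getD a 0 - 5) +
      ∑ b ∈ (range 23).filter (fun b => (orM (fun a => Mcum.getD a 0) 23
        (Mccv.getD a 0)).testBit b = true ∧ J.testBit b = true),
        min k (Mclv.getD b 0 - 5) := fun a _ ha k =>
    C1.cod.ct_cell hUS.cv (thChk_um Mc_th) ha 5 k
  have hS1 : tyS c 131072 11 ⊆ S := by
    rw [hS]
    exact Finset.subset_union_right.trans Finset.subset_union_left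
  have hS2 : tyS c 393216 11 ⊆ S := by
    rw [hS]
    exact Finset.subset_union_right
  have hSl : lowPart 10 (t : P) ⊆ S := by
    rw [hS]
    exact Finset.subset_union_left.trans Finset.subset_union_left
  have hm17 : Sm 131072 J := by
    refine Sm.trans (sm_iff.mp (by decide)) m4'
  have hm18 : Sm 393216 J := by
    refine Sm.trans (sm_iff.mp (by decide)) m4'
  have q1 : ∀ x ∈ tyS c 131072 11, ∃ a, J.testBit a = true ∧ c a = x ∧ (a = 19 ∨ a = 20) := by
    intro x hx
    obtain ⟨a, h1, h2, h3, h4, h5⟩ := C1.cell_ty hm17 (hS1 hx) hx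
    exact ⟨a, h2, h3, (E7_cells a h1).1 h4 h5⟩
  have q2 : ∀ x ∈ tyS c 393216 11, ∃ a, J.testBit a = true ∧ c a = x ∧ (a = 21 ∨ a = 22) := by
    intro x hx
    obtain ⟨a, h1, h2, h3, h4, h5⟩ := C1.cell_ty hm18 (hS2 hx) hx
    exact ⟨a, h2, h3, (E7_cells a h1).2 h4 h5⟩
  -- thresholds and costs
  have t1 : ∀ x ∈ tyS c 131072 11, thM 23 J c (fun a => Mcth.getD a 0) x = 3 ∧
      ct 5 4 x = 24 := by
    intro x hx
    obtain ⟨a, h2, rfl, h3⟩ := q1 x hx
    rw [thM_c C1.cod _ h2, hct a (by omega) h2 4]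
    refine ⟨?_, k1 a (by rcases h3 with rfl | rfl <;> simp)⟩
    rcases h3 with rfl | rfl <;> rfl
  have t2 : ∀ x ∈ tyS c 393216 11, thM 23 J c (fun a => Mcth.getD a 0) x = 2 ∧
      ct 5 3 x = 30 := by
    intro x hx
    obtain ⟨a, h2, rfl, h3⟩ := q2 x hx
    rw [thM_c C1.cod _ h2, hct a (by omega) h2 3]
    refine ⟨?_, k2 a (by rcases h3 with rfl | rfl <;> simp)⟩
    rcases h3 with rfl | rfl <;> rfl
  have t17 : thM 23 J c (fun a => Mcth.getD a 0) (c 17) = 2 := by
    rw [thM_c C1.cod _ (hbit 17 (by norm_num))]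
    rfl
  have hprof : Pf (c 17) pE7 := by
    rw [c17]
    exact nab_word10 D C h (by rw [e1]) (by rw [e2]; norm_num) (by decide +kernel)
  have hcovI : ∀ (m : ℕ) (z : P), Cvs c m z ↔ ∀ y, z ⋖ y ↔ ∃ b, m.testBit b = true ∧ c b = y :=
    fun m z => Iff.rfl
  -- types of the elements of level 11
  have ty : ∀ z, lev z = 11 → (∀ y, z ⋖ y → y ≤ (t : P)) →
      z ∈ tyS c 131072 11 ∨ z ∈ tyS c 393216 11 := by
    intro z hl hz
    have hly : ∀ y, z ⋖ y → lev y = 10 := by
      intro y hy
      have := (h.H.covBy_iff.mp hy).2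
      omega
    rcases one_of_two (cov_ex (z := z) (by omega)) (fun y hy => hcell y (hz y hy) (hly y hy))
      with h1 | h1 | h1
    · left
      rw [mem_tyS]
      exact ⟨hl, by rw [show (131072 : ℕ) = 2 ^ 17 by norm_num]; exact cvs_one.mpr h1⟩
    · exfalso
      have hS9 := (Win.near_level' (i := 9) h (by norm_num)).2 t lo hi e t.2 C.toWin
      have hp : (Win.pen (e (9 + 1) 4)).card = 0 := by
        rcases hS9 with ⟨-, -, g⟩ | ⟨g, -, -⟩ | ⟨g, -, -⟩
        · exact g 4 (by omega) (by omega)
        · have := g.2.1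
          norm_num at this
          omega
        · have := g.2.1
          norm_num at this
          omega
      have hz18 : z ∈ Win.pen (e (9 + 1) 4) := by
        rw [Win.mem_pen]
        refine ⟨?_, ?_⟩
        · show z ⋖ e 10 4
          rw [← c18]
          exact (h1 _).mpr rfl
        · rw [Finset.card_eq_one]
          refine ⟨c 18, ?_⟩
          ext y
          rw [Win.mem_uc, mem_singleton]
          exact h1 y
      rw [Finset.card_eq_zero.mp hp] at hz18
      exact absurd hz18 (Finset.notMem_empty _)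
    · right
      rw [mem_tyS]
      refine ⟨hl, ?_⟩
      rw [show (393216 : ℕ) = Nat.lor (2 ^ 18) (2 ^ 17) by decide]
      rw [cvs_two]
      intro y
      rw [h1 y, or_comm]
  have hle : ∀ x ∈ S, x ≤ (t : P) := by
    intro x hx
    rw [hS, mem_union, mem_union] at hx
    have h17 : c 17 ≤ (t : P) := by
      rw [c17]
      exact C.le_t 10 3 le_rfl (by omega) (by omega)
    rcases hx with (hx | hx) | hx
    · exact (mem_lowPart.mp hx).1
    · exact (((mem_tyS.mp hx).2 (c 17)).mpr ⟨17, by decide, rfl⟩).le.trans h17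
    · exact (((mem_tyS.mp hx).2 (c 17)).mpr ⟨17, by decide, rfl⟩).le.trans h17
  rw [hb]
  refine ⟨if J.testBit 20 then 27 else 33, 1, S, thM 23 J c (fun a => Mcth.getD a 0),
    fun x => x = c 16, ?_⟩
  refine tdCx (β := 6) C1 hUS Mc_th (hbit 16 (by norm_num)) Mc_pol Mc_mst m1 (sm_iff.mp m3)
    Mc_bm (by split_ifs <;> norm_num) (by split_ifs <;> norm_num) ?_ ?_ hSl hle ?_ ?_ ?_
  · intro hlt
    have h20 : J.testBit 20 = true := by
      by_contra hcon
      rw [if_neg hcon] at hlt
      exact absurd hlt (by norm_num)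
    rw [if_pos h20]
    exact m2 h20
  · intro hlt
    have h20 : J.testBit 20 = true := by
      by_contra hcon
      rw [if_neg hcon] at hlt
      exact absurd hlt (by norm_num)
    rw [if_pos h20]
    exact Or.inr ⟨rfl, by norm_num⟩
  · intro z x hl hz ho _ _
    rcases ty z hl ho with h1 | h1
    · exact absurd (hS1 h1) hz
    · exact absurd (hS2 h1) hz
  · intro z x hl hz hx hzx
    have hlz := (h.H.covBy_iff.mp hzx).2
    have hx' : x ∈ tyS c 131072 11 ∨ x ∈ tyS c 393216 11 := by
      rw [hS, mem_union, mem_union] at hx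
      rcases hx with (hx | hx) | hx
      · have := (mem_lowPart.mp hx).2
        omega
      · exact Or.inl hx
      · exact Or.inr hx
    have hlx : lev x = 11 := by
      rcases hx' with h1 | h1
      · exact (mem_tyS.mp h1).1
      · exact (mem_tyS.mp h1).1
    rcases hx' with h1 | h1
    · obtain ⟨f1, f2⟩ := t1 x h1
      rw [f1]
      by_cases ho : ∀ y, z ⋖ y → y = x
      · right
        have hx17 : x ⋖ c 17 := ((mem_tyS.mp h1).2 (c 17)).mpr ⟨17, by decide, rfl⟩
        have hx17' : ∀ y, x ⋖ y → y = c 17 := by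
          have h2 := (mem_tyS.mp h1).2
          rw [show (131072 : ℕ) = 2 ^ 17 by norm_num, cvs_one] at h2
          exact fun y hy => (h2 y).mp hy
        have hl17 : lev (c 17) = 10 := C1.cod.lev 17 (hbit 17 (by norm_num))
        refine ⟨by omega, ho, f1, ?_, ?_⟩
        · intro k hk
          rw [nab_one_cov hx17' hx17 (by omega)]
          exact hprof k hk
        · rw [nab_one_cov hx17' hx17 (by omega)]
          have := nab_self (z := c 17)
          rwa [hl17] at this
      · left
        push Not at ho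
        obtain ⟨y, hy, hyx⟩ := ho
        have hly : lev y = 11 := by
          have := (h.H.covBy_iff.mp hy).2
          omega
        have hxy : ¬ x ≤ y := by
          intro hcon
          rcases eq_or_lt_of_le hcon with h2 | h2
          · exact hyx h2.symm
          · have := lev_strictAnti h2
            omega
        by_cases h2 : y ∈ tyS c 131072 11
        · have h20 : J.testBit 20 = true := by
            obtain ⟨a, a1, a2, a3⟩ := q1 x h1
            obtain ⟨b, b1, b2, b3⟩ := q1 y h2
            rcases a3 with rfl | rfl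
            · rcases b3 with rfl | rfl
              · exact absurd (b2.symm.trans a2) hyx
              · exact b1
            · exact a1
          rw [if_pos h20]
          have h3 := ct_two (i := 5) (k := 4) hzx.1 hy.1 hxy (by omega)
          rw [f2, hly] at h3
          norm_num at h3 ⊢
          omega
        · have h3 : ∃ v, y ⋖ v ∧ v ≠ c 17 := by
            by_contra hcon
            push Not at hcon
            refine h2 (mem_tyS.mpr ⟨hly, ?_⟩)
            rw [show (131072 : ℕ) = 2 ^ 17 by norm_num, cvs_one]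
            intro v
            constructor
            · exact hcon v
            · rintro rfl
              obtain ⟨v, hv⟩ := cov_ex (z := y) (by omega)
              rwa [hcon v hv] at hv
          obtain ⟨v, hv, hv17⟩ := h3
          have hlv : lev v = 10 := by
            have := (h.H.covBy_iff.mp hv).2
            omega
          have hxv : ¬ x ≤ v := by
            intro hcon
            have h4 : x ⋖ v := by
              rw [h.H.covBy_iff]
              exact ⟨lt_of_le_of_ne hcon (by rintro rfl; omega), by omega⟩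
            obtain ⟨b, b1, b2⟩ := ((mem_tyS.mp h1).2 v).mp h4
            have b3 : b = 17 := by
              by_contra hne
              rw [show (131072 : ℕ) = 2 ^ 17 by norm_num, Nat.testBit_two_pow_of_ne
                (Ne.symm hne)] at b1
              exact absurd b1 (by simp)
            rw [b3] at b2
            exact hv17 b2.symm
          have h5 := ct_three (i := 5) (k := 4) hzx.1 hy.1 hv.1 hxy hxv (by omega)
          rw [f2, hly, hlv] at h5
          norm_num at h5 ⊢
          split_ifs <;> omega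
    · left
      obtain ⟨f1, f2⟩ := t2 x h1
      rw [f1]
      have h3 := ct_one (i := 5) (k := 3) hzx.1 (by omega)
      rw [f2] at h3
      norm_num at h3 ⊢
      split_ifs <;> omega
  · intro x hx hl hu
    rcases hcell x hx hl with h1 | h1
    · rw [h1]
      exact En.e7 t17 hprof
    · exfalso
      rw [h1, c18] at hu
      exact two_up C (s := 4) (by omega) (by omega) (by omega) (by omega) hu

end Pool.Agent.GaussPoset.J10
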