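import Pool.Agent.W_448j10_h67.JbP

/-!
The components at the window 5, level 10: coded sets closed under types (MP_448cb3_co).
-/

namespace Pool.Agent.GaussPoset.J10

set_option linter.unusedSectionVars false

open Polynomial Finset Dd Wd Cl J8 Sg

universe u

variable {P : Type u} [Fintype P] [PartialOrder P] [DecidableEq P] {r : ℕ}
variable {t : Tops P} {lo hi : ℕ → ℕ} {e : ℕ → ℕ → P}
variable {N J : ℕ} {cv lv um th : ℕ → ℕ} {c : ℕ → P}

/-- one set of covers has one mask -/
lemma CodM.mask_inj (C : CodM N J cv lv c) {m m' : ℕ} (hm : Sm m J) (hm' : Sm m' J) {z : P}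
    (h : Cvs c m z) (h' : Cvs c m' z) : m = m' := by
  refine Nat.eq_of_testBit_eq fun b => ?_
  rw [Bool.eq_iff_iff]
  constructor
  · intro hb
    obtain ⟨d, hd, h1⟩ := (h' (c b)).mp ((h (c b)).mpr ⟨b, hb, rfl⟩)
    rwa [← C.inj d (hm' d hd) b (hm b hb) h1]
  · intro hb
    obtain ⟨d, hd, h1⟩ := (h (c b)).mp ((h' (c b)).mpr ⟨b, hb, rfl⟩)
    rwa [← C.inj d (hm d hd) b (hm' b hb) h1]

/-- a coded set with all elements of some types -/
structure Fx (T0 : Finset P) (N J : ℕ) (cv lv : ℕ → ℕ) (c : ℕ → P) (S : Finset P)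
    (Ms : List (ℕ × ℕ)) : Prop where
  cx : Cx N J cv lv c S
  mem : ∀ z, z ∈ S ↔ z ∈ T0 ∨ ∃ p ∈ Ms, Sm p.1 J ∧ z ∈ tyS c p.1 p.2

/-- one more type, at most two cells -/
theorem Fx.step2 {T0 S : Finset P} {Ms : List (ℕ × ℕ)} (F : Fx T0 N J cv lv c S Ms)
    {k k' m l : ℕ} (hk : k < N) (hk' : k' < N) (hne : k ≠ k') (hkJ : J.testBit k = false)
    (hkJ' : J.testBit k' = false) (hm : cv k = m) (hm' : cv k' = m) (hl : lv k = l)
    (hl' : lv k' = l) (hT : Sm m J → (tyS c m l).card ≤ 2) (hT0 : ∀ z ∈ T0, lev z ≠ l)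
    (hnew : (m, l) ∉ Ms) (hmk : m.testBit k = false) (hmk' : m.testBit k' = false)
    (hMk : ∀ p ∈ Ms, p.1.testBit k = false ∧ p.1.testBit k' = false) :
    ∃ (c' : ℕ → P) (J' : ℕ) (S' : Finset P), (∀ a, J.testBit a = true → c' a = c a) ∧
      Fx T0 N J' cv lv c' S' (Ms ++ [(m, l)]) ∧ (J' = J ∨ (Sm m J ∧ (J' = Nat.lor J (2 ^ k) ∨
      J' = Nat.lor (Nat.lor J (2 ^ k)) (2 ^ k')))) := by
  classical
  by_cases hs : Sm m J
  · have hdis : ∀ z ∈ tyS c m l, z ∉ S := by
      intro z hz hzS
      rcases (F.mem z).mp hzS with h1 | ⟨p, hp, h1, h2⟩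
      · exact hT0 z h1 (mem_tyS.mp hz).1
      · have h3 := F.cx.cod.mask_inj hs h1 (mem_tyS.mp hz).2 (mem_tyS.mp h2).2
        have h4 := (mem_tyS.mp hz).1.symm.trans (mem_tyS.mp h2).1
        refine hnew ?_
        rw [h3, h4]
        exact hp
    obtain ⟨c', J', h1, h2, h3⟩ := F.cx.ins2' hk hk' hne hkJ hkJ' hm hm' hl hl' hs (hT hs) hdis
      (fun z hz => mem_tyS.mp hz)
    have hJJ : Sm J J' := by
      rcases h3 with h3 | h3 | h3
      · rw [h3]; exact fun _ h => h
      · rw [h3]; exact sm_lor fun _ h => h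
      · rw [h3]; exact sm_lor (sm_lor fun _ h => h)
    have hback : ∀ m', m'.testBit k = false → m'.testBit k' = false → Sm m' J' → Sm m' J := by
      intro m' g1 g2 g3 a ha
      have g4 := g3 a ha
      have g5 : a ≠ k := by
        rintro rfl
        rw [ha] at g1
        exact absurd g1 (by simp)
      have g6 : a ≠ k' := by
        rintro rfl
        rw [ha] at g2
        exact absurd g2 (by simp)
      rcases h3 with h3 | h3 | h3
      · rwa [h3] at g4
      · rw [h3, bit_lor] at g4
        rcases g4 with g4 | g4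
        · exact g4
        · exact absurd g4 g5
      · rw [h3, bit_lor, bit_lor] at g4
        rcases g4 with (g4 | g4) | g4
        · exact g4
        · exact absurd g4 g5
        · exact absurd g4 g6
    refine ⟨c', J', _, h1, ⟨h2, ?_⟩, ?_⟩
    · intro z
      rw [mem_union, F.mem z]
      constructor
      · rintro ((h4 | ⟨p, hp, h4, h5⟩) | h4)
        · exact Or.inl h4
        · right
          refine ⟨p, List.mem_append_left _ hp, h4.trans hJJ, ?_⟩
          rw [tyS_congr (c := c) (fun a ha => h1 a (h4 a ha))]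
          exact h5
        · right
          refine ⟨(m, l), List.mem_append_right _ (List.mem_singleton_self _),
            hs.trans hJJ, ?_⟩
          show z ∈ tyS c' m l
          rw [tyS_congr (c := c) (fun a ha => h1 a (hs a ha))]
          exact h4
      · rintro (h4 | ⟨p, hp, h4, h5⟩)
        · exact Or.inl (Or.inl h4)
        · rcases List.mem_append.mp hp with h6 | h6
          · obtain ⟨g1, g2⟩ := hMk p h6
            have g3 := hback _ g1 g2 h4
            left; right
            refine ⟨p, h6, g3, ?_⟩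
            rw [tyS_congr (c := c) (fun a ha => h1 a (g3 a ha))] at h5
            exact h5
          · rw [List.mem_singleton] at h6
            subst h6
            right
            have h5' : z ∈ tyS c' m l := h5
            rw [tyS_congr (c := c) (fun a ha => h1 a (hs a ha))] at h5'
            exact h5'
    · rcases h3 with h3 | h3 | h3
      · exact Or.inl h3
      · exact Or.inr ⟨hs, Or.inl h3⟩
      · exact Or.inr ⟨hs, Or.inr h3⟩
  · refine ⟨c, J, S, fun _ _ => rfl, ⟨F.cx, ?_⟩, Or.inl rfl⟩
    intro z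
    rw [F.mem z]
    constructor
    · rintro (h4 | ⟨p, hp, h4⟩)
      · exact Or.inl h4
      · exact Or.inr ⟨p, List.mem_append_left _ hp, h4⟩
    · rintro (h4 | ⟨p, hp, h4⟩)
      · exact Or.inl h4
      · rcases List.mem_append.mp hp with h6 | h6
        · exact Or.inr ⟨p, h6, h4⟩
        · rw [List.mem_singleton] at h6
          subst h6
          exact absurd h4.1 hs

/-- one more type, at most one cell -/
theorem Fx.step1 {T0 S : Finset P} {Ms : List (ℕ × ℕ)} (F : Fx T0 N J cv lv c S Ms)
    {k m l : ℕ} (hk : k < N) (hkJ : J.testBit k = false) (hm : cv k = m) (hl : lv k = l)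
    (hT : Sm m J → (tyS c m l).card ≤ 1) (hT0 : ∀ z ∈ T0, lev z ≠ l)
    (hnew : (m, l) ∉ Ms) (hmk : m.testBit k = false) (hMk : ∀ p ∈ Ms, p.1.testBit k = false) :
    ∃ (c' : ℕ → P) (J' : ℕ) (S' : Finset P), (∀ a, J.testBit a = true → c' a = c a) ∧
      Fx T0 N J' cv lv c' S' (Ms ++ [(m, l)]) ∧ (J' = J ∨ (Sm m J ∧ J' = Nat.lor J (2 ^ k))) := by
  classical
  by_cases hs : Sm m J
  · have hdis : ∀ z ∈ tyS c m l, z ∉ S := by
      intro z hz hzS
      rcases (F.mem z).mp hzS with h1 | ⟨p, hp, h1, h2⟩
      · exact hT0 z h1 (mem_tyS.mp hz).1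
      · have h3 := F.cx.cod.mask_inj hs h1 (mem_tyS.mp hz).2 (mem_tyS.mp h2).2
        have h4 := (mem_tyS.mp hz).1.symm.trans (mem_tyS.mp h2).1
        refine hnew ?_
        rw [h3, h4]
        exact hp
    obtain ⟨c', J', h1, h2, h3⟩ := F.cx.ins1' hk hkJ hm hl hs (hT hs) hdis
      (fun z hz => mem_tyS.mp hz)
    have hJJ : Sm J J' := by
      rcases h3 with h3 | h3
      · rw [h3]; exact fun _ h => h
      · rw [h3]; exact sm_lor fun _ h => h
    have hback : ∀ m', m'.testBit k = false → Sm m' J' → Sm m' J := by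
      intro m' g1 g3 a ha
      have g4 := g3 a ha
      have g5 : a ≠ k := by
        rintro rfl
        rw [ha] at g1
        exact absurd g1 (by simp)
      rcases h3 with h3 | h3
      · rwa [h3] at g4
      · rw [h3, bit_lor] at g4
        rcases g4 with g4 | g4
        · exact g4
        · exact absurd g4 g5
    refine ⟨c', J', _, h1, ⟨h2, ?_⟩, ?_⟩
    · intro z
      rw [mem_union, F.mem z]
      constructor
      · rintro ((h4 | ⟨p, hp, h4, h5⟩) | h4)
        · exact Or.inl h4
        · right
          refine ⟨p, List.mem_append_left _ hp, h4.trans hJJ, ?_⟩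
          rw [tyS_congr (c := c) (fun a ha => h1 a (h4 a ha))]
          exact h5
        · right
          refine ⟨(m, l), List.mem_append_right _ (List.mem_singleton_self _),
            hs.trans hJJ, ?_⟩
          show z ∈ tyS c' m l
          rw [tyS_congr (c := c) (fun a ha => h1 a (hs a ha))]
          exact h4
      · rintro (h4 | ⟨p, hp, h4, h5⟩)
        · exact Or.inl (Or.inl h4)
        · rcases List.mem_append.mp hp with h6 | h6
          · have g3 := hback _ (hMk p h6) h4
            left; right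
            refine ⟨p, h6, g3, ?_⟩
            rw [tyS_congr (c := c) (fun a ha => h1 a (g3 a ha))] at h5
            exact h5
          · rw [List.mem_singleton] at h6
            subst h6
            right
            have h5' : z ∈ tyS c' m l := h5
            rw [tyS_congr (c := c) (fun a ha => h1 a (hs a ha))] at h5'
            exact h5'
    · rcases h3 with h3 | h3
      · exact Or.inl h3
      · exact Or.inr ⟨hs, h3⟩
  · refine ⟨c, J, S, fun _ _ => rfl, ⟨F.cx, ?_⟩, Or.inl rfl⟩
    intro z
    rw [F.mem z]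
    constructor
    · rintro (h4 | ⟨p, hp, h4⟩)
      · exact Or.inl h4
      · exact Or.inr ⟨p, List.mem_append_left _ hp, h4⟩
    · rintro (h4 | ⟨p, hp, h4⟩)
      · exact Or.inl h4
      · rcases List.mem_append.mp hp with h6 | h6
        · exact Or.inr ⟨p, h6, h4⟩
        · rw [List.mem_singleton] at h6
          subst h6
          exact absurd h4.1 hs

end Pool.Agent.GaussPoset.J10
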