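import Pool.Agent.W_448j10_h67.JbE
import Pool.Agent.W_448j10_h67.JbF
import Pool.Agent.W_448j10_h67.JbR

/-!
The components at the window 5, level 10: the codes of `La5` (MP_448cb3_co).
-/

namespace Pool.Agent.GaussPoset.J10

set_option linter.unusedSectionVars false

open Polynomial Finset Dd Wd Cl J8 Sg

universe u

variable {P : Type u} [Fintype P] [PartialOrder P] [DecidableEq P] {r : ℕ}
variable {t : Tops P} {lo hi : ℕ → ℕ} {e : ℕ → ℕ → P}

/-- one more cell over the masks with the bits of `m` -/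
def nx1 (m k : ℕ) (Js : List ℕ) : List ℕ :=
  Js.flatMap fun J => bif Nat.beq (Nat.land m J) m then [J, Nat.lor J (2 ^ k)] else [J]

/-- at most two more cells over the masks with the bits of `m` -/
def nx2 (m k k' : ℕ) (Js : List ℕ) : List ℕ :=
  Js.flatMap fun J => bif Nat.beq (Nat.land m J) m then
    [J, Nat.lor J (2 ^ k), Nat.lor (Nat.lor J (2 ^ k)) (2 ^ k')] else [J]

lemma mem_nx1 {m k J J' : ℕ} {Js : List ℕ} (hJ : J ∈ Js)
    (h : J' = J ∨ (Sm m J ∧ J' = Nat.lor J (2 ^ k))) : J' ∈ nx1 m k Js := by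
  unfold nx1
  rw [List.mem_flatMap]
  refine ⟨J, hJ, ?_⟩
  rcases h with rfl | ⟨h1, rfl⟩
  · cases Nat.beq (Nat.land m J') m <;> simp
  · rw [← sm_iff] at h1
    rw [h1, Nat.beq_refl]
    simp

lemma mem_nx2 {m k k' J J' : ℕ} {Js : List ℕ} (hJ : J ∈ Js)
    (h : J' = J ∨ (Sm m J ∧ (J' = Nat.lor J (2 ^ k) ∨
      J' = Nat.lor (Nat.lor J (2 ^ k)) (2 ^ k')))) : J' ∈ nx2 m k k' Js := by
  unfold nx2
  rw [List.mem_flatMap]
  refine ⟨J, hJ, ?_⟩
  rcases h with rfl | ⟨h1, h2⟩
  · cases Nat.beq (Nat.land m J') m <;> simp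
  · rw [← sm_iff] at h1
    rw [h1, Nat.beq_refl]
    rcases h2 with rfl | rfl <;> simp

/-- the cells of `La5` -/
def ce5 (e : ℕ → ℕ → P) (a : ℕ) : P := e (La5lv.getD a 0) (La5sl.getD a 0)

/-- the masks of the first stage -/
def JA1 : List ℕ := nx1 65536 19 [524287]
def JA2 : List ℕ := nx1 131072 20 JA1
def JA3 : List ℕ := nx1 196608 21 JA2
def JA4 : List ℕ := nx2 393216 22 23 JA3
def JA5 : List ℕ := nx2 4194304 24 25 JA4
def JA6 : List ℕ := nx2 8388608 26 27 JA5

/-- the masks of the second stage -/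
def JB1 : List ℕ := nx1 65536 19 [524287]
def JB2 : List ℕ := nx1 196608 20 JB1
def JB3 : List ℕ := nx1 393216 21 JB2
def JB4 : List ℕ := nx2 2621440 22 23 JB3
def JB5 : List ℕ := nx2 3145728 24 25 JB4
def JB6 : List ℕ := nx2 524288 26 27 JB5

/-- the first pole of the first stage -/
def wA (J : ℕ) : ℕ :=
  bif J.testBit 20 then 20 else bif J.testBit 23 then 23 else bif J.testBit 24 then 24 else 25

/-- its value -/
def rA (J : ℕ) : ℤ := bif J.testBit 20 then -1 else bif J.testBit 23 then -1 else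
  bif J.testBit 25 then -2 else -1

/-- the types of the first stage -/
def MsA : List (ℕ × ℕ) := [(65536, 11), (131072, 11), (196608, 11), (393216, 11), (4194304, 12),
  (8388608, 12)]

/-- the types of the second stage -/
def MsB : List (ℕ × ℕ) := [(65536, 11), (196608, 11), (393216, 11), (2621440, 12), (3145728, 12),
  (524288, 12)]

lemma JA_sm : ∀ J ∈ JA6, Nat.land 524287 J = 524287 ∧ Nat.land 300415 J = 300415 := by
  decide +kernel

lemma JA_chk : ∀ J ∈ JA6, mskC MaL J (wA J) = true ∧ Nat.ble 1 (wA J) = true ∧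
    Nat.ble (wA J) 25 = true := by
  decide +kernel

lemma JA_pol : ∀ J ∈ JA6, (wA J < 25 →
    poleC 28 5 (wA J) 5 (rA J) (fun a => Malv.getD a 0) Maus MaL J = true) := by
  decide +kernel

lemma JA_dp : ∀ J ∈ JA6, dpC 28 (fun a => Malv.getD a 0) (fun a => Maum.getD a 0)
    (fun a => Math.getD a 0) MsA [] J (min 25 (wA J + 1)) = true := by decide +kernel

lemma JB_sm : ∀ J ∈ JB6, Nat.land 524287 J = 524287 ∧ Nat.land 300415 J = 300415 := by
  decide +kernel

lemma JB_chk : ∀ J ∈ JB6, mskC MbL J 33 = true := by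
  decide +kernel

lemma JB_dp : ∀ J ∈ JB6, dpC 28 (fun a => Mblv.getD a 0) (fun a => Mbum.getD a 0)
    (fun a => Mbth.getD a 0) MsB [2097152] J (min 33 (33 + 1)) = true := by decide +kernel

end Pool.Agent.GaussPoset.J10
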