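import Pool.Agent.W_448j10_h67.JbS

/-!
The components at the window 5, level 10: the strip `La5` (MP_448cb3_co).
-/

namespace Pool.Agent.GaussPoset.J10

set_option linter.unusedSectionVars false

open Polynomial Finset Dd Wd Cl J8 Sg

universe u

variable {P : Type u} [Fintype P] [PartialOrder P] [DecidableEq P] {r : ℕ}
variable {t : Tops P} {lo hi : ℕ → ℕ} {e : ℕ → ℕ → P}

lemma La5_rows : losW 5 wa5 10 = 3 ∧ hisW 5 wa5 10 = 5 ∧ losW 5 wa5 9 = 2 ∧ hisW 5 wa5 9 = 4 ∧
    losW 5 wa5 8 = 2 ∧ hisW 5 wa5 8 = 3 ∧ losW 5 wa5 7 = 1 ∧ hisW 5 wa5 7 = 2 ∧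
    losW 5 wa5 5 = 0 ∧ hisW 5 wa5 5 = 1 := by decide +kernel

/-- the rows of `La5` -/
structure R5 (lo hi : ℕ → ℕ) : Prop where
  l10 : lo 10 = 3
  u10 : hi 10 = 5
  l9 : lo 9 = 2
  u9 : hi 9 = 4
  l8 : lo 8 = 2
  u8 : hi 8 = 3
  l7 : lo 7 = 1
  u7 : hi 7 = 2
  l5 : lo 5 = 0
  u5 : hi 5 = 1

lemma La5_r5 (C : Cp.Comp 10 (t : P) lo hi e) (D : WordD 10 5 wa5 lo hi) : R5 lo hi := by
  obtain ⟨r1, r2⟩ := D.rows C
  obtain ⟨e1, e2, e3, e4, e5, e6, e7, e8, e9, e10⟩ := La5_rows
  exact ⟨by rw [r1 10 le_rfl, e1], by rw [r2 10 le_rfl, e2], by rw [r1 9 (by norm_num), e3],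
    by rw [r2 9 (by norm_num), e4], by rw [r1 8 (by norm_num), e5],
    by rw [r2 8 (by norm_num), e6], by rw [r1 7 (by norm_num), e7],
    by rw [r2 7 (by norm_num), e8], by rw [r1 5 (by norm_num), e9],
    by rw [r2 5 (by norm_num), e10]⟩

/-- the last row of `La5` -/
lemma R5.cell (R : R5 lo hi) (C : Cp.Comp 10 (t : P) lo hi e) {x : P} (hx : x ≤ (t : P))
    (hl : lev x = 10) : x = e 10 3 ∨ x = e 10 4 ∨ x = e 10 5 := by
  obtain ⟨s, s1, s2, hs⟩ := C.surj x hx hl.le
  rw [hl] at s1 s2 hs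
  have h1 := R.l10
  have h2 := R.u10
  rcases (show s = 3 ∨ s = 4 ∨ s = 5 by omega) with h3 | h3 | h3
  · left; rw [← hs, h3]
  · right; left; rw [← hs, h3]
  · right; right; rw [← hs, h3]

/-- one pendant below the two doubles -/
lemma R5.pen (R : R5 lo hi) (h : Win.GoodTo P r 10) (C : Cp.Comp 10 (t : P) lo hi e) :
    (Win.pen (e 10 3)).card + (Win.pen (e 10 4)).card = 1 := by
  obtain ⟨l10, u10, l9, u9, l8, u8, l7, u7, -, -⟩ := R
  have hS := (Win.near_level' (i := 9) h (by norm_num)).2 t lo hi e t.2 C.toWin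
  have hL : Win.LCO lo hi 9 := ⟨by norm_num, by norm_num; omega, by norm_num; omega, by omega⟩
  rcases hS with ⟨g1, -, -⟩ | ⟨-, -, b, g1, g2⟩ | ⟨-, g1, -⟩
  · exact absurd hL g1
  · have k3 := g2 3 (by omega) (by omega)
    have k4 := g2 4 (by omega) (by omega)
    norm_num at k3 k4
    rw [k3, k4]
    rcases (show b = 3 ∨ b = 4 by omega) with rfl | rfl <;> norm_num
  · exact absurd hL g1

/-- the elements of the level 11 below the component only -/
lemma R5.ty (R : R5 lo hi) (h : Win.GoodTo P r 10) (C : Cp.Comp 10 (t : P) lo hi e) {z : P}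
    (hl : lev z = 11) (hz : ∀ y, z ⋖ y → y ≤ (t : P)) :
    (∀ y, z ⋖ y ↔ y = e 10 3) ∨ (∀ y, z ⋖ y ↔ y = e 10 4) ∨ (∀ y, z ⋖ y ↔ y = e 10 5) ∨
    (∀ y, z ⋖ y ↔ (y = e 10 3 ∨ y = e 10 4)) ∨ (∀ y, z ⋖ y ↔ (y = e 10 4 ∨ y = e 10 5)) := by
  have R' : R5 lo hi := R
  obtain ⟨l10, u10, l9, u9, l8, u8, l7, u7, -, -⟩ := R
  have hly : ∀ y, z ⋖ y → lev y = 10 := by
    intro y hy
    have := (h.H.covBy_iff.mp hy).2
    omega
  have hc : ∀ y, z ⋖ y → y = e 10 3 ∨ y = e 10 4 ∨ y = e 10 5 := fun y hy =>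
    R'.cell C (hz y hy) (hly y hy)
  have hne : ∀ a b, 3 ≤ a → a ≤ 5 → 3 ≤ b → b ≤ 5 → a ≠ b → e 10 a ≠ e 10 b :=
    fun a b a1 a2 b1 b2 hab hh =>
      hab (C.inj 10 a b le_rfl (by omega) (by omega) (by omega) (by omega) hh)
  have h35 : ¬ (z ⋖ e 10 3 ∧ z ⋖ e 10 5) := by
    rintro ⟨h3, h5⟩
    rcases (Win.near_level' (i := 9) h (by norm_num)).1 z (e 10 3) (e 10 5) (by omega) h3 h5
      (hne 3 5 (by norm_num) (by norm_num) (by norm_num) (by norm_num) (by norm_num)) with
      h6 | ⟨h6, -, -⟩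
    · obtain ⟨u, hu1, hu2⟩ := Win.exists_of_ucv (v := e 10 3) (v' := e 10 5)
        (by rw [h6]; exact one_pos)
      have hut : u ≤ (t : P) := Cp.up_le h.H h.good t.2 (hz _ h5) (hly _ h5).le hu2.1.le
      have hul : lev u = 9 := by
        have := (h.H.covBy_iff.mp hu2).2
        have := hly _ h5
        omega
      obtain ⟨s', s1', s2', hs'⟩ := C.surj u hut (by omega)
      rw [hul] at s1' s2' hs'
      rw [← hs'] at hu1 hu2
      have c1 := (C.cov 9 3 s' (by norm_num) (by show lo 10 ≤ 3; omega)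
        (by show 3 ≤ hi 10; omega) s1' s2').1 hu1
      have c2 := (C.cov 9 5 s' (by norm_num) (by show lo 10 ≤ 5; omega)
        (by show 5 ≤ hi 10; omega) s1' s2').1 hu2
      omega
    · exact two_up C (s := 3) (by omega) (by omega) (by omega) (by omega) h6
  by_cases h3 : z ⋖ e 10 3
  · have h5 : ¬ z ⋖ e 10 5 := fun h5 => h35 ⟨h3, h5⟩
    by_cases h4 : z ⋖ e 10 4
    · right; right; right; left
      intro y
      constructor
      · intro hy
        rcases hc y hy with rfl | rfl | rfl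
        · exact Or.inl rfl
        · exact Or.inr rfl
        · exact absurd hy h5
      · rintro (rfl | rfl) <;> assumption
    · left
      intro y
      constructor
      · intro hy
        rcases hc y hy with rfl | rfl | rfl
        · rfl
        · exact absurd hy h4
        · exact absurd hy h5
      · rintro rfl
        exact h3
  · right
    by_cases h4 : z ⋖ e 10 4
    · by_cases h5 : z ⋖ e 10 5
      · right; right; right
        intro y
        constructor
        · intro hy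
          rcases hc y hy with rfl | rfl | rfl
          · exact absurd hy h3
          · exact Or.inl rfl
          · exact Or.inr rfl
        · rintro (rfl | rfl) <;> assumption
      · left
        intro y
        constructor
        · intro hy
          rcases hc y hy with rfl | rfl | rfl
          · exact absurd hy h3
          · rfl
          · exact absurd hy h5
        · rintro rfl
          exact h4
    · right; left
      obtain ⟨v, hv⟩ := cov_ex (z := z) (by omega)
      have hv5 : v = e 10 5 := by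
        rcases hc v hv with h6 | h6 | h6
        · rw [h6] at hv
          exact absurd hv h3
        · rw [h6] at hv
          exact absurd hv h4
        · exact h6
      intro y
      constructor
      · intro hy
        rcases hc y hy with rfl | rfl | rfl
        · exact absurd hy h3
        · exact absurd hy h4
        · rfl
      · rintro rfl
        rwa [hv5] at hv

section Cards

variable {c : ℕ → P}

lemma R5.card3 (R : R5 lo hi) (h : Win.GoodTo P r 10) (C : Cp.Comp 10 (t : P) lo hi e)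
    (h16 : c 16 = e 10 3) : (tyS c 65536 11).card ≤ 1 := by
  have h1 : tyS c 65536 11 ⊆ Win.pen (e 10 3) := by
    intro z hz
    have h2 := (mem_tyS.mp hz).2
    rw [show (65536 : ℕ) = 2 ^ 16 by norm_num, cvs_one, h16] at h2
    rw [Win.mem_pen]
    refine ⟨(h2 _).mpr rfl, ?_⟩
    rw [Finset.card_eq_one]
    refine ⟨e 10 3, ?_⟩
    ext y
    rw [Win.mem_uc, mem_singleton]
    exact h2 y
  have h2 := Finset.card_le_card h1
  have h3 := R.pen h C
  omega

lemma R5.card4 (R : R5 lo hi) (h : Win.GoodTo P r 10) (C : Cp.Comp 10 (t : P) lo hi e)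
    (h17 : c 17 = e 10 4) : (tyS c 131072 11).card ≤ 1 := by
  have h1 : tyS c 131072 11 ⊆ Win.pen (e 10 4) := by
    intro z hz
    have h2 := (mem_tyS.mp hz).2
    rw [show (131072 : ℕ) = 2 ^ 17 by norm_num, cvs_one, h17] at h2
    rw [Win.mem_pen]
    refine ⟨(h2 _).mpr rfl, ?_⟩
    rw [Finset.card_eq_one]
    refine ⟨e 10 4, ?_⟩
    ext y
    rw [Win.mem_uc, mem_singleton]
    exact h2 y
  have h2 := Finset.card_le_card h1
  have h3 := R.pen h C
  omega

lemma R5.card34 (R : R5 lo hi) (h : Win.GoodTo P r 10) (C : Cp.Comp 10 (t : P) lo hi e)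
    (h16 : c 16 = e 10 3) (h17 : c 17 = e 10 4) : (tyS c 196608 11).card ≤ 1 := by
  classical
  have h0 : ∀ z ∈ tyS c 196608 11, ∀ y, z ⋖ y ↔ (y = e 10 3 ∨ y = e 10 4) := by
    intro z hz
    have h2 := (mem_tyS.mp hz).2
    rw [show (196608 : ℕ) = Nat.lor (2 ^ 16) (2 ^ 17) by decide, cvs_two, h16, h17] at h2
    exact h2
  have hne : e 10 3 ≠ e 10 4 := fun hh => by
    have := C.inj 10 3 4 le_rfl (by rw [R.l10]) (by rw [R.u10]; norm_num)
      (by rw [R.l10]; norm_num) (by rw [R.u10]; norm_num) hh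
    omega
  have key : ∀ x, (x = e 10 3 ∨ x = e 10 4) → (Win.pen x).card = 1 →
      (tyS c 196608 11).card ≤ 1 := by
    intro x hx hp
    have h1 : Disjoint (tyS c 196608 11) (Win.pen x) := by
      rw [Finset.disjoint_left]
      intro z hz hz'
      rw [Win.mem_pen] at hz'
      obtain ⟨q, hq⟩ := Finset.card_eq_one.mp hz'.2
      have a3 : e 10 3 ∈ Win.uc z := Win.mem_uc.mpr ((h0 z hz _).mpr (Or.inl rfl))
      have a4 : e 10 4 ∈ Win.uc z := Win.mem_uc.mpr ((h0 z hz _).mpr (Or.inr rfl))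
      rw [hq, mem_singleton] at a3 a4
      exact hne (a3.trans a4.symm)
    have h2 : tyS c 196608 11 ∪ Win.pen x ⊆ Win.dc x := by
      intro z hz
      rw [mem_union] at hz
      rw [Win.mem_dc]
      rcases hz with hz | hz
      · exact (h0 z hz x).mpr hx
      · exact (Win.mem_pen.mp hz).1
    have h3 := Finset.card_le_card h2
    rw [Finset.card_union_of_disjoint h1] at h3
    have h4 := Win.dc_card_le h.H x
    omega
  have h3 := R.pen h C
  rcases Nat.lt_or_ge 0 (Win.pen (e 10 3)).card with h4 | h4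
  · exact key _ (Or.inl rfl) (by omega)
  · exact key _ (Or.inr rfl) (by omega)

end Cards

end Pool.Agent.GaussPoset.J10
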