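import Pool.Agent.W_448j10_h67.JbT

/-!
The components at the window 5, level 10: codes of the strip `La5` (MP_448cb3_co).
-/

namespace Pool.Agent.GaussPoset.J10

set_option linter.unusedSectionVars false

open Polynomial Finset Dd Wd Cl J8 Sg

universe u

variable {P : Type u} [Fintype P] [PartialOrder P] [DecidableEq P] {r : ℕ}
variable {t : Tops P} {lo hi : ℕ → ℕ} {e : ℕ → ℕ → P}

lemma La5_lv10 : ∀ a < 19, La5lv.getD a 0 ≤ 10 := by decide +kernel

/-- the start of the codes -/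
lemma La5_fx0 {cv lv : ℕ → ℕ} (hcv : ∀ a < 19, cv a = La5cv.getD a 0)
    (hlv : ∀ a < 19, lv a = La5lv.getD a 0) (h3 : ∀ a < 19, cv a < 2 ^ a)
    (h : Win.GoodTo P r 10) (C : Cp.Comp 10 (t : P) lo hi e) (D : WordD 10 5 wa5 lo hi) :
    Fx (lowPart 10 (t : P)) 28 524287 cv lv (ce5 e) (lowPart 10 (t : P)) [] := by
  obtain ⟨r1, r2⟩ := D.rows C
  have hcod : Cod 19 (fun a => La5cv.getD a 0) (fun a => La5lv.getD a 0) (ce5 e) :=
    La5_strip.cod C h.H h.good t.2 (j := 10) (by norm_num) r1 r2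
  have hle : ∀ a < 19, ce5 e a ∈ lowPart 10 (t : P) := by
    intro a ha
    have h3 := La5_strip.row a (by omega)
    have h4 := La5_lv10 a ha
    rw [← r1 _ h4, ← r2 _ h4] at h3
    rw [mem_lowPart]
    unfold ce5
    rw [C.lev_e _ _ h4 h3.1 h3.2]
    exact ⟨C.le_t _ _ h4 h3.1 h3.2, h4⟩
  have C0 : Cx 28 (2 ^ 19 - 1) cv lv (ce5 e) (lowPart 10 (t : P)) := by
    refine Cx.ofCod (n := 19) hcod (by norm_num) hcv hlv h3 ?_
    intro x
    constructor
    · intro hx
      exact La5_strip.surj' C (j := 10) (by norm_num) r1 r2 hx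
    · rintro ⟨a, ha, rfl⟩
      exact hle a ha
  rw [show 2 ^ 19 - 1 = 524287 by norm_num] at C0
  refine ⟨C0, fun z => ?_⟩
  constructor
  · exact Or.inl
  · rintro (h1 | ⟨p, hp, -⟩)
    · exact h1
    · exact absurd hp (by simp)

lemma low_ne {l : ℕ} (hl : 10 < l) : ∀ z ∈ lowPart 10 (t : P), lev z ≠ l := by
  intro z hz
  have := (mem_lowPart.mp hz).2
  omega

lemma ce5_row (e : ℕ → ℕ → P) : ce5 e 16 = e 10 3 ∧ ce5 e 17 = e 10 4 ∧ ce5 e 18 = e 10 5 := by
  refine ⟨?_, ?_, ?_⟩ <;> rfl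

lemma JA1_b : ∀ J ∈ JA1, J.testBit 20 = false ∧ Nat.land 524287 J = 524287 := by decide +kernel
lemma JA2_b : ∀ J ∈ JA2, J.testBit 21 = false ∧ Nat.land 524287 J = 524287 := by decide +kernel
lemma JA3_b : ∀ J ∈ JA3, (J.testBit 22 = false ∧ J.testBit 23 = false) ∧
    Nat.land 524287 J = 524287 := by decide +kernel
lemma JA4_b : ∀ J ∈ JA4, (J.testBit 24 = false ∧ J.testBit 25 = false) ∧
    Nat.land 524287 J = 524287 := by decide +kernel
lemma JA5_b : ∀ J ∈ JA5, (J.testBit 26 = false ∧ J.testBit 27 = false) ∧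
    Nat.land 524287 J = 524287 := by decide +kernel
lemma JB1_b : ∀ J ∈ JB1, J.testBit 20 = false ∧ Nat.land 524287 J = 524287 := by decide +kernel
lemma JB2_b : ∀ J ∈ JB2, J.testBit 21 = false ∧ Nat.land 524287 J = 524287 := by decide +kernel
lemma JB3_b : ∀ J ∈ JB3, (J.testBit 22 = false ∧ J.testBit 23 = false) ∧
    Nat.land 524287 J = 524287 := by decide +kernel
lemma JB4_b : ∀ J ∈ JB4, (J.testBit 24 = false ∧ J.testBit 25 = false) ∧
    Nat.land 524287 J = 524287 := by decide +kernel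
lemma JB5_b : ∀ J ∈ JB5, (J.testBit 26 = false ∧ J.testBit 27 = false) ∧
    Nat.land 524287 J = 524287 := by decide +kernel

lemma bit19 {J : ℕ} (hJ : Nat.land 524287 J = 524287) {a : ℕ} (ha : a < 19) :
    J.testBit a = true := by
  refine sm_iff.mp hJ a ?_
  rw [show 524287 = 2 ^ 19 - 1 by norm_num, Nat.testBit_two_pow_sub_one]
  simpa using ha

/-- the code of the first stage -/
theorem La5_cxA (h : Win.GoodTo P r 10) (C : Cp.Comp 10 (t : P) lo hi e)
    (D : WordD 10 5 wa5 lo hi) : ∃ c J S, Fx (lowPart 10 (t : P)) 28 J (fun a => Macv.getD a 0)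
      (fun a => Malv.getD a 0) c S MsA ∧ J ∈ JA6 ∧ (∀ a < 19, c a = ce5 e a) := by
  classical
  have R := La5_r5 C D
  obtain ⟨k16, k17, k18⟩ := ce5_row e
  have F0 := La5_fx0 (cv := fun a => Macv.getD a 0) (lv := fun a => Malv.getD a 0)
    (by decide +kernel) (by decide +kernel) (by decide +kernel) h C D
  obtain ⟨c1, J1, S1, a1, F1, j1⟩ := F0.step1 (k := 19) (m := 65536) (l := 11) (by norm_num)
    (by decide) (by decide +kernel) (by decide +kernel) (fun _ => R.card3 h C k16)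
    (low_ne (by norm_num)) (by decide) (by decide) (by decide)
  have m1 : J1 ∈ JA1 := mem_nx1 (by simp) j1
  obtain ⟨b1, b1'⟩ := JA1_b J1 m1
  have g1 : ∀ a < 19, c1 a = ce5 e a := fun a ha => a1 a (bit19 (by decide) ha)
  obtain ⟨c2, J2, S2, a2, F2, j2⟩ := F1.step1 (k := 20) (m := 131072) (l := 11) (by norm_num)
    b1 (by decide +kernel) (by decide +kernel)
    (fun _ => R.card4 h C (by rw [g1 17 (by norm_num), k17]))
    (low_ne (by norm_num)) (by decide) (by decide) (by decide)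
  have m2 : J2 ∈ JA2 := mem_nx1 m1 j2
  obtain ⟨b2, b2'⟩ := JA2_b J2 m2
  have g2 : ∀ a < 19, c2 a = ce5 e a := fun a ha => by rw [a2 a (bit19 b1' ha), g1 a ha]
  obtain ⟨c3, J3, S3, a3, F3, j3⟩ := F2.step1 (k := 21) (m := 196608) (l := 11) (by norm_num)
    b2 (by decide +kernel) (by decide +kernel)
    (fun _ => R.card34 h C (by rw [g2 16 (by norm_num), k16])
      (by rw [g2 17 (by norm_num), k17]))
    (low_ne (by norm_num)) (by decide) (by decide) (by decide)
  have m3 : J3 ∈ JA3 := mem_nx1 m2 j3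
  obtain ⟨b3, b3'⟩ := JA3_b J3 m3
  have g3 : ∀ a < 19, c3 a = ce5 e a := fun a ha => by rw [a3 a (bit19 b2' ha), g2 a ha]
  obtain ⟨c4, J4, S4, a4, F4, j4⟩ := F3.step2 (k := 22) (k' := 23) (m := 393216) (l := 11)
    (by norm_num) (by norm_num) (by norm_num) b3.1 b3.2 (by decide +kernel)
    (by decide +kernel) (by decide +kernel) (by decide +kernel)
    (fun _ => tyS_card h.H (k := 17) (by decide))
    (low_ne (by norm_num)) (by decide) (by decide) (by decide) (by decide)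
  have m4 : J4 ∈ JA4 := mem_nx2 m3 j4
  obtain ⟨b4, b4'⟩ := JA4_b J4 m4
  have g4 : ∀ a < 19, c4 a = ce5 e a := fun a ha => by rw [a4 a (bit19 b3' ha), g3 a ha]
  obtain ⟨c5, J5, S5, a5, F5, j5⟩ := F4.step2 (k := 24) (k' := 25) (m := 4194304) (l := 12)
    (by norm_num) (by norm_num) (by norm_num) b4.1 b4.2 (by decide +kernel)
    (by decide +kernel) (by decide +kernel) (by decide +kernel)
    (fun _ => tyS_card h.H (k := 22) (by decide))
    (low_ne (by norm_num)) (by decide) (by decide) (by decide) (by decide)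
  have m5 : J5 ∈ JA5 := mem_nx2 m4 j5
  obtain ⟨b5, b5'⟩ := JA5_b J5 m5
  have g5 : ∀ a < 19, c5 a = ce5 e a := fun a ha => by rw [a5 a (bit19 b4' ha), g4 a ha]
  obtain ⟨c6, J6, S6, a6, F6, j6⟩ := F5.step2 (k := 26) (k' := 27) (m := 8388608) (l := 12)
    (by norm_num) (by norm_num) (by norm_num) b5.1 b5.2 (by decide +kernel)
    (by decide +kernel) (by decide +kernel) (by decide +kernel)
    (fun _ => tyS_card h.H (k := 23) (by decide))
    (low_ne (by norm_num)) (by decide) (by decide) (by decide) (by decide)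
  have m6 : J6 ∈ JA6 := mem_nx2 m5 j6
  have g6 : ∀ a < 19, c6 a = ce5 e a := fun a ha => by rw [a6 a (bit19 b5' ha), g5 a ha]
  exact ⟨c6, J6, S6, F6, m6, g6⟩

/-- the elements excluded after the first stage -/
structure ExA (e : ℕ → ℕ → P) : Prop where
  n4 : ∀ z, lev z = 11 → (∀ y, z ⋖ y ↔ y = e 10 4) → False
  n45 : ∀ z z', lev z = 11 → lev z' = 11 → (∀ y, z ⋖ y ↔ (y = e 10 4 ∨ y = e 10 5)) →
    (∀ y, z' ⋖ y ↔ (y = e 10 4 ∨ y = e 10 5)) → z = z'
  nA : ∀ z y, lev z = 12 → (∀ v, z ⋖ v ↔ v = y) → lev y = 11 →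
    (∀ v, y ⋖ v ↔ (v = e 10 4 ∨ v = e 10 5)) → False

/-- the elements of the type `{4, 5}` -/
lemma ty45 {c : ℕ → P} {m : ℕ} (h17 : c 17 = e 10 4) (h18 : c 18 = e 10 5) (hm : m = 393216)
    {z : P} : Cvs c m z ↔ ∀ y, z ⋖ y ↔ (y = e 10 4 ∨ y = e 10 5) := by
  rw [hm, show (393216 : ℕ) = Nat.lor (2 ^ 17) (2 ^ 18) by decide, cvs_two, h17, h18]

/-- the code of the second stage -/
theorem La5_cxB (h : Win.GoodTo P r 10) (C : Cp.Comp 10 (t : P) lo hi e)
    (D : WordD 10 5 wa5 lo hi) (E : ExA e) : ∃ c J S, Fx (lowPart 10 (t : P)) 28 J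
      (fun a => Mbcv.getD a 0) (fun a => Mblv.getD a 0) c S MsB ∧ J ∈ JB6 ∧
      (∀ a < 19, c a = ce5 e a) := by
  classical
  have R := La5_r5 C D
  obtain ⟨k16, k17, k18⟩ := ce5_row e
  have F0 := La5_fx0 (cv := fun a => Mbcv.getD a 0) (lv := fun a => Mblv.getD a 0)
    (by decide +kernel) (by decide +kernel) (by decide +kernel) h C D
  obtain ⟨c1, J1, S1, a1, F1, j1⟩ := F0.step1 (k := 19) (m := 65536) (l := 11) (by norm_num)
    (by decide) (by decide +kernel) (by decide +kernel) (fun _ => R.card3 h C k16)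
    (low_ne (by norm_num)) (by decide) (by decide) (by decide)
  have m1 : J1 ∈ JB1 := mem_nx1 (by simp) j1
  obtain ⟨b1, b1'⟩ := JB1_b J1 m1
  have g1 : ∀ a < 19, c1 a = ce5 e a := fun a ha => a1 a (bit19 (by decide) ha)
  obtain ⟨c2, J2, S2, a2, F2, j2⟩ := F1.step1 (k := 20) (m := 196608) (l := 11) (by norm_num)
    b1 (by decide +kernel) (by decide +kernel)
    (fun _ => R.card34 h C (by rw [g1 16 (by norm_num), k16])
      (by rw [g1 17 (by norm_num), k17]))
    (low_ne (by norm_num)) (by decide) (by decide) (by decide)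
  have m2 : J2 ∈ JB2 := mem_nx1 m1 j2
  obtain ⟨b2, b2'⟩ := JB2_b J2 m2
  have g2 : ∀ a < 19, c2 a = ce5 e a := fun a ha => by rw [a2 a (bit19 b1' ha), g1 a ha]
  obtain ⟨c3, J3, S3, a3, F3, j3⟩ := F2.step1 (k := 21) (m := 393216) (l := 11) (by norm_num)
    b2 (by decide +kernel) (by decide +kernel)
    (fun _ => by
      rw [Finset.card_le_one]
      intro z hz z' hz'
      have h17 : c2 17 = e 10 4 := by rw [g2 17 (by norm_num), k17]
      have h18 : c2 18 = e 10 5 := by rw [g2 18 (by norm_num), k18]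
      exact E.n45 z z' (mem_tyS.mp hz).1 (mem_tyS.mp hz').1
        ((ty45 h17 h18 rfl).mp (mem_tyS.mp hz).2) ((ty45 h17 h18 rfl).mp (mem_tyS.mp hz').2))
    (low_ne (by norm_num)) (by decide) (by decide) (by decide)
  have m3 : J3 ∈ JB3 := mem_nx1 m2 j3
  obtain ⟨b3, b3'⟩ := JB3_b J3 m3
  have g3 : ∀ a < 19, c3 a = ce5 e a := fun a ha => by rw [a3 a (bit19 b2' ha), g2 a ha]
  obtain ⟨c4, J4, S4, a4, F4, j4⟩ := F3.step2 (k := 22) (k' := 23) (m := 2621440) (l := 12)
    (by norm_num) (by norm_num) (by norm_num) b3.1 b3.2 (by decide +kernel)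
    (by decide +kernel) (by decide +kernel) (by decide +kernel)
    (fun _ => tyS_card h.H (k := 19) (by decide))
    (low_ne (by norm_num)) (by decide) (by decide) (by decide) (by decide)
  have m4 : J4 ∈ JB4 := mem_nx2 m3 j4
  obtain ⟨b4, b4'⟩ := JB4_b J4 m4
  have g4 : ∀ a < 19, c4 a = ce5 e a := fun a ha => by rw [a4 a (bit19 b3' ha), g3 a ha]
  obtain ⟨c5, J5, S5, a5, F5, j5⟩ := F4.step2 (k := 24) (k' := 25) (m := 3145728) (l := 12)
    (by norm_num) (by norm_num) (by norm_num) b4.1 b4.2 (by decide +kernel)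
    (by decide +kernel) (by decide +kernel) (by decide +kernel)
    (fun _ => tyS_card h.H (k := 20) (by decide))
    (low_ne (by norm_num)) (by decide) (by decide) (by decide) (by decide)
  have m5 : J5 ∈ JB5 := mem_nx2 m4 j5
  obtain ⟨b5, b5'⟩ := JB5_b J5 m5
  have g5 : ∀ a < 19, c5 a = ce5 e a := fun a ha => by rw [a5 a (bit19 b4' ha), g4 a ha]
  obtain ⟨c6, J6, S6, a6, F6, j6⟩ := F5.step2 (k := 26) (k' := 27) (m := 524288) (l := 12)
    (by norm_num) (by norm_num) (by norm_num) b5.1 b5.2 (by decide +kernel)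
    (by decide +kernel) (by decide +kernel) (by decide +kernel)
    (fun _ => tyS_card h.H (k := 19) (by decide))
    (low_ne (by norm_num)) (by decide) (by decide) (by decide) (by decide)
  have m6 : J6 ∈ JB6 := mem_nx2 m5 j6
  have g6 : ∀ a < 19, c6 a = ce5 e a := fun a ha => by rw [a6 a (bit19 b5' ha), g5 a ha]
  exact ⟨c6, J6, S6, F6, m6, g6⟩

end Pool.Agent.GaussPoset.J10
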