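import Pool.Agent.W_448j10_h67.JbU

/-!
The components at the window 5, level 10: data of the strip `La5` (MP_448cb3_co).
-/

namespace Pool.Agent.GaussPoset.J10

set_option linter.unusedSectionVars false

open Polynomial Finset Dd Wd Cl J8 Sg

universe u

variable {P : Type u} [Fintype P] [PartialOrder P] [DecidableEq P] {r : ℕ}
variable {t : Tops P} {lo hi : ℕ → ℕ} {e : ℕ → ℕ → P}

/-- the cells are below the top -/
lemma Fx.le_t {T0 S : Finset P} {N J : ℕ} {cv lv : ℕ → ℕ} {c : ℕ → P} {Ms : List (ℕ × ℕ)}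
    (F : Fx T0 N J cv lv c S Ms) {n : ℕ}
    (h1 : ∀ a < N, a < n ∨ (cv a).testBit 16 = true ∨ (cv a).testBit 17 = true ∨
      (cv a).testBit 19 = true ∨ (cv a).testBit 20 = true ∨ (cv a).testBit 21 = true ∨
      (cv a).testBit 22 = true ∨ (cv a).testBit 23 = true) (hcv : ∀ a < N, cv a < 2 ^ a)
    (h0 : ∀ a < n, J.testBit a = true → c a ≤ (t : P)) :
    ∀ x ∈ S, x ≤ (t : P) := by
  have key : ∀ a, J.testBit a = true → c a ≤ (t : P) := by
    intro a
    induction a using Nat.strong_induction_on with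
    | _ a ih =>
      intro ha
      have haN := bit_lt F.cx.cod.lt ha
      have fin : ∀ b, (cv a).testBit b = true → c a ≤ (t : P) := by
        intro b hb
        obtain ⟨h2, h3⟩ := F.cx.cod.cv_lt hcv ha hb
        exact ((F.cx.cod.cov a ha (c b)).mpr ⟨b, h3, hb, rfl⟩).le.trans (ih b h2 h3)
      rcases h1 a haN with h | h | h | h | h | h | h | h
      · exact h0 a h ha
      all_goals exact fin _ h
  intro x hx
  obtain ⟨a, -, ha, rfl, -⟩ := F.cx.cell hx
  exact key a ha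

/-- the end of `La5` -/
lemma La5_prof (h : Win.GoodTo P r 10) (C : Cp.Comp 10 (t : P) lo hi e)
    (D : WordD 10 5 wa5 lo hi) : Pf (e 10 5) pQ :=
  nab_word10 D C h (by decide +kernel) (by decide +kernel) (by decide +kernel)

lemma R5.end5 (R : R5 lo hi) (C : Cp.Comp 10 (t : P) lo hi e) {x : P} (hx : x ≤ (t : P))
    (hl : lev x = 10) (hu : (Win.uc x).card = 1) : x = e 10 5 := by
  have g1 := R.l10
  have g2 := R.u10
  have g3 := R.l9
  have g4 := R.u9
  rcases R.cell C hx hl with h1 | h1 | h1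
  · rw [h1] at hu
    exact absurd hu (two_up C (by omega) (by omega) (by omega) (by omega))
  · rw [h1] at hu
    exact absurd hu (two_up C (by omega) (by omega) (by omega) (by omega))
  · exact h1

/-- no pendant below the single end -/
def No5 (e : ℕ → ℕ → P) : Prop := ∀ z, lev z = 11 → (∀ y, z ⋖ y ↔ y = e 10 5) → False

lemma MA_cells : ∀ a < 28, (Malv.getD a 0 = 11 → Macv.getD a 0 = 131072 → a = 20) ∧
    (Malv.getD a 0 = 11 → Macv.getD a 0 = 393216 → a = 22 ∨ a = 23) ∧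
    (Macv.getD a 0 = 4194304 → a = 24 ∨ a = 25) := by decide +kernel

lemma JA_25 : ∀ J ∈ JA6, wA J = 25 → J.testBit 20 = false ∧ J.testBit 23 = false ∧
    J.testBit 24 = false ∧ J.testBit 25 = false := by decide +kernel

lemma MA_up : ∀ a < 28, a < 19 ∨ (Macv.getD a 0).testBit 16 = true ∨
    (Macv.getD a 0).testBit 17 = true ∨ (Macv.getD a 0).testBit 19 = true ∨
    (Macv.getD a 0).testBit 20 = true ∨ (Macv.getD a 0).testBit 21 = true ∨
    (Macv.getD a 0).testBit 22 = true ∨ (Macv.getD a 0).testBit 23 = true := by decide +kernel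

lemma MB_up : ∀ a < 28, a < 19 ∨ (Mbcv.getD a 0).testBit 16 = true ∨
    (Mbcv.getD a 0).testBit 17 = true ∨ (Mbcv.getD a 0).testBit 19 = true ∨
    (Mbcv.getD a 0).testBit 20 = true ∨ (Mbcv.getD a 0).testBit 21 = true ∨
    (Mbcv.getD a 0).testBit 22 = true ∨ (Mbcv.getD a 0).testBit 23 = true := by decide +kernel

lemma ce5_le (h : Win.GoodTo P r 10) (C : Cp.Comp 10 (t : P) lo hi e)
    (D : WordD 10 5 wa5 lo hi) : ∀ a < 19, ce5 e a ≤ (t : P) := by
  obtain ⟨r1, r2⟩ := D.rows C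
  intro a ha
  have h3 := La5_strip.row a (by omega)
  have h4 := La5_lv10 a ha
  rw [← r1 _ h4, ← r2 _ h4] at h3
  exact C.le_t _ _ h4 h3.1 h3.2

/-- the first stage -/
theorem tdLa5A (h : Win.GoodTo P r 10) (C : Cp.Comp 10 (t : P) lo hi e)
    (D : WordD 10 5 wa5 lo hi) (n5 : No5 e) :
    ∃ w ρ S θ B, TD 25 t (hi 5 - lo 5 + 1) w ρ S θ B ∧ (w = 25 → ExA e) := by
  classical
  obtain ⟨c, J, S, F, hJ, hc⟩ := La5_cxA h C D
  have R := La5_r5 C D
  obtain ⟨k16, k17, k18⟩ := ce5_row e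
  obtain ⟨s1, s2⟩ := JA_sm J hJ
  obtain ⟨m1, m2, m3⟩ := JA_chk J hJ
  have m2 := Nat.le_of_ble_eq_true m2
  have m3 := Nat.le_of_ble_eq_true m3
  have hb : hi 5 - lo 5 + 1 = 2 := by rw [R.u5, R.l5]
  have hbit : ∀ a < 19, J.testBit a = true := fun a ha => bit19 s1 ha
  have h16 : c 16 = e 10 3 := by rw [hc 16 (by norm_num), k16]
  have h17 : c 17 = e 10 4 := by rw [hc 17 (by norm_num), k17]
  have h18 : c 18 = e 10 5 := by rw [hc 18 (by norm_num), k18]
  have hle := F.le_t (t := t) MA_up Ma_us.cv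
    (fun a ha _ => by rw [hc a ha]; exact ce5_le h C D a ha)
  have hSl : lowPart 10 (t : P) ⊆ S := fun z hz => (F.mem z).mpr (Or.inl hz)
  have hSm : ∀ m, Nat.land m 524287 = m → Sm m J := fun m hm =>
    Sm.trans (sm_iff.mp hm) (sm_iff.mp s1)
  have hmem : ∀ p ∈ MsA, Sm p.1 J → ∀ z, z ∈ tyS c p.1 p.2 → z ∈ S := fun p hp hs z hz =>
    (F.mem z).mpr (Or.inr ⟨p, hp, hs, hz⟩)
  have i3 : ∀ z, lev z = 11 → (∀ y, z ⋖ y ↔ y = e 10 3) → z ∈ S := by
    intro z hl hz
    refine hmem (65536, 11) (by decide) (hSm _ (by decide)) z (mem_tyS.mpr ⟨hl, ?_⟩)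
    show Cvs c (2 ^ 16) z
    rw [cvs_one, h16]
    exact hz
  have i4 : ∀ z, lev z = 11 → (∀ y, z ⋖ y ↔ y = e 10 4) → z ∈ tyS c 131072 11 := by
    intro z hl hz
    refine mem_tyS.mpr ⟨hl, ?_⟩
    show Cvs c (2 ^ 17) z
    rw [cvs_one, h17]
    exact hz
  have i34 : ∀ z, lev z = 11 → (∀ y, z ⋖ y ↔ (y = e 10 3 ∨ y = e 10 4)) → z ∈ S := by
    intro z hl hz
    refine hmem (196608, 11) (by decide) (hSm _ (by decide)) z (mem_tyS.mpr ⟨hl, ?_⟩)
    show Cvs c (Nat.lor (2 ^ 16) (2 ^ 17)) z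
    rw [cvs_two, h16, h17]
    exact hz
  have i45 : ∀ z, lev z = 11 → (∀ y, z ⋖ y ↔ (y = e 10 4 ∨ y = e 10 5)) →
      z ∈ tyS c 393216 11 := fun z hl hz => mem_tyS.mpr ⟨hl, (ty45 h17 h18 rfl).mpr hz⟩
  have i4' : ∀ z ∈ tyS c 131072 11, z ∈ S := fun z hz =>
    hmem (131072, 11) (by decide) (hSm _ (by decide)) z hz
  have i45' : ∀ z ∈ tyS c 393216 11, z ∈ S := fun z hz =>
    hmem (393216, 11) (by decide) (hSm _ (by decide)) z hz
  have hown : ∀ y, lev y = 11 → y ∉ S → ∃ v, y ⋖ v ∧ ¬ v ≤ (t : P) := by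
    intro y hl hy
    by_contra hcon
    push Not at hcon
    rcases R.ty h C hl hcon with h1 | h1 | h1 | h1 | h1
    · exact hy (i3 y hl h1)
    · exact hy (i4' y (i4 y hl h1))
    · exact n5 y hl h1
    · exact hy (i34 y hl h1)
    · exact hy (i45' y (i45 y hl h1))
  have hdeep := deepFx h F Ma_us.cv (thChk_um Ma_th) (JA_dp J hJ) hle hown
    (fun m hm => absurd hm (by simp))
  rw [hb]
  refine ⟨wA J, rA J, S, thM 28 J c (fun a => Math.getD a 0), fun x => x = c 18, ?_, ?_⟩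
  · refine tdCx (β := 5) F.cx Ma_us Ma_th (hbit 18 (by norm_num)) Ma_pol Ma_mst m1
      (sm_iff.mp s2) Ma_bm m2 m3 (JA_pol J hJ) ?_ hSl hle ?_ ?_ ?_
    · intro hlt
      left
      revert hlt
      unfold wA rA
      cases J.testBit 20 <;> cases J.testBit 23 <;> cases J.testBit 24 <;>
        cases J.testBit 25 <;> norm_num
    · intro z x hl hz ho _ _
      obtain ⟨v, hv, hvt⟩ := hown z hl hz
      exact absurd (ho v hv) hvt
    · exact fun z x hl hz hx hzx => Or.inl (hdeep z x hl hz hx hzx)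
    · intro x hx hl hu
      have h1 := R.end5 C hx hl hu
      rw [h1]
      refine En.q ?_ (La5_prof h C D)
      rw [← h18, thM_c F.cx.cod _ (hbit 18 (by norm_num))]
      rfl
  · intro hw
    obtain ⟨b20, b23, b24, b25⟩ := JA_25 J hJ hw
    have nb : ∀ {a : ℕ}, J.testBit a = true → J.testBit a = false → False := by
      intro a h1 h2
      rw [h1] at h2
      exact absurd h2 (by simp)
    have c45 : ∀ z, z ∈ tyS c 393216 11 → J.testBit 22 = true ∧ z = c 22 := by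
      intro z hz
      obtain ⟨a, a1, a2, rfl, a3, a4⟩ := F.cx.cell_ty (hSm 393216 (by decide)) (i45' z hz) hz
      rcases (MA_cells a a1).2.1 a3 a4 with rfl | rfl
      · exact ⟨a2, rfl⟩
      · exact (nb a2 b23).elim
    refine ⟨?_, ?_, ?_⟩
    · intro z hl hz
      have h1 := i4 z hl hz
      obtain ⟨a, a1, a2, a3, a4, a5⟩ := F.cx.cell_ty (hSm 131072 (by decide)) (i4' z h1) h1
      obtain rfl := (MA_cells a a1).1 a4 a5
      exact nb a2 b20
    · intro z z' hl hl' hz hz'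
      rw [(c45 z (i45 z hl hz)).2, (c45 z' (i45 z' hl' hz')).2]
    · intro z y hl hz hly hy
      obtain ⟨b22, rfl⟩ := c45 y (i45 y hly hy)
      have hs : Sm 4194304 J := by
        intro d hd
        by_cases h' : 22 = d
        · rw [← h']; exact b22
        · rw [show (4194304 : ℕ) = 2 ^ 22 by norm_num, Nat.testBit_two_pow_of_ne h'] at hd
          exact absurd hd (by simp)
      have h1 : z ∈ tyS c 4194304 12 := by
        refine mem_tyS.mpr ⟨hl, ?_⟩
        show Cvs c (2 ^ 22) z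
        rw [cvs_one]
        exact hz
      obtain ⟨a, a1, a2, a3, a4, a5⟩ := F.cx.cell_ty hs
        (hmem (4194304, 12) (by decide) hs z h1) h1
      rcases (MA_cells a a1).2.2 a5 with rfl | rfl
      · exact nb a2 b24
      · exact nb a2 b25

/-- the second stage -/
theorem tdLa5B (h : Win.GoodTo P r 10) (C : Cp.Comp 10 (t : P) lo hi e)
    (D : WordD 10 5 wa5 lo hi) (n5 : No5 e) (E : ExA e) :
    ∃ S θ B, TD 33 t (hi 5 - lo 5 + 1) 33 0 S θ B := by
  classical
  obtain ⟨c, J, S, F, hJ, hc⟩ := La5_cxB h C D E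
  have R := La5_r5 C D
  obtain ⟨k16, k17, k18⟩ := ce5_row e
  obtain ⟨s1, s2⟩ := JB_sm J hJ
  have m1 := JB_chk J hJ
  have hb : hi 5 - lo 5 + 1 = 2 := by rw [R.u5, R.l5]
  have hbit : ∀ a < 19, J.testBit a = true := fun a ha => bit19 s1 ha
  have h16 : c 16 = e 10 3 := by rw [hc 16 (by norm_num), k16]
  have h17 : c 17 = e 10 4 := by rw [hc 17 (by norm_num), k17]
  have h18 : c 18 = e 10 5 := by rw [hc 18 (by norm_num), k18]
  have hle := F.le_t (t := t) MB_up Mb_us.cv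
    (fun a ha _ => by rw [hc a ha]; exact ce5_le h C D a ha)
  have hSl : lowPart 10 (t : P) ⊆ S := fun z hz => (F.mem z).mpr (Or.inl hz)
  have hSm : ∀ m, Nat.land m 524287 = m → Sm m J := fun m hm =>
    Sm.trans (sm_iff.mp hm) (sm_iff.mp s1)
  have hmem : ∀ p ∈ MsB, Sm p.1 J → ∀ z, z ∈ tyS c p.1 p.2 → z ∈ S := fun p hp hs z hz =>
    (F.mem z).mpr (Or.inr ⟨p, hp, hs, hz⟩)
  have hown : ∀ y, lev y = 11 → y ∉ S → ∃ v, y ⋖ v ∧ ¬ v ≤ (t : P) := by
    intro y hl hy
    by_contra hcon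
    push Not at hcon
    rcases R.ty h C hl hcon with h1 | h1 | h1 | h1 | h1
    · refine hy (hmem (65536, 11) (by decide) (hSm _ (by decide)) y (mem_tyS.mpr ⟨hl, ?_⟩))
      show Cvs c (2 ^ 16) y
      rw [cvs_one, h16]
      exact h1
    · exact E.n4 y hl h1
    · exact n5 y hl h1
    · refine hy (hmem (196608, 11) (by decide) (hSm _ (by decide)) y (mem_tyS.mpr ⟨hl, ?_⟩))
      show Cvs c (Nat.lor (2 ^ 16) (2 ^ 17)) y
      rw [cvs_two, h16, h17]
      exact h1
    · exact hy (hmem (393216, 11) (by decide) (hSm _ (by decide)) y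
        (mem_tyS.mpr ⟨hl, (ty45 h17 h18 rfl).mpr h1⟩))
  have hdeep := deepFx h F Mb_us.cv (thChk_um Mb_th) (JB_dp J hJ) hle hown (by
    intro m hm z hl hz hs
    rw [List.mem_singleton] at hm
    subst hm
    have b21 : J.testBit 21 = true := hs 21 (by decide)
    have h1 : ∀ v, z ⋖ v ↔ v = c 21 := by
      have h2 : Cvs c (2 ^ 21) z := hz
      rwa [cvs_one] at h2
    refine E.nA z (c 21) hl h1 (F.cx.cod.lev 21 b21) ?_
    have h2 : Cvs c 393216 (c 21) := by
      intro y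
      rw [F.cx.cod.cov 21 b21 y]
      constructor
      · rintro ⟨b, -, g2, g3⟩
        exact ⟨b, g2, g3⟩
      · rintro ⟨b, g2, g3⟩
        exact ⟨b, hSm 393216 (by decide) b g2, g2, g3⟩
    exact (ty45 h17 h18 rfl).mp h2)
  rw [hb]
  refine ⟨S, thM 28 J c (fun a => Mbth.getD a 0), fun x => x = c 18, ?_⟩
  refine tdCx (β := 5) F.cx Mb_us Mb_th (hbit 18 (by norm_num)) Mb_pol Mb_mst m1
    (sm_iff.mp s2) Mb_bm (by norm_num) le_rfl (fun h => absurd h (by norm_num))
    (fun h => absurd h (by norm_num)) hSl hle ?_ ?_ ?_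
  · intro z x hl hz ho _ _
    obtain ⟨v, hv, hvt⟩ := hown z hl hz
    exact absurd (ho v hv) hvt
  · exact fun z x hl hz hx hzx => Or.inl (hdeep z x hl hz hx hzx)
  · intro x hx hl hu
    have h1 := R.end5 C hx hl hu
    rw [h1]
    refine En.q ?_ (La5_prof h C D)
    rw [← h18, thM_c F.cx.cod _ (hbit 18 (by norm_num))]
    rfl

end Pool.Agent.GaussPoset.J10
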