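import Pool.Agent.W_448dd_h67.DdK
import Pool.Agent.W_448j10_h67.JbV

/-!
The components at the window 5, level 10: all components (MP_448cb3_co).
-/

namespace Pool.Agent.GaussPoset.J10

set_option linter.unusedSectionVars false

open Polynomial Finset Dd Wd Cl J8 Sg

universe u

variable {P : Type u} [Fintype P] [PartialOrder P] [DecidableEq P] {r : ℕ}
variable {t : Tops P} {lo hi : ℕ → ℕ} {e : ℕ → ℕ → P}

lemma MA_msk0 : mskC MaL 524287 7 = true := by decide +kernel

lemma MA_own : ∀ p ∈ [(16, 16), (17, 17), (16, 17), (17, 18)], ∀ x ∈ [p.1, p.2],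
    Math.getD x 0 + 1 ≤ 6 ∧ 7 ≤ Math.getD x 0 + 1 + wsum (Math.getD x 0 + 1)
      (fun a => Malv.getD a 0) (Nat.land (Nat.lor (Maum.getD p.1 0) (Maum.getD p.2 0)) 524287)
      28 := by decide +kernel

/-- the strip `La5` without elements of the level 11 -/
theorem tdLa5Z (h : Win.GoodTo P r 10) (C : Cp.Comp 10 (t : P) lo hi e)
    (D : WordD 10 5 wa5 lo hi) :
    ∃ θ B, TD 7 t (hi 5 - lo 5 + 1) 7 0 (lowPart 10 (t : P)) θ B := by
  classical
  have R := La5_r5 C D
  obtain ⟨k16, k17, k18⟩ := ce5_row e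
  have F := La5_fx0 (cv := fun a => Macv.getD a 0) (lv := fun a => Malv.getD a 0)
    (by decide +kernel) (by decide +kernel) (by decide +kernel) h C D
  have hb : hi 5 - lo 5 + 1 = 2 := by rw [R.u5, R.l5]
  have hbit : ∀ a < 19, (524287 : ℕ).testBit a = true := fun a ha => bit19 (by decide) ha
  have hcost : ∀ a b, (a, b) ∈ [(16, 16), (17, 17), (16, 17), (17, 18)] →
      ∀ z, lev z = 11 → Cvs (ce5 e) (Nat.lor (2 ^ a) (2 ^ b)) z → ∀ x, z ⋖ x →
      7 ≤ ct 5 (thM 28 524287 (ce5 e) (fun a => Math.getD a 0) x + 1) z := by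
    intro a b hab z hl hz x hx
    have hlt : a < 19 ∧ b < 19 := by
      simp only [List.mem_cons, Prod.mk.injEq, List.not_mem_nil, or_false] at hab
      omega
    have hxx : ∃ d ∈ [a, b], x = ce5 e d := by
      rcases (cvs_two.mp hz x).mp hx with h1 | h1
      · exact ⟨a, by simp, h1⟩
      · exact ⟨b, by simp, h1⟩
    obtain ⟨d, hd, rfl⟩ := hxx
    have hd19 : d < 19 := by
      simp only [List.mem_cons, List.not_mem_nil, or_false] at hd
      rcases hd with rfl | rfl
      · exact hlt.1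
      · exact hlt.2
    rw [thM_c F.cx.cod _ (hbit d hd19)]
    obtain ⟨g1, g2⟩ := MA_own (a, b) hab d hd
    rw [F.cx.cod.ct_pair Ma_us.cv (thChk_um Ma_th) (hbit a hlt.1) (hbit b hlt.2) hz, hl,
      Nat.min_eq_left (by omega)]
    exact g2
  have e1 : Nat.lor (2 ^ 16) (2 ^ 16) = 2 ^ 16 := Nat.or_self _
  have e2 : Nat.lor (2 ^ 17) (2 ^ 17) = 2 ^ 17 := Nat.or_self _
  rw [hb]
  refine ⟨thM 28 524287 (ce5 e) (fun a => Math.getD a 0), fun x => x = ce5 e 18, ?_⟩
  refine tdCx (β := 5) F.cx Ma_us Ma_th (hbit 18 (by norm_num)) Ma_pol Ma_mst MA_msk0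
    (sm_iff.mp (by decide)) Ma_bm (by norm_num) le_rfl (fun h => absurd h (by norm_num))
    (fun h => absurd h (by norm_num)) (Finset.Subset.refl _)
    (fun x hx => (mem_lowPart.mp hx).1) ?_ ?_ ?_
  · intro z x hl hz ho hzx _
    have hfar : ∀ a b, (a, b) ∈ [(16, 16), (17, 17), (16, 17), (17, 18)] →
        Cvs (ce5 e) (Nat.lor (2 ^ a) (2 ^ b)) z →
        Ow 7 7 t 2 (thM 28 524287 (ce5 e) (fun a => Math.getD a 0)) z x := by
      intro a b hab hz
      refine Ow.far ?_
      have := hcost a b hab z hl hz x hzx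
      omega
    rcases R.ty h C hl ho with h1 | h1 | h1 | h1 | h1
    · refine hfar 16 16 (by decide) ?_
      rw [e1, cvs_one, k16]
      exact h1
    · refine hfar 17 17 (by decide) ?_
      rw [e2, cvs_one, k17]
      exact h1
    · obtain rfl := (h1 x).mp hzx
      refine Ow.pend (fun y hy => (h1 y).mp hy) (Or.inl ⟨?_, La5_prof h C D⟩)
      rw [← k18, thM_c F.cx.cod _ (hbit 18 (by norm_num))]
      rfl
    · refine hfar 16 17 (by decide) ?_
      rw [cvs_two, k16, k17]
      exact h1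
    · refine hfar 17 18 (by decide) ?_
      rw [cvs_two, k17, k18]
      exact h1
  · intro z x hl _ hx hzx
    have := (h.H.covBy_iff.mp hzx).2
    have := (mem_lowPart.mp hx).2
    omega
  · intro x hx hl hu
    have h1 := R.end5 C hx hl hu
    rw [h1]
    refine En.q ?_ (La5_prof h C D)
    rw [← k18, thM_c F.cx.cod _ (hbit 18 (by norm_num))]
    rfl

/-! ### all components -/

/-- the data of a component together with the special cases -/
def TDx (K : ℕ) (t : Tops P) (lo hi : ℕ → ℕ) (e : ℕ → ℕ → P) : Prop :=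
  ∃ (w : ℕ) (ρ : ℤ) (S : Finset P) (θ : P → ℕ) (B : P → Prop),
    TD K t (hi 5 - lo 5 + 1) w ρ S θ B ∧
    (WordD 10 5 wa5 lo hi → (K = 25 → w = 25 → ExA e) ∧ (K = 7 → S = lowPart 10 (t : P))) ∧
    (StairShape 10 lo hi → lo 10 = 0 → ∀ z, z ⋖ e 10 5 → z ⋖ e 10 0 →
      z ∉ S ∧ IsC t (hi 5 - lo 5 + 1) θ z)

lemma TDx.of33 {K : ℕ} (hK : 1 ≤ K) (hK' : K ≤ 33) (hL : ¬ WordD 10 5 wa5 lo hi)
    (hS : ¬ StairShape 10 lo hi)
    (T : ∃ w ρ S θ B, TD 33 t (hi 5 - lo 5 + 1) w ρ S θ B) : TDx K t lo hi e := by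
  obtain ⟨w, ρ, S, θ, B, T⟩ := T
  exact ⟨_, ρ, S, θ, B, T.mono hK' hK, fun h => absurd h hL, fun h => absurd h hS⟩

/-- **the data of a component.** -/
theorem exists_td {K : ℕ} (hK : 1 ≤ K) (hK' : K ≤ 33) (h : Win.GoodTo P r 10)
    (C : Cp.Comp 10 (t : P) lo hi e) (S : Wd.Shape 10 lo hi) (hd : ¬ WordD 10 4 w4d lo hi)
    (hL : WordD 10 5 wa5 lo hi → ∃ w ρ S θ B, TD K t (hi 5 - lo 5 + 1) w ρ S θ B ∧
      (K = 25 → w = 25 → ExA e) ∧ (K = 7 → S = lowPart 10 (t : P))) : TDx K t lo hi e := by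
  have hnL : ∀ k, k < 5 → lo k < hi k → ¬ WordD 10 5 wa5 lo hi := by
    intro k hk hlt D
    have := D.trunk k hk
    omega
  rcases S with h1 | ⟨h1, h2⟩ | ⟨h0, h2⟩ | ⟨h0, h1, h2⟩ | ⟨h0, h1⟩ | ⟨a, h0, h1, h2, h3, hN, h4⟩
  · -- light
    have e5 := h1 5 (by norm_num)
    have hb : hi 5 - lo 5 + 1 = 1 := by omega
    refine TDx.of33 hK hK' ?_ ?_ ?_
    · intro D
      have := (La5_r5 C D).u10
      have := (La5_r5 C D).l10
      have := h1 10 le_rfl
      omega
    · intro S
      have := S.hi 10 le_rfl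
      have := h1 10 le_rfl
      omega
    · rw [hb]
      exact ⟨_, _, _, _, _, tdLight h C (fun k hk => by
        have := h1 k (by omega)
        omega)⟩
  · -- rectangle
    obtain ⟨S, θ, B, T⟩ := tdRect h C h1 h2
    refine TDx.of33 hK hK' (hnL 1 (by norm_num) (by omega)) ?_ ⟨_, _, _, _, _, T⟩
    intro S
    have := S.hi 1 (by norm_num)
    omega
  · -- stair
    obtain ⟨S', θ, B, T, hx⟩ := tdStair h C h2
    refine ⟨_, 0, S', θ, B, T.mono hK' hK, fun D => ?_, fun _ => hx⟩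
    have e1 := h2.hi 2 (by norm_num)
    have e2 := D.trunk 2 (by norm_num)
    omega
  · omega
  · omega
  · -- late
    have hns : ¬ StairShape 10 lo hi := by
      intro S
      have e1 := S.hi 2 (by norm_num)
      have e2 := h2 2 (by omega)
      omega
    have D : LateD 10 a lo hi := ⟨h0, h1, h2, h3, h4⟩
    rcases Nat.lt_or_ge a 6 with ha | ha
    · obtain rfl | rfl | rfl : a = 3 ∨ a = 4 ∨ a = 5 := by omega
      · obtain ⟨W, -⟩ := wordD_three D (by norm_num)
        obtain ⟨S, θ, B, T⟩ := tdE6 h C W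
        exact TDx.of33 hK hK' (hnL 3 (by norm_num) (by omega)) hns ⟨_, _, _, _, _, T⟩
      · rcases late_four D with W | W
        · exact TDx.of33 hK hK' (hnL 4 (by norm_num) (by omega)) hns (tdE7 h C W)
        · exact absurd W hd
      · rcases h4 with ⟨⟨g1, g2⟩, g3⟩ | g3
        · have hq := D.quad C g3
          have Q : QRows 10 5 lo hi := ⟨h2, h3, by
            intro k hk hk2
            have := hq (k - 5) (by omega) (by omega)
            rwa [show 5 + (k - 5) = k by omega] at this⟩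
          refine TDx.of33 hK hK' ?_ hns ⟨_, _, _, _, _, tdQuad h C Q⟩
          intro D'
          have e1 := (La5_r5 C D').u10
          have e2 := (La5_r5 C D').l10
          have e3 := Q.aft 10 (by norm_num) le_rfl
          omega
        · have W : WordD 10 5 wa5 lo hi :=
            ⟨D.h2, D.h3, late5_five _ g3 (by rw [word_length])⟩
          obtain ⟨w, ρ, S, θ, B, T, hE⟩ := hL W
          exact ⟨w, ρ, S, θ, B, T, fun _ => hE, fun h => absurd h hns⟩
    · have e5 := h2 5 (by omega)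
      have hb : hi 5 - lo 5 + 1 = 1 := by omega
      refine TDx.of33 hK hK' ?_ hns ?_
      · intro D'
        have := (La5_r5 C D').u5
        omega
      · rw [hb]
        exact ⟨_, _, _, _, _, tdLight h C (fun k hk => by
          have := h2 k (by omega)
          omega)⟩

end Pool.Agent.GaussPoset.J10
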