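import Pool.Agent.W_448j10_h67.JbW
import Pool.Agent.W_448j8_h67.JaP

/-!
Level 10, window 5: the context (MP_448cb3_co).
-/

namespace Pool.Agent.GaussPoset.J10

set_option linter.unusedSectionVars false

open Polynomial Finset Dd Wd Cl J8

universe u

variable {P : Type u} [Fintype P] [PartialOrder P] [DecidableEq P] {r : ℕ}

/-- the context at level 10 -/
structure C10 (P : Type u) [Fintype P] [PartialOrder P] [DecidableEq P] (r : ℕ)
    (lo hi : Tops P → ℕ → ℕ) (e : Tops P → ℕ → ℕ → P) (Kc : ℕ) (w : Tops P → ℕ)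
    (ρ : Tops P → ℤ) (S : Tops P → Finset P) (θ : Tops P → P → ℕ) (B : Tops P → P → Prop) :
    Prop where
  K : Sm.Ctx P r 10 lo hi e
  td : ∀ t, TD Kc t (hi t 5 - lo t 5 + 1) (w t) (ρ t) (S t) (θ t) (B t)

/-- the thresholds -/
noncomputable def th10 (θ : Tops P → P → ℕ) (x : P) : ℕ := θ (topOf x) x

/-- the base elements -/
def B10 (S : Tops P → Finset P) (B : Tops P → P → Prop) (x : P) : Prop :=
  x ∉ unnat S ∧ B (topOf x) x

/-- the orders -/
def b10 (lo hi : Tops P → ℕ → ℕ) (t : Tops P) : ℕ := hi t 5 - lo t 5 + 1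

/-- the labels -/
noncomputable def h10 (S : Tops P → Finset P) (θ : Tops P → P → ℕ) : P → ℕ :=
  hcan (unnat S) (th10 θ)

section

variable {lo hi : Tops P → ℕ → ℕ} {e : Tops P → ℕ → ℕ → P} {Kc : ℕ} {w : Tops P → ℕ}
  {ρ : Tops P → ℤ} {S : Tops P → Finset P} {θ : Tops P → P → ℕ} {B : Tops P → P → Prop}

lemma C10.sys (W : C10 P r lo hi e Kc w ρ S θ B) : NatSys S where
  up := fun t x hx y hxy => (W.td t).up x hx y hxy
  le_t := fun t x hx => (W.td t).le_t x hx

lemma C10.lev11 (W : C10 P r lo hi e Kc w ρ S θ B) {x : P} (hx : x ∈ unnat S) : 10 < lev x := by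
  by_contra hcon
  exact mem_unnat.mp hx (topOf x) ((W.td _).low (mem_lowPart.mpr ⟨le_topOf x, by omega⟩))

lemma C10.nat10 (W : C10 P r lo hi e Kc w ρ S θ B) {x : P} (hx : lev x ≤ 10) : x ∉ unnat S :=
  fun h => by
    have := W.lev11 h
    omega

/-- the data of the components -/
lemma C10.data (W : C10 P r lo hi e Kc w ρ S θ B) (t : Tops P) :
    CompDataL (unnat S) topOf t 5 (b10 lo hi t) (w t) (th10 θ) (B10 S B) := by
  have HN := W.sys
  refine (W.td t).data S HN (fun s => (W.td s).low) rfl _ _ ?_ ?_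
  · intro x hx
    unfold th10
    rw [HN.topOf_eq hx]
  · intro x hx
    unfold B10
    rw [HN.topOf_eq hx]
    exact and_iff_right (HN.mem_iff.mp hx).1

/-- **The ladder data.** -/
lemma C10.lad (W : C10 P r lo hi e Kc w ρ S θ B) {n : ℕ} (hn : ∀ t, n ≤ w t) :
    Lad 5 n (unnat S) (b10 lo hi) (th10 θ) (B10 S B) where
  gr := W.K.gt.H.gradedBelow
  low := W.sys.lower
  lev := fun x hx => by
    have := W.lev11 hx
    omega
  cp := W.sys.cp
  base := fun x hx h => h.1 hx
  data := fun t => CompDataL.of_le (W.data t) (hn t)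

lemma C10.sum_b (W : C10 P r lo hi e Kc w ρ S θ B) : ∑ t, b10 lo hi t = (lv P 5).card :=
  (card_level W.K.gt.H W.K.gt.good W.K.comp (i := 5) (by norm_num)).symm

lemma C10.top_of (W : C10 P r lo hi e Kc w ρ S θ B) {t : Tops P} {x : P} (hx : x ≤ (t : P))
    (hl : lev x ≤ 10) : topOf x = t :=
  W.sys.topOf_eq ((W.td t).low (mem_lowPart.mpr ⟨hx, hl⟩))

/-- the label is at most one more than the threshold of each cover -/
lemma C10.h_le (W : C10 P r lo hi e Kc w ρ S θ B) {t : Tops P} {z x : P} (hzx : z ⋖ x)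
    (hx : x ≤ (t : P)) (hl : lev x ≤ 10) : h10 S θ z ≤ θ t x + 1 := by
  have h1 := hcan_le (θ := th10 θ) (W.nat10 hl) hzx
  unfold th10 at h1
  rw [W.top_of hx hl] at h1
  exact h1

lemma C10.one_le (W : C10 P r lo hi e Kc w ρ S θ B) {z : P} (hz : z ∈ bdR (unnat S)) :
    1 ≤ h10 S θ z := by
  obtain ⟨x, -, -, hx⟩ := hcan_spec (θ := th10 θ) hz
  have : h10 S θ z = th10 θ x + 1 := hx
  omega

/-- the straight end has a large threshold -/
lemma IsC.two (W : C10 P r lo hi e Kc w ρ S θ B) {t : Tops P} {z : P}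
    (hz : z ∈ bdR (unnat S)) (hx : IsC t (b10 lo hi t) (θ t) z) : h10 S θ z = 2 := by
  classical
  obtain ⟨Nc, co, F, E, C, hb, hF⟩ := hx
  have H := W.K.gt.H
  have hlz := C.lev_z H.gradedBelow
  obtain ⟨x, hx, hzx, hh⟩ := hcan_spec (θ := th10 θ) hz
  have hh' : h10 S θ z = θ (topOf x) x + 1 := hh
  have hEt := C.chart.le_t E C.S_mem
  rcases C.only x hzx with h1 | h1
  · rw [h1, W.top_of (C.chart.le_t F C.F_mem) C.lev_F.le, hF] at hh'
    exact hh'
  · exfalso
    have hle := W.h_le C.zF (C.chart.le_t F C.F_mem) C.lev_F.le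
    rw [h1, W.top_of hEt C.lev_S.le] at hh'
    have hu : (Win.uc E).card = 1 := by
      rw [uc_card_nab H (by rw [C.lev_S]; norm_num), C.lev_S]
      exact C.nab_S (by norm_num)
    have n5 := C.nab_S (l := 5) (by norm_num)
    rcases (W.td t).ends E hEt C.lev_S hu with h2 | ⟨-, h3⟩ | ⟨-, h3⟩ | ⟨-, h3⟩ | ⟨-, h3⟩
    · omega
    all_goals
      have h4 := h3 5 (by norm_num)
      rw [n5] at h4
      revert h4
      decide

end

end Pool.Agent.GaussPoset.J10
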