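import Pool.Agent.W_448j10_h67.JbX

/-!
Level 10, window 5: the boundary elements (MP_448cb3_co).
-/

namespace Pool.Agent.GaussPoset.J10

set_option linter.unusedSectionVars false

open Polynomial Finset Dd Wd Cl J8

universe u

variable {P : Type u} [Fintype P] [PartialOrder P] [DecidableEq P] {r : ℕ}

/-- a pendant of the level 11 below an end with the profile `p` -/
structure Pn (p : List ℕ) (z x : P) : Prop where
  cov : z ⋖ x
  only : ∀ y, z ⋖ y → y = x
  lev : GaussPoset.lev z = 11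
  levx : GaussPoset.lev x = 10
  pf : Pf x p

/-- the boundary elements -/
inductive Kd (Kc : ℕ) (lo hi : Tops P → ℕ → ℕ) (w : Tops P → ℕ) (θ : Tops P → P → ℕ)
    (h : P → ℕ) (z : P) : Prop
  | far (t : Tops P) (hc : min Kc (w t + 1) ≤ cst 5 h z)
  | q (x : P) (hp : Pn pQ z x) (hh : h z = 1)
  | f (x : P) (hp : Pn pF z x) (hh : h z = 2)
  | e6 (x : P) (hp : Pn pE6 z x) (hh : h z = 3)
  | c7 (x : P) (hc : Cp7 (θ (topOf x)) z x) (hzx : z ⋖ x) (hh : h z = 4)
  | cx (t : Tops P) (hx : IsC t (b10 lo hi t) (θ t) z) (hh : h z = 2)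
  | jn (x y : P) (hcg : Sm.Cg z x y) (hl : lev z = 11) (hh : h z = th10 θ x + 1)
      (hm : th10 θ x ≤ th10 θ y)

section

variable {lo hi : Tops P → ℕ → ℕ} {e : Tops P → ℕ → ℕ → P} {Kc : ℕ} {w : Tops P → ℕ}
  {ρ : Tops P → ℤ} {S : Tops P → Finset P} {θ : Tops P → P → ℕ} {B : Tops P → P → Prop}

/-- **The kinds of the boundary elements.** -/
theorem C10.kind (W : C10 P r lo hi e Kc w ρ S θ B) {z : P} (hz : z ∈ bdR (unnat S)) :
    Kd Kc lo hi w θ (h10 S θ) z := by
  classical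
  have H := W.K.gt.H
  have HN := W.sys
  obtain ⟨x, hx, hzx, hh⟩ := hcan_spec (θ := th10 θ) hz
  have hh' : h10 S θ z = θ (topOf x) x + 1 := hh
  have hzR := (mem_filter.mp hz).1
  have hz11 := W.lev11 hzR
  have hzl := (H.covBy_iff.mp hzx).2
  have hzS : z ∉ S (topOf x) := mem_unnat.mp hzR (topOf x)
  have hxS : x ∈ S (topOf x) := HN.mem_iff.mpr ⟨hx, rfl⟩
  have hct : ct 5 (θ (topOf x) x + 1) z = cst 5 (h10 S θ) z := (cst_ct hh').symm
  rcases Nat.lt_or_ge 11 (lev z) with hl | hl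
  · rcases (W.td (topOf x)).deep z x (by omega) hzS hxS hzx with h1 | h1
    · rw [hct] at h1
      exact Kd.far _ h1
    · exact Kd.c7 x h1 hzx (by rw [hh', h1.2.2.1])
  · have hlz : lev z = 11 := by omega
    have hlx : lev x = 10 := by omega
    have hly : ∀ y, z ⋖ y → lev y = 10 := fun y hy => by
      have := (H.covBy_iff.mp hy).2
      omega
    by_cases ho : ∀ y, z ⋖ y → y ≤ (topOf x : P)
    · have hmin : ∀ y, z ⋖ y → θ (topOf x) x ≤ θ (topOf x) y := by
        intro y hy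
        have h1 := W.h_le hy (ho y hy) (hly y hy).le
        omega
      rcases (W.td (topOf x)).own z x hlz hzS ho hzx hmin with h1 | ⟨h1, h2⟩ | h1
      · rw [hct] at h1
        exact Kd.far _ h1
      · rcases h2 with ⟨h3, h4⟩ | ⟨h3, h4⟩ | ⟨h3, h4⟩
        · exact Kd.q x ⟨hzx, h1, hlz, hlx, h4⟩ (by omega)
        · exact Kd.f x ⟨hzx, h1, hlz, hlx, h4⟩ (by omega)
        · exact Kd.e6 x ⟨hzx, h1, hlz, hlx, h4⟩ (by omega)
      · exact Kd.cx _ h1 (IsC.two W hz h1)
    · push Not at ho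
      obtain ⟨y, hy, hyt⟩ := ho
      have hne : topOf x ≠ topOf y := by
        intro h
        rw [h] at hyt
        exact hyt (le_topOf y)
      have hon : ∀ v : P, lev v = 10 → v ∈ onlyB (topOf v) := fun v hv =>
        only_low W.K.gt v (le_topOf v) hv.le
      have h1 := W.h_le hy (le_topOf y) (hly y hy).le
      refine Kd.jn x y (Sm.Cg.mk' hzx hy (hon x hlx) (hon y (hly y hy)) hne) hlz hh' ?_
      unfold th10
      omega

/-! ### costs and leading terms -/

/-- the numbers above a pendant -/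
lemma Pn.nab {p : List ℕ} {z x : P} (h : Pn p z x) {k : ℕ} (hk : k < 10) :
    nab k z = p.getD k 0 := by
  rw [nab_one_cov h.only h.cov (by rw [h.lev]; omega)]
  exact h.pf k hk

lemma Pn.nab10 {p : List ℕ} {z x : P} (h : Pn p z x) : GaussPoset.nab 10 z = 1 := by
  rw [nab_one_cov h.only h.cov (by rw [h.lev]; omega)]
  have := nab_self (z := x)
  rwa [h.levx] at this

/-- the cost of an element of the level 11 -/
lemma cst11 {h : P → ℕ} {z : P} (hl : lev z = 11) :
    cst 5 h z = min (h z) 1 * nab 6 z + min (h z) 2 * nab 7 z + min (h z) 3 * nab 8 z +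
      min (h z) 4 * nab 9 z + min (h z) 5 * nab 10 z + min (h z) 6 := by
  have h11 : nab 11 z = 1 := by
    have := nab_self (z := z)
    rwa [hl] at this
  rw [cst_eq, hl]
  simp only [Finset.sum_range_succ, Finset.sum_range_zero, h11]
  norm_num

lemma Pn.q_cost {z x : P} {h : P → ℕ} (hp : Pn pQ z x) (hh : h z = 1) : cst 5 h z = 6 := by
  rw [cst11 hp.lev, hh, hp.nab10, hp.nab (k := 6) (by norm_num), hp.nab (k := 7) (by norm_num),
    hp.nab (k := 8) (by norm_num), hp.nab (k := 9) (by norm_num)]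
  rfl

lemma Pn.f_cost {z x : P} {h : P → ℕ} (hp : Pn pF z x) (hh : h z = 2) : cst 5 h z = 17 := by
  rw [cst11 hp.lev, hh, hp.nab10, hp.nab (k := 6) (by norm_num), hp.nab (k := 7) (by norm_num),
    hp.nab (k := 8) (by norm_num), hp.nab (k := 9) (by norm_num)]
  rfl

lemma Pn.e6_cost {z x : P} {h : P → ℕ} (hp : Pn pE6 z x) (hh : h z = 3) : cst 5 h z = 18 := by
  rw [cst11 hp.lev, hh, hp.nab10, hp.nab (k := 6) (by norm_num), hp.nab (k := 7) (by norm_num),
    hp.nab (k := 8) (by norm_num), hp.nab (k := 9) (by norm_num)]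
  rfl

/-- the numbers above a pendant of a pendant of `E7` -/
lemma Cp7.nab {θ : P → ℕ} {z x : P} (h : Cp7 θ z x) (hzx : z ⋖ x) {k : ℕ} (hk : k < 10) :
    nab k z = pE7.getD k 0 := by
  rw [nab_one_cov h.2.1 hzx (by rw [h.1]; omega)]
  exact h.2.2.2.1 k hk

lemma Cp7.cost (H : Gr P r) {θ : P → ℕ} {z x : P} {h : P → ℕ} (hc : Cp7 θ z x) (hzx : z ⋖ x)
    (hh : h z = 4) : cst 5 h z = 28 := by
  have h12 : GaussPoset.nab 12 z = 1 := by
    have := nab_self (z := z)
    rwa [hc.1] at this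
  have hlx : lev x = 11 := by
    have h1 := (H.covBy_iff.mp hzx).2
    have h2 := hc.1
    omega
  have h11 : GaussPoset.nab 11 z = 1 := by
    rw [nab_one_cov hc.2.1 hzx (by rw [hc.1]; omega)]
    have := nab_self (z := x)
    rwa [hlx] at this
  have h10 : GaussPoset.nab 10 z = 1 := by
    rw [nab_one_cov hc.2.1 hzx (by rw [hc.1]; omega)]
    exact hc.2.2.2.2
  rw [cst_eq, hc.1]
  simp only [Finset.sum_range_succ, Finset.sum_range_zero, h12, h11, h10, hh]
  rw [hc.nab hzx (k := 6) (by norm_num), hc.nab hzx (k := 7) (by norm_num),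
    hc.nab hzx (k := 8) (by norm_num), hc.nab hzx (k := 9) (by norm_num)]
  norm_num [pE7]

/-- the leading term -/
lemma lt_lv {h : P → ℕ} {z : P} {s a b : ℕ} (hs : nst 5 h z = s) (ha : nab 5 z = a + 1)
    (hb : nab (5 + h z) z = a) (hB : b = s % 2) :
    Lv (lv P 5).card (Lt 5 h z) ((-1) ^ b * (-1) ^ below P 5) := by
  have hB' : nab 5 z ≤ (lv P 5).card := nab_le z 5
  unfold Lt
  rw [hs, ha, hb]
  have e1 : (lv P 5).card + a - (a + 1) = (lv P 5).card - 1 := by omega
  have h1 := Lv.mono (lv P 5).card (below P 5 + s)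
  have e2 : (-1 : ℤ) ^ (below P 5 + s) = (-1) ^ b * (-1) ^ below P 5 := by
    rw [pow_add, mul_comm]
    congr 1
    rw [hB, ← Nat.mod_add_div s 2]
    rw [pow_add, pow_mul]
    simp
  rw [e2] at h1
  rw [e1]
  exact h1

end

end Pool.Agent.GaussPoset.J10
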