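import Pool.Agent.W_448j10_h67.JbY

/-!
Level 10, window 5: (C) elements and other boundary elements (MP_448cb3_co).
-/

namespace Pool.Agent.GaussPoset.J10

set_option linter.unusedSectionVars false

open Polynomial Finset Dd Wd Cl J8

universe u

variable {P : Type u} [Fintype P] [PartialOrder P] [DecidableEq P] {r : ℕ}

/-- no boundary element which is a pendant with this profile -/
def NoPn (S : Tops P → Finset P) (p : List ℕ) : Prop :=
  ∀ z ∈ bdR (unnat S), ∀ x : P, ¬ Pn p z x

/-- the single elements of the level 10 of a stair -/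
lemma cel_ends2 {t : Tops P} {Nc : Finset P} {co : P → ℕ × ℕ} {z F E : P}
    (C : CEl t Nc co 5 z F E) {x : P} (hx : x ≤ (t : P)) (hl : lev x = 10) (h9 : nab 9 x = 1) :
    x = F ∨ x = E := by
  classical
  have hxN : x ∈ Nc := C.strip (mem_lowPart.mpr ⟨hx, by omega⟩)
  have h1 := C.chart.lev x hxN
  have h2 : (co x).1 ≤ (co x).2 := C.chart.mem x hxN
  rcases Nat.eq_zero_or_pos (co x).1 with h3 | h3
  · right
    refine C.chart.inj x hxN E C.S_mem ?_
    rw [C.co_S]
    exact Prod.ext h3 (by simp only; omega)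
  · rcases Nat.lt_or_ge (co x).1 (co x).2 with h4 | h4
    · exfalso
      obtain ⟨y1, hy1, hc1⟩ := C.chart.low x hxN ((co x).1 - 1, (co x).2)
        ⟨by simp only; omega, le_rfl⟩ (by simp only; omega)
      obtain ⟨y2, hy2, hc2⟩ := C.chart.low x hxN ((co x).1, (co x).2 - 1)
        ⟨le_rfl, by simp only; omega⟩ (by simp only; omega)
      have l1 := C.chart.lev y1 hy1
      have l2 := C.chart.lev y2 hy2
      rw [hc1] at l1
      rw [hc2] at l2
      simp only at l1 l2
      have a1 : x ≤ y1 := (C.chart.le_iff x hxN y1 hy1).mpr (by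
        rw [hc1]
        exact ⟨by simp only; omega, le_rfl⟩)
      have a2 : x ≤ y2 := (C.chart.le_iff x hxN y2 hy2).mpr (by
        rw [hc2]
        exact ⟨le_rfl, by simp only; omega⟩)
      have := two_le_nab (l := 9) a1 a2 (by omega) (by omega) (fun h => by
        rw [h] at hc1
        have h5 := congrArg Prod.fst (hc1.symm.trans hc2)
        simp only at h5
        omega)
      omega
    · left
      refine C.chart.inj x hxN F C.F_mem ?_
      rw [C.co_F]
      exact Prod.ext (by simp only; omega) (by simp only; omega)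

/-- two (C) elements of one stair have the same covers -/
lemma cel_same {t : Tops P} {Nc Nc' : Finset P} {co co' : P → ℕ × ℕ} {z F E z' F' E' : P}
    (C : CEl t Nc co 5 z F E) (C' : CEl t Nc' co' 5 z' F' E') : F' = F ∧ E' = E := by
  have f9 : nab 9 F' = 1 := C'.nab_F (u := 4) (by norm_num)
  have e9 : nab 9 E' = 1 := C'.nab_S (by norm_num)
  have f5 : nab 5 F' = 3 := C'.nab_F (u := 0) (by norm_num)
  have e5 : nab 5 E' = 1 := C'.nab_S (by norm_num)
  have g5 : nab 5 F = 3 := C.nab_F (u := 0) (by norm_num)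
  have k5 : nab 5 E = 1 := C.nab_S (by norm_num)
  constructor
  · rcases cel_ends2 C (C'.chart.le_t F' C'.F_mem) C'.lev_F f9 with h | h
    · exact h
    · rw [h] at f5
      omega
  · rcases cel_ends2 C (C'.chart.le_t E' C'.S_mem) C'.lev_S e9 with h | h
    · rw [h] at e5
      omega
    · exact h

section

variable {lo hi : Tops P → ℕ → ℕ} {e : Tops P → ℕ → ℕ → P} {Kc : ℕ} {w : Tops P → ℕ}
  {ρ : Tops P → ℤ} {S : Tops P → Finset P} {θ : Tops P → P → ℕ} {B : Tops P → P → Prop}

/-- the cost of a (C) element -/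
lemma cx_cost (hgr : GradedBelow P) {t : Tops P} {b : ℕ} {θ : P → ℕ} {h : P → ℕ} {z : P}
    (h0 : h z = 2) (hx : IsC t b θ z) : cst 5 h z = 26 := by
  obtain ⟨Nc, co, F, S, C, -⟩ := hx
  have h1 := C.cst_eq hgr (by norm_num)
  have h2 : hh 5 = 2 := rfl
  rw [h2] at h1
  rw [cst_ct h0]
  have h3 : E0 5 = 26 := by decide +kernel
  rw [← h3]
  exact h1

/-- the elements of a family of (C) elements -/
lemma C10.fam_cx (W : C10 P r lo hi e Kc w ρ S θ B) {z y : P} {t : Tops P}
    (hx : IsC t (b10 lo hi t) (θ t) z) (hy : y ∈ J8.fam (unnat S) z) :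
    h10 S θ y = 2 ∧ IsC t (b10 lo hi t) (θ t) y := by
  obtain ⟨Nc, co, F, E, C, hb, hF⟩ := hx
  obtain ⟨hyR, hup⟩ := J8.mem_fam.mp hy
  have hyF := (cov_of_up hup).mp C.zF
  have hyS := (cov_of_up hup).mp C.zS
  have C' : CEl t Nc co 5 y F E := ⟨C.chart, C.strip, C.F_mem, C.S_mem, C.co_F, C.co_S, hyF,
    hyS, fun w hw => C.only w ((cov_of_up hup).mpr hw)⟩
  have h1 : IsC t (b10 lo hi t) (θ t) y := ⟨Nc, co, F, E, C', hb, hF⟩
  exact ⟨IsC.two W hyR h1, h1⟩

/-- the elements above an element of another component -/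
lemma other_sum (hgr : GradedBelow P) {h : P → ℕ} {z' v : P} (hv : lev v = 10) (hzv : z' < v)
    (h1 : 1 ≤ h z') : 5 ≤ ∑ x, (by classical exact if v ≤ x then ez 5 h z' x else 0) := by
  classical
  have h2 : ct 5 1 v ≤ ∑ x, if v ≤ x then ez 5 h z' x else 0 := by
    rw [ct_eq_sum]
    refine Finset.sum_le_sum fun x _ => ?_
    by_cases h3 : v ≤ x
    · rw [if_pos h3, if_pos h3]
      unfold ez
      rw [if_pos (hzv.le.trans h3)]
      omega
    · rw [if_neg h3]
      exact Nat.zero_le _
  have h3 := cst_ge (i := 5) (h := fun _ => 1) (z := v) (fun _ => 1)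
    (fun k _ hk => one_le_nab hk)
  rw [hv] at h3
  simp only [Finset.sum_range_succ, Finset.sum_range_zero, mul_one] at h3
  have h4 : ct 5 1 v = cst 5 (fun _ => 1) v := rfl
  omega

/-- a (C) element and another boundary element -/
lemma C10.pair (W : C10 P r lo hi e Kc w ρ S θ B) {n : ℕ} (hn : n ≤ 31) (hK : n < Kc)
    (hw : ∀ t, n ≤ w t) (hno : 26 ≤ n → NoPn S pQ ∧ NoPn S pF ∧ NoPn S pE6) {z z' : P}
    {t : Tops P} (hz : h10 S θ z = 2)
    (hx : IsC t (b10 lo hi t) (θ t) z) (hz' : z' ∈ bdR (unnat S))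
    (hne : z' ∉ J8.fam (unnat S) z) :
    n < ∑ x, max (ez 5 (h10 S θ) z x) (ez 5 (h10 S θ) z' x) := by
  classical
  have H := W.K.gt.H
  have hc := cx_cost H.gradedBelow hz hx
  have hmax : cst 5 (h10 S θ) z ≤ ∑ x, max (ez 5 (h10 S θ) z x) (ez 5 (h10 S θ) z' x) :=
    Finset.sum_le_sum fun x _ => le_max_left _ _
  rcases Nat.lt_or_ge n 26 with h26 | h26
  · omega
  obtain ⟨n1, n2, n3⟩ := hno h26
  have hmax' : cst 5 (h10 S θ) z' ≤ ∑ x, max (ez 5 (h10 S θ) z x) (ez 5 (h10 S θ) z' x) :=
    Finset.sum_le_sum fun x _ => le_max_right _ _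
  have hx' := hx
  obtain ⟨Nc, co, F, E, C, hb, hF⟩ := hx
  have hlz : lev z = 11 := C.lev_z H.gradedBelow
  have hlz' := W.lev11 (mem_filter.mp hz').1
  have hle : ¬ z ≤ z' := by
    intro h
    rcases eq_or_lt_of_le h with h1 | h1
    · apply hne
      rw [← h1]
      exact J8.mem_fam.mpr ⟨by rw [h1]; exact hz', fun _ => Iff.rfl⟩
    · have := lev_strictAnti h1
      omega
  have hone := W.one_le hz'
  have hself : ez 5 (h10 S θ) z' z' = h10 S θ z' := ez_self ((W.lad hw).le_lev hz')
  -- elements which are not above `z`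
  have hsum : ∀ (T : P → Prop) (_ : DecidablePred T), (∀ x, T x → ¬ z ≤ x) →
      26 + ∑ x, (if T x then ez 5 (h10 S θ) z' x else 0) ≤
        ∑ x, max (ez 5 (h10 S θ) z x) (ez 5 (h10 S θ) z' x) := by
    intro T _ hT
    have e1 : cst 5 (h10 S θ) z = ∑ x, ez 5 (h10 S θ) z x := rfl
    rw [← hc, e1, ← Finset.sum_add_distrib]
    refine Finset.sum_le_sum fun x _ => ?_
    by_cases h1 : T x
    · have e2 : ez 5 (h10 S θ) z x = 0 := by
        unfold ez
        rw [if_neg (hT x h1)]
      rw [if_pos h1, e2, zero_add]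
      exact le_max_right _ _
    · rw [if_neg h1, add_zero]
      exact le_max_left _ _
  have hFt := C.chart.le_t F C.F_mem
  have hEt := C.chart.le_t E C.S_mem
  -- elements of other components
  have hoth : ∀ v, lev v = 10 → z' < v → ¬ v ≤ (t : P) → n < ∑ x,
      max (ez 5 (h10 S θ) z x) (ez 5 (h10 S θ) z' x) := by
    intro v hv hzv hvt
    have hnot : ∀ x, v ≤ x → ¬ z ≤ x := by
      intro x hvx hzx
      have hlx : lev x ≤ 10 := by
        rcases eq_or_lt_of_le hvx with h1 | h1
        · rw [← h1]; omega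
        · have := lev_strictAnti h1
          omega
      have hzx' : z < x := lt_of_le_of_ne hzx (by rintro rfl; omega)
      have hxt : x ≤ (t : P) := by
        rcases C.lt_iff.mp hzx' with h1 | h1
        · exact Cp.up_le H W.K.gt.good t.2 hFt C.lev_F.le h1
        · exact Cp.up_le H W.K.gt.good t.2 hEt C.lev_S.le h1
      exact hvt (hvx.trans hxt)
    have h1 := hsum (fun x => x = z' ∨ v ≤ x) (fun x => inferInstance) (by
      rintro x (rfl | h)
      · exact hle
      · exact hnot x h)
    have h2 := other_sum H.gradedBelow hv hzv hone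
    have h3 : h10 S θ z' + ∑ x, (if v ≤ x then ez 5 (h10 S θ) z' x else 0) ≤
        ∑ x, (if x = z' ∨ v ≤ x then ez 5 (h10 S θ) z' x else 0) := by
      have e3 : h10 S θ z' = ∑ x, (if x = z' then ez 5 (h10 S θ) z' x else 0) := by
        rw [Finset.sum_ite_eq' univ z', if_pos (mem_univ _), hself]
      rw [e3, ← Finset.sum_add_distrib]
      refine Finset.sum_le_sum fun x _ => ?_
      by_cases h4 : x = z'
      · have h5 : ¬ v ≤ x := by
          rw [h4]
          exact not_le_of_gt hzv
        rw [if_pos h4, if_neg h5, if_pos (Or.inl h4), add_zero]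
      · by_cases h5 : v ≤ x
        · rw [if_neg h4, if_pos h5, if_pos (Or.inr h5), zero_add]
        · rw [if_neg h4, if_neg h5]
          exact Nat.zero_le _
    omega
  rcases W.kind hz' with ⟨t', h1⟩ | ⟨x, h1, -⟩ | ⟨x, h1, -⟩ | ⟨x, h1, -⟩ | ⟨x, h1, h2, h3⟩ |
    ⟨t', h1, h2⟩ | ⟨x, y, h1, h2, h3, -⟩
  · have := hw t'
    omega
  · exact absurd h1 (n1 z' hz' x)
  · exact absurd h1 (n2 z' hz' x)
  · exact absurd h1 (n3 z' hz' x)
  · have hlx : lev x = 11 := by
      have := (H.covBy_iff.mp h2).2
      have := h1.1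
      omega
    have hzx : ¬ z ≤ x := by
      intro h4
      rcases eq_or_lt_of_le h4 with h5 | h5
      · subst h5
        -- `z` has two covers, `x` one
        have h6 := h1.2.2.2.2
        have h10 : 2 ≤ nab 10 z := two_le_nab (z := z) C.zF.1.le C.zS.1.le C.lev_F C.lev_S (by
          intro h7
          have h8 : nab 5 F = 3 := C.nab_F (u := 0) (by norm_num)
          have h9 : nab 5 E = 1 := C.nab_S (by norm_num)
          rw [h7] at h8
          omega)
        omega
      · have := lev_strictAnti h5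
        omega
    have h4 := hsum (fun y => y = z' ∨ y = x) (fun y => inferInstance) (by
      rintro y (rfl | rfl)
      · exact hle
      · exact hzx)
    have h5 : 8 ≤ ∑ y, (if y = z' ∨ y = x then ez 5 (h10 S θ) z' y else 0) := by
      have hzne : z' ≠ x := h2.1.ne
      rw [← Finset.sum_filter]
      have e1 : (univ.filter (fun y => y = z' ∨ y = x)) = {z', x} := by
        ext y
        simp
      rw [e1, Finset.sum_pair hzne, hself, h3]
      have e2 : ez 5 (h10 S θ) z' x = 4 := by
        unfold ez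
        rw [if_pos h2.1.le, h3, hlx]
        norm_num
      rw [e2]
    omega
  · obtain ⟨Nc', co', F', E', C', hb', hF'⟩ := h1
    by_cases htt : t' = t
    · subst htt
      exfalso
      obtain ⟨e1, e2⟩ := cel_same C C'
      subst e1
      subst e2
      apply hne
      rw [J8.mem_fam]
      refine ⟨hz', up_of_cov fun v => ?_⟩
      constructor
      · intro hv
        rcases C.only v hv with h5 | h5
        · rw [h5]; exact C'.zF
        · rw [h5]; exact C'.zS
      · intro hv
        rcases C'.only v hv with h5 | h5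
        · rw [h5]; exact C.zF
        · rw [h5]; exact C.zS
    · refine hoth F' C'.lev_F C'.zF.1 ?_
      intro h4
      exact htt ((W.top_of (C'.chart.le_t F' C'.F_mem) C'.lev_F.le).symm.trans
        (W.top_of h4 C'.lev_F.le))
  · have hlx : lev x = 10 := by
      have := (H.covBy_iff.mp h1.cov).2
      omega
    have hly : lev y = 10 := by
      have := (H.covBy_iff.mp h1.cov').2
      omega
    by_cases h4 : x ≤ (t : P)
    · refine hoth y hly h1.cov'.1 ?_
      intro h5
      exact h1.ne ((W.top_of h4 hlx.le).trans (W.top_of h5 hly.le).symm)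
    · exact hoth x hlx h1.cov.1 h4

end

end Pool.Agent.GaussPoset.J10
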