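import Pool.Agent.W_448j10_h67.JbZ

/-!
Level 10, window 5: one step of the ladder (MP_448cb3_co).
-/

namespace Pool.Agent.GaussPoset.J10

set_option linter.unusedSectionVars false

open Polynomial Finset Dd Wd Cl J8

universe u

variable {P : Type u} [Fintype P] [PartialOrder P] [DecidableEq P] {r : ℕ}

section

variable {lo hi : Tops P → ℕ → ℕ} {e : Tops P → ℕ → ℕ → P} {Kc : ℕ} {w : Tops P → ℕ}
  {ρ : Tops P → ℤ} {S : Tops P → Finset P} {θ : Tops P → P → ℕ} {B : Tops P → P → Prop}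

/-- the (C) elements -/
noncomputable def CX (lo hi : Tops P → ℕ → ℕ) (S : Tops P → Finset P)
    (θ : Tops P → P → ℕ) : Finset P := by
  classical exact (bdR (unnat S)).filter (fun z => h10 S θ z = 2 ∧
    ∃ t, IsC t (b10 lo hi t) (θ t) z)

lemma mem_CX {z : P} : z ∈ CX lo hi S θ ↔ z ∈ bdR (unnat S) ∧ h10 S θ z = 2 ∧
    ∃ t, IsC t (b10 lo hi t) (θ t) z := by
  classical
  unfold CX
  rw [mem_filter]

/-- **One step of the ladder.** -/
theorem C10.step (W : C10 P r lo hi e Kc w ρ S θ B) (hne : Nonempty (Tops P)) {n : ℕ}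
    (hn5 : 5 ≤ n) (hn : n ≤ 30) (hK : n < Kc) (hw : ∀ t, n ≤ w t)
    (hno : 26 ≤ n → NoPn S pQ ∧ NoPn S pF ∧ NoPn S pE6) (σ : ℤ) (hσ : σ = 1 ∨ σ = -1)
    (h30 : n = 30 → σ = 1) (v : P → ℤ)
    (hc : ∀ z ∈ bdR (unnat S), z ∉ CX lo hi S θ → n ≤ cst 5 (h10 S θ) z)
    (hv : ∀ z ∈ bdR (unnat S), z ∉ CX lo hi S θ → cst 5 (h10 S θ) z = n →
      Lv (lv P 5).card (Lt 5 (h10 S θ) z) (v z * (-1) ^ below P 5) ∧ 0 ≤ σ * v z)
    (hρ : ∀ t, w t = n → 0 < σ * ρ t) :
    (∀ t, n < w t) ∧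
    (∀ z ∈ bdR (unnat S), z ∉ CX lo hi S θ → cst 5 (h10 S θ) z = n → v z = 0) ∧
    (n = 30 → CX lo hi S θ = ∅) := by
  classical
  have H := W.K.gt.H
  have hgr := H.gradedBelow
  have L := W.lad hw
  set Fam : Finset (Finset P) := (CX lo hi S θ).image (J8.fam (unnat S)) with hFam
  have hFm : ∀ A ∈ Fam, ∃ z ∈ CX lo hi S θ, A = J8.fam (unnat S) z := by
    intro A hA
    rw [hFam, mem_image] at hA
    obtain ⟨z, h1, h2⟩ := hA
    exact ⟨z, h1, h2.symm⟩
  have hcx : ∀ z ∈ CX lo hi S θ, J8.fam (unnat S) z ∈ Fam := fun z hz =>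
    mem_image_of_mem _ hz
  have hmem : ∀ z ∈ CX lo hi S θ, ∀ y ∈ J8.fam (unnat S) z, y ∈ CX lo hi S θ := by
    intro z hz y hy
    obtain ⟨h1, h2, t, h3⟩ := mem_CX.mp hz
    obtain ⟨h4, h5⟩ := W.fam_cx h3 hy
    exact mem_CX.mpr ⟨(J8.mem_fam.mp hy).1, h4, t, h5⟩
  have hnoF : ∀ z, z ∈ bdR (unnat S) → (∀ A ∈ Fam, z ∉ A) → z ∉ CX lo hi S θ :=
    fun z hz h h' => h _ (hcx z h') (J8.fam_self hz)
  have hplus := L.plus0 (n := n) le_rfl Fam
    (by
      intro A hA z hz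
      obtain ⟨y, -, rfl⟩ := hFm A hA
      exact (J8.mem_fam.mp hz).1)
    (fun z hz hno' => hc z hz (hnoF z hz hno'))
    (by
      intro A hA z hz z' hz' hne'
      obtain ⟨y, hy, rfl⟩ := hFm A hA
      obtain ⟨-, h1, t, h2⟩ := mem_CX.mp hy
      obtain ⟨h3, h4⟩ := W.fam_cx h2 hz
      refine W.pair (by omega) hK hw hno h3 h4 hz' ?_
      rwa [← J8.fam_eq hz (J8.fam_self (J8.mem_fam.mp hz).1)])
    (by
      intro A hA A' hA' hne' z hz hz'
      obtain ⟨y, -, rfl⟩ := hFm A hA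
      obtain ⟨y', -, rfl⟩ := hFm A' hA'
      exact hne' (J8.fam_eq hz hz'))
  rw [W.sum_b] at hplus
  -- the values
  have v0 : Lv (lv P 5).card (Z P 5 n) 0 := Lv.zero (dvd_Z H.gauss 5 n)
  have v1 : Lv (lv P 5).card (Z {x : P // x ∉ unnat S} 5 n)
      ((∑ t, (if w t = n then ρ t else 0)) * (-1) ^ below P 5) := by
    refine L.nat_lv (by omega) (fun t => (W.td t).b_one) hne W.sum_b
      (fun t => if w t = n then ρ t else 0) ?_
    intro t
    rcases eq_or_lt_of_le (hw t) with h1 | h1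
    · right
      intro f hf
      show Pl n (b10 lo hi t) (if w t = n then ρ t else 0) f
      rw [if_pos h1.symm]
      have h2 := (W.td t).pole (by omega) S W.sys rfl f hf
      rwa [← h1] at h2
    · left
      refine ⟨by
        show (if w t = n then ρ t else 0) = 0
        rw [if_neg (by omega)], ?_⟩
      exact (W.data t).clean (unnat S) ⟨L.low, Subset.refl _, L.lev, L.base⟩ inferInstance n h1
  have v2 : ∀ A ∈ Fam, Lv (lv P 5).card (ZF 5 (h10 S θ) A n)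
      ((if n = 30 then (A.card : ℤ) else 0) * (-1) ^ below P 5) := by
    intro A hA
    obtain ⟨z, hz, rfl⟩ := hFm A hA
    obtain ⟨h1, h2, t, h3⟩ := mem_CX.mp hz
    obtain ⟨Nc, co, F, E, C, hb, hF⟩ := h3
    have key := fam_poleT C (g := 2) (u := 1) (b := b10 lo hi) H W.sys
      (fun x hx => W.lev11 hx) (fun k hk => dvd_restL L W.sys t (by omega)) rfl le_rfl
      (by norm_num) (by norm_num) hb (h := h10 S θ) (A := J8.fam (unnat S) z)
      (J8.fam_self h1) (fun y hy => (J8.mem_fam.mp hy).2)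
      (fun y hy => (W.fam_cx ⟨Nc, co, F, E, C, hb, hF⟩ hy).1)
    have e1 : E0 5 + hh 5 ^ 2 = 30 := by decide +kernel
    rw [e1, W.sum_b] at key
    rcases eq_or_lt_of_le hn with hn' | hn'
    · rw [if_pos hn']
      have k2 := key.2
      rw [← hn'] at k2
      refine Lv.congr k2 ?_
      have e2 : ((J8.fam (unnat S) z).card : ℤ) * (-1) ^ below P 5 =
          ∑ _y ∈ J8.fam (unnat S) z, (-1 : ℤ) ^ (below P 5 + (1 + 1) * 2) := by
        rw [Finset.sum_const, nsmul_eq_mul, pow_add]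
        norm_num
      rw [e2]
      exact Lv.sum _ fun y _ => Lv.mono _ _
    · rw [if_neg (by omega), zero_mul]
      exact Lv.zero (key.1 n hn')
  set T := (bdR (unnat S)).filter (fun z => (∀ A ∈ Fam, z ∉ A) ∧
    cst 5 (hcan (unnat S) (th10 θ)) z = n) with hT
  have hTm : ∀ z ∈ T, z ∈ bdR (unnat S) ∧ z ∉ CX lo hi S θ ∧ cst 5 (h10 S θ) z = n := by
    intro z hz
    rw [hT, mem_filter] at hz
    exact ⟨hz.1, hnoF z hz.1 hz.2.1, hz.2.2⟩
  have v3 : ∀ z ∈ T, Lv (lv P 5).card (Lt 5 (hcan (unnat S) (th10 θ)) z)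
      (v z * (-1) ^ below P 5) := by
    intro z hz
    obtain ⟨h1, h2, h3⟩ := hTm z hz
    exact (hv z h1 h2 h3).1
  have v5 := (v1.add ((Lv.sum Fam v2).add (Lv.sum T v3)))
  have v6 := Lv.congr hplus v5
  have hB : 1 ≤ (lv P 5).card := by
    obtain ⟨t⟩ := hne
    rw [← W.sum_b]
    have h1 : b10 lo hi t ≤ ∑ t, b10 lo hi t :=
      Finset.single_le_sum (f := b10 lo hi) (fun _ _ => Nat.zero_le _) (mem_univ t)
    have h2 : 1 ≤ b10 lo hi t := (W.td t).b_one
    omega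
  have v7 := v6.eq_zero hB (dvd_Z H.gauss 5 n)
  rw [← Finset.sum_mul, ← Finset.sum_mul, ← add_mul, ← add_mul] at v7
  have v8 := (mul_eq_zero.mp v7).resolve_right (pow_ne_zero _ (by norm_num))
  have v9 : ∑ t, σ * (if w t = n then ρ t else 0) +
      (∑ A ∈ Fam, σ * (if n = 30 then (A.card : ℤ) else 0) + ∑ z ∈ T, σ * v z) = 0 := by
    rw [← Finset.mul_sum, ← Finset.mul_sum, ← Finset.mul_sum, ← mul_add, ← mul_add, v8,
      mul_zero]
  have hσ0 : σ ≠ 0 := by rcases hσ with rfl | rfl <;> norm_num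
  have p1 : ∀ t ∈ (univ : Finset (Tops P)), 0 ≤ σ * (if w t = n then ρ t else 0) := by
    intro t _
    split_ifs with h1
    · exact (hρ t h1).le
    · rw [mul_zero]
  have p2 : ∀ A ∈ Fam, 0 ≤ σ * (if n = 30 then (A.card : ℤ) else 0) := by
    intro A _
    split_ifs with h1
    · rw [h30 h1, one_mul]
      positivity
    · rw [mul_zero]
  have p3 : ∀ z ∈ T, 0 ≤ σ * v z := by
    intro z hz
    obtain ⟨h1, h2, h3⟩ := hTm z hz
    exact (hv z h1 h2 h3).2
  have n1 := Finset.sum_nonneg p1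
  have n2 := Finset.sum_nonneg p2
  have n3 := Finset.sum_nonneg p3
  have m1 : ∑ t, σ * (if w t = n then ρ t else 0) = 0 := by omega
  have m2 : ∑ A ∈ Fam, σ * (if n = 30 then (A.card : ℤ) else 0) = 0 := by omega
  have m3 : ∑ z ∈ T, σ * v z = 0 := by omega
  refine ⟨?_, ?_, ?_⟩
  · intro t
    rcases eq_or_lt_of_le (hw t) with h1 | h1
    · exfalso
      have h2 := (Finset.sum_eq_zero_iff_of_nonneg p1).mp m1 t (mem_univ t)
      rw [if_pos h1.symm] at h2
      have := hρ t h1.symm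
      omega
    · exact h1
  · intro z hz hzC hzn
    have hzT : z ∈ T := by
      rw [hT, mem_filter]
      refine ⟨hz, fun A hA hzA => ?_, hzn⟩
      obtain ⟨y, hy, rfl⟩ := hFm A hA
      exact hzC (hmem y hy z hzA)
    have h2 := (Finset.sum_eq_zero_iff_of_nonneg p3).mp m3 z hzT
    exact (mul_eq_zero.mp h2).resolve_left hσ0
  · intro hn30
    by_contra hcon
    obtain ⟨z, hz⟩ := Finset.nonempty_iff_ne_empty.mpr hcon
    have h2 := (Finset.sum_eq_zero_iff_of_nonneg p2).mp m2 _ (hcx z hz)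
    rw [if_pos hn30, h30 hn30, one_mul] at h2
    have h3 : 0 < (J8.fam (unnat S) z).card :=
      Finset.card_pos.mpr ⟨z, J8.fam_self (mem_CX.mp hz).1⟩
    have h4 : ((J8.fam (unnat S) z).card : ℤ) ≠ 0 := by exact_mod_cast h3.ne'
    exact h4 h2

end

end Pool.Agent.GaussPoset.J10
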