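import Pool.Agent.W_448j10_h67.JcA

/-!
Level 10, window 5: the steps of the ladder by kinds (MP_448cb3_co).
-/

namespace Pool.Agent.GaussPoset.J10

set_option linter.unusedSectionVars false

open Polynomial Finset Dd Wd Cl J8

universe u

variable {P : Type u} [Fintype P] [PartialOrder P] [DecidableEq P] {r : ℕ}

section

variable {lo hi : Tops P → ℕ → ℕ} {e : Tops P → ℕ → ℕ → P} {Kc : ℕ} {w : Tops P → ℕ}
  {ρ : Tops P → ℤ} {S : Tops P → Finset P} {θ : Tops P → P → ℕ} {B : Tops P → P → Prop}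

/-- no boundary element below a pendant of `E7` -/
def No7 (S : Tops P → Finset P) (θ : Tops P → P → ℕ) : Prop :=
  ∀ z ∈ bdR (unnat S), ∀ x, z ⋖ x → ¬ Cp7 (θ (topOf x)) z x

/-- the label of a pendant below a quadric, a fold end, the end of `E6` -/
lemma C10.lbl (W : C10 P r lo hi e Kc w ρ S θ B) {z x : P} (hz : z ∈ bdR (unnat S)) :
    (Pn pQ z x → h10 S θ z = 1) ∧ (Pn pF z x → h10 S θ z = 2) ∧
      (Pn pE6 z x → h10 S θ z = 3) := by
  classical
  have H := W.K.gt.H
  have key : ∀ p, Pn p z x → h10 S θ z = θ (topOf x) x + 1 := by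
    intro p h
    obtain ⟨y, hy, hzy, hh⟩ := hcan_spec (θ := th10 θ) hz
    rw [h.only y hzy] at hh
    exact hh
  have hends : ∀ p, Pn p z x → p.getD 9 0 = 1 → En (θ (topOf x)) x := by
    intro p h h9
    refine (W.td (topOf x)).ends x (le_topOf x) h.levx ?_
    rw [uc_card_nab H (by rw [h.levx]; norm_num), h.levx]
    exact (h.pf 9 (by norm_num)).trans h9
  refine ⟨fun h => ?_, fun h => ?_, fun h => ?_⟩
  · rw [key _ h]
    rcases hends _ h (by decide) with ⟨-, h2⟩ | ⟨h1, -⟩ | ⟨-, h2⟩ | ⟨-, h2⟩ | ⟨-, h2⟩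
    · have h3 := h2 5 le_rfl
      rw [h.pf 5 (by norm_num)] at h3
      exact absurd h3 (by decide)
    · omega
    · have h3 := h2 4 (by norm_num)
      rw [h.pf 4 (by norm_num)] at h3
      exact absurd h3 (by decide)
    · have h3 := h2 4 (by norm_num)
      rw [h.pf 4 (by norm_num)] at h3
      exact absurd h3 (by decide)
    · have h3 := h2 4 (by norm_num)
      rw [h.pf 4 (by norm_num)] at h3
      exact absurd h3 (by decide)
  · rw [key _ h]
    rcases hends _ h (by decide) with ⟨-, h2⟩ | ⟨-, h2⟩ | ⟨-, h2⟩ | ⟨-, h2⟩ | ⟨h1, -⟩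
    · have h3 := h2 5 le_rfl
      rw [h.pf 5 (by norm_num)] at h3
      exact absurd h3 (by decide)
    · have h3 := h2 5 (by norm_num)
      rw [h.pf 5 (by norm_num)] at h3
      exact absurd h3 (by decide)
    · have h3 := h2 5 (by norm_num)
      rw [h.pf 5 (by norm_num)] at h3
      exact absurd h3 (by decide)
    · have h3 := h2 5 (by norm_num)
      rw [h.pf 5 (by norm_num)] at h3
      exact absurd h3 (by decide)
    · omega
  · rw [key _ h]
    rcases hends _ h (by decide) with ⟨-, h2⟩ | ⟨-, h2⟩ | ⟨-, h2⟩ | ⟨h1, -⟩ | ⟨-, h2⟩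
    · have h3 := h2 5 le_rfl
      rw [h.pf 5 (by norm_num)] at h3
      exact absurd h3 (by decide)
    · have h3 := h2 4 (by norm_num)
      rw [h.pf 4 (by norm_num)] at h3
      exact absurd h3 (by decide)
    · have h3 := h2 3 (by norm_num)
      rw [h.pf 3 (by norm_num)] at h3
      exact absurd h3 (by decide)
    · omega
    · have h3 := h2 5 (by norm_num)
      rw [h.pf 5 (by norm_num)] at h3
      exact absurd h3 (by decide)

/-- the values of the pendants -/
lemma C10.q_val {z x : P} {h : P → ℕ} (hp : Pn pQ z x) (hh : h z = 1) :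
    Lv (lv P 5).card (Lt 5 h z) (1 * (-1) ^ below P 5) := by
  have h1 : nst 5 h z = 2 := by
    rw [nst_eq, hh]
    simp only [Finset.sum_range_succ, Finset.sum_range_zero]
    rw [hp.nab (k := 5 + 0) (by norm_num)]
    rfl
  have := lt_lv (h := h) (z := z) (s := 2) (a := 1) (b := 0) h1
    ((hp.nab (k := 5) (by norm_num)).trans rfl)
    (by rw [hh]; exact (hp.nab (k := 5 + 1) (by norm_num)).trans rfl) rfl
  simpa using this

lemma C10.f_val {z x : P} {h : P → ℕ} (hp : Pn pF z x) (hh : h z = 2) :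
    Lv (lv P 5).card (Lt 5 h z) (1 * (-1) ^ below P 5) := by
  have h1 : nst 5 h z = 6 := by
    rw [nst_eq, hh]
    simp only [Finset.sum_range_succ, Finset.sum_range_zero]
    rw [hp.nab (k := 5 + 0) (by norm_num), hp.nab (k := 5 + 1) (by norm_num)]
    rfl
  have := lt_lv (h := h) (z := z) (s := 6) (a := 2) (b := 0) h1
    ((hp.nab (k := 5) (by norm_num)).trans rfl)
    (by rw [hh]; exact (hp.nab (k := 5 + 2) (by norm_num)).trans rfl) rfl
  simpa using this

lemma C10.e6_val {z x : P} {h : P → ℕ} (hp : Pn pE6 z x) (hh : h z = 3) :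
    Lv (lv P 5).card (Lt 5 h z) (1 * (-1) ^ below P 5) := by
  have h1 : nst 5 h z = 6 := by
    rw [nst_eq, hh]
    simp only [Finset.sum_range_succ, Finset.sum_range_zero]
    rw [hp.nab (k := 5 + 0) (by norm_num), hp.nab (k := 5 + 1) (by norm_num),
      hp.nab (k := 5 + 2) (by norm_num)]
    rfl
  have := lt_lv (h := h) (z := z) (s := 6) (a := 1) (b := 0) h1
    ((hp.nab (k := 5) (by norm_num)).trans rfl)
    (by rw [hh]; exact (hp.nab (k := 5 + 3) (by norm_num)).trans rfl) rfl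
  simpa using this

lemma C10.c7_val {θ : P → ℕ} {z x : P} {h : P → ℕ} (hc : Cp7 θ z x) (hzx : z ⋖ x)
    (hh : h z = 4) : Lv (lv P 5).card (Lt 5 h z) (1 * (-1) ^ below P 5) := by
  have h1 : nst 5 h z = 8 := by
    rw [nst_eq, hh]
    simp only [Finset.sum_range_succ, Finset.sum_range_zero]
    rw [hc.nab hzx (k := 5 + 0) (by norm_num), hc.nab hzx (k := 5 + 1) (by norm_num),
      hc.nab hzx (k := 5 + 2) (by norm_num), hc.nab hzx (k := 5 + 3) (by norm_num)]
    rfl
  have := lt_lv (h := h) (z := z) (s := 8) (a := 1) (b := 0) h1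
    ((hc.nab hzx (k := 5) (by norm_num)).trans rfl)
    (by rw [hh]; exact (hc.nab hzx (k := 5 + 4) (by norm_num)).trans rfl) rfl
  simpa using this

/-- the joins at the energy `n` -/
def JnOK (P : Type u) [Fintype P] [PartialOrder P] [DecidableEq P] (S : Tops P → Finset P)
    (θ : Tops P → P → ℕ) (n : ℕ) (σ : ℤ) : Prop :=
  ∀ z ∈ bdR (unnat S), ∀ x y, Sm.Cg z x y → lev z = 11 → h10 S θ z = th10 θ x + 1 →
    th10 θ x ≤ th10 θ y → n < cst 5 (h10 S θ) z ∨ (cst 5 (h10 S θ) z = n ∧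
      (Lv (lv P 5).card (Lt 5 (h10 S θ) z) 0 ∨
       Lv (lv P 5).card (Lt 5 (h10 S θ) z) (σ * (-1) ^ below P 5)))

/-- **One step of the ladder, by kinds.** -/
theorem C10.go (W : C10 P r lo hi e Kc w ρ S θ B) (hne : Nonempty (Tops P)) {n : ℕ}
    (hn5 : 5 ≤ n) (hn : n ≤ 30) (hK : n < Kc) (hw : ∀ t, n ≤ w t)
    (hQ : 6 < n → NoPn S pQ) (hF : 17 < n → NoPn S pF) (hE : 18 < n → NoPn S pE6)
    (h7 : 28 < n → No7 S θ) (σ : ℤ) (hσ : σ = 1 ∨ σ = -1)
    (hs : n = 6 ∨ n = 17 ∨ n = 18 ∨ n = 28 ∨ n = 30 → σ = 1) (hρ : ∀ t, w t = n → 0 < σ * ρ t)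
    (hJ : JnOK P S θ n σ) :
    (∀ t, n < w t) ∧ (n = 6 → NoPn S pQ) ∧ (n = 17 → NoPn S pF) ∧ (n = 18 → NoPn S pE6) ∧
    (n = 28 → No7 S θ) ∧ (n = 30 → CX lo hi S θ = ∅) ∧
    (∀ z ∈ bdR (unnat S), z ∉ CX lo hi S θ → cst 5 (h10 S θ) z = n →
      ¬ Lv (lv P 5).card (Lt 5 (h10 S θ) z) (σ * (-1) ^ below P 5)) := by
  classical
  have H := W.K.gt.H
  have hσσ : 0 ≤ σ * σ := by rcases hσ with rfl | rfl <;> norm_num
  have hσ0 : σ ≠ 0 := by rcases hσ with rfl | rfl <;> norm_num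
  -- costs and values by kinds
  have hkind : ∀ z ∈ bdR (unnat S), z ∉ CX lo hi S θ → n < cst 5 (h10 S θ) z ∨
      (cst 5 (h10 S θ) z = n ∧ (Lv (lv P 5).card (Lt 5 (h10 S θ) z) 0 ∨
       Lv (lv P 5).card (Lt 5 (h10 S θ) z) (σ * (-1) ^ below P 5))) := by
    intro z hz hzC
    rcases W.kind hz with ⟨t', h1⟩ | ⟨x, h1, h2⟩ | ⟨x, h1, h2⟩ | ⟨x, h1, h2⟩ |
      ⟨x, h1, h2, h3⟩ | ⟨t', h1, h2⟩ | ⟨x, y, h1, h2, h3, h4⟩
    · left
      have := hw t'
      omega
    · have hc := h1.q_cost h2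
      rcases Nat.lt_trichotomy 6 n with h3 | h3 | h3
      · exact absurd h1 (hQ h3 z hz x)
      · right
        rw [hs (Or.inl h3.symm)]
        exact ⟨by omega, Or.inr (C10.q_val h1 h2)⟩
      · left; omega
    · have hc := h1.f_cost h2
      rcases Nat.lt_trichotomy 17 n with h3 | h3 | h3
      · exact absurd h1 (hF h3 z hz x)
      · right
        rw [hs (by omega)]
        exact ⟨by omega, Or.inr (C10.f_val h1 h2)⟩
      · left; omega
    · have hc := h1.e6_cost h2
      rcases Nat.lt_trichotomy 18 n with h3 | h3 | h3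
      · exact absurd h1 (hE h3 z hz x)
      · right
        rw [hs (by omega)]
        exact ⟨by omega, Or.inr (C10.e6_val h1 h2)⟩
      · left; omega
    · have hc := h1.cost H h2 h3
      rcases Nat.lt_trichotomy 28 n with h4 | h4 | h4
      · exact absurd h1 (h7 h4 z hz x h2)
      · right
        rw [hs (by omega)]
        exact ⟨by omega, Or.inr (C10.c7_val h1 h2 h3)⟩
      · left; omega
    · exact absurd (mem_CX.mpr ⟨hz, h2, t', h1⟩) hzC
    · exact hJ z hz x y h1 h2 h3 h4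
  set v : P → ℤ := fun z =>
    if Lv (lv P 5).card (Lt 5 (h10 S θ) z) (σ * (-1) ^ below P 5) then σ else 0 with hv
  obtain ⟨a1, a2, a3⟩ := W.step hne hn5 hn hK hw
    (fun h => ⟨hQ (by omega), hF (by omega), hE (by omega)⟩) σ hσ (fun h => hs (by omega)) v
    (fun z hz hzC => by
      rcases hkind z hz hzC with h1 | h1
      · exact h1.le
      · exact h1.1.ge)
    (fun z hz hzC hzn => by
      have h0 : v z = if Lv (lv P 5).card (Lt 5 (h10 S θ) z) (σ * (-1) ^ below P 5) then σ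
        else 0 := rfl
      by_cases h1 : Lv (lv P 5).card (Lt 5 (h10 S θ) z) (σ * (-1) ^ below P 5)
      · rw [if_pos h1] at h0
        rw [h0]
        exact ⟨h1, hσσ⟩
      · rw [if_neg h1] at h0
        rw [h0, zero_mul, mul_zero]
        refine ⟨?_, le_rfl⟩
        rcases hkind z hz hzC with h2 | ⟨-, h2 | h2⟩
        · omega
        · exact h2
        · exact absurd h2 h1)
    hρ
  have a4 : ∀ z ∈ bdR (unnat S), z ∉ CX lo hi S θ → cst 5 (h10 S θ) z = n →
      ¬ Lv (lv P 5).card (Lt 5 (h10 S θ) z) (σ * (-1) ^ below P 5) := by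
    intro z hz hzC hzn h1
    have h2 := a2 z hz hzC hzn
    rw [hv] at h2
    simp only [if_pos h1] at h2
    exact hσ0 h2
  have hnC : ∀ p z x, Pn p z x → z ∉ CX lo hi S θ := by
    intro p z x hp hzC
    obtain ⟨-, -, t, Nc, co, F, E, C, -⟩ := mem_CX.mp hzC
    have e1 := hp.only F C.zF
    have e2 := hp.only E C.zS
    have h8 : nab 5 F = 3 := C.nab_F (u := 0) (by norm_num)
    have h9 : nab 5 E = 1 := C.nab_S (by norm_num)
    rw [e1] at h8
    rw [e2] at h9
    omega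
  refine ⟨a1, ?_, ?_, ?_, ?_, a3, a4⟩
  · intro h6 z hz x hp
    have h1 := (W.lbl hz (x := x)).1 hp
    refine a4 z hz (hnC _ z x hp) (by rw [hp.q_cost h1, h6]) ?_
    rw [hs (Or.inl h6)]
    exact C10.q_val hp h1
  · intro h6 z hz x hp
    have h1 := (W.lbl hz (x := x)).2.1 hp
    refine a4 z hz (hnC _ z x hp) (by rw [hp.f_cost h1, h6]) ?_
    rw [hs (by omega)]
    exact C10.f_val hp h1
  · intro h6 z hz x hp
    have h1 := (W.lbl hz (x := x)).2.2 hp
    refine a4 z hz (hnC _ z x hp) (by rw [hp.e6_cost h1, h6]) ?_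
    rw [hs (by omega)]
    exact C10.e6_val hp h1
  · intro h6 z hz x hzx hc
    have h1 : h10 S θ z = 4 := by
      obtain ⟨y, hy, hzy, hh⟩ := hcan_spec (θ := th10 θ) hz
      rw [hc.2.1 y hzy] at hh
      have h2 : h10 S θ z = θ (topOf x) x + 1 := hh
      rw [h2, hc.2.2.1]
    refine a4 z hz ?_ (by rw [hc.cost H hzx h1, h6]) ?_
    · intro hzC
      have := (mem_CX.mp hzC).2.1
      omega
    · rw [hs (by omega)]
      exact C10.c7_val hc hzx h1

end

end Pool.Agent.GaussPoset.J10
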