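import Pool.Agent.W_448j10_h67.JcB

/-!
Level 10, window 5: the ladder (MP_448cb3_co).
-/

namespace Pool.Agent.GaussPoset.J10

set_option linter.unusedSectionVars false

open Polynomial Finset Dd Wd Cl J8

universe u

variable {P : Type u} [Fintype P] [PartialOrder P] [DecidableEq P] {r : ℕ}

/-- the sign of the poles -/
def sg (n : ℕ) : ℤ := if 20 ≤ n ∧ n < 25 then -1 else 1

section

variable {lo hi : Tops P → ℕ → ℕ} {e : Tops P → ℕ → ℕ → P} {Kc : ℕ} {w : Tops P → ℕ}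
  {ρ : Tops P → ℤ} {S : Tops P → Finset P} {θ : Tops P → P → ℕ} {B : Tops P → P → Prop}

/-- what is known below the energy `n` -/
structure Inv (lo hi : Tops P → ℕ → ℕ) (w : Tops P → ℕ) (S : Tops P → Finset P)
    (θ : Tops P → P → ℕ) (n : ℕ) : Prop where
  w_ge : ∀ t, n ≤ w t
  q : 6 < n → NoPn S pQ
  f : 17 < n → NoPn S pF
  e6 : 18 < n → NoPn S pE6
  c7 : 28 < n → No7 S θ
  cx : 30 < n → CX lo hi S θ = ∅

lemma sg_cases (n : ℕ) : sg n = 1 ∨ sg n = -1 := by
  unfold sg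
  split_ifs
  · exact Or.inr rfl
  · exact Or.inl rfl

/-- **The ladder.** -/
theorem C10.ladder (W : C10 P r lo hi e Kc w ρ S θ B) (hne : Nonempty (Tops P)) {N : ℕ}
    (h5 : 5 ≤ N) (hN : N ≤ 31) (hNK : N ≤ Kc)
    (hJ : ∀ n, 5 ≤ n → n < N → (∀ t, n ≤ w t) → JnOK P S θ n (sg n)) :
    Inv lo hi w S θ N := by
  have key : ∀ d, 5 + d ≤ N → Inv lo hi w S θ (5 + d) := by
    intro d
    induction d with
    | zero =>
      intro _
      refine ⟨fun t => ?_, fun h => ?_, fun h => ?_, fun h => ?_, fun h => ?_, fun h => ?_⟩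
      · have h1 := (W.td t).w_le
        rcases Nat.lt_or_ge (w t) Kc with h2 | h2
        · rcases (W.td t).sg h2 with h3 | h3
          · omega
          · omega
        · omega
      all_goals omega
    | succ d ih =>
      intro hd
      have I := ih (by omega)
      obtain ⟨a1, a2, a3, a4, a5, a6, -⟩ := W.go hne (n := 5 + d) (by omega) (by omega)
        (by omega) I.w_ge I.q I.f I.e6 I.c7 (sg (5 + d)) (sg_cases _)
        (by
          intro h
          unfold sg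
          rw [if_neg (by omega)])
        (by
          intro t ht
          have h1 : w t < Kc := by omega
          unfold sg
          rcases (W.td t).sg h1 with ⟨h2, h3, h4⟩ | ⟨h2, h3⟩
          · rw [if_pos (by omega)]
            omega
          · rw [if_neg (by omega), one_mul]
            exact h3)
        (hJ (5 + d) (by omega) (by omega) I.w_ge)
      refine ⟨fun t => ?_, fun h => ?_, fun h => ?_, fun h => ?_, fun h => ?_, fun h => ?_⟩
      · have := a1 t
        omega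
      · rcases Nat.lt_or_ge 6 (5 + d) with h1 | h1
        · exact I.q h1
        · exact a2 (by omega)
      · rcases Nat.lt_or_ge 17 (5 + d) with h1 | h1
        · exact I.f h1
        · exact a3 (by omega)
      · rcases Nat.lt_or_ge 18 (5 + d) with h1 | h1
        · exact I.e6 h1
        · exact a4 (by omega)
      · rcases Nat.lt_or_ge 28 (5 + d) with h1 | h1
        · exact I.c7 h1
        · exact a5 (by omega)
      · rcases Nat.lt_or_ge 30 (5 + d) with h1 | h1
        · exact I.cx h1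
        · exact a6 (by omega)
  obtain ⟨d, rfl⟩ : ∃ d, N = 5 + d := ⟨N - 5, by omega⟩
  exact key d le_rfl

/-- no joins, nothing to check -/
lemma jnOK_of_no (hJ : ∀ z : P, lev z = 11 → ¬ Hul.Jn z) {n : ℕ} {σ : ℤ} : JnOK P S θ n σ :=
  fun z _ x y h hl _ _ => absurd h.jn (hJ z hl)

end

/-- **The first stage: no pendant below the single end of `La5`.** -/
theorem no5_all {lo hi : Tops P → ℕ → ℕ} {e : Tops P → ℕ → ℕ → P} (K : Sm.Ctx P r 10 lo hi e)
    (hJ : ∀ (w : Tops P → ℕ) (ρ : Tops P → ℤ) (S : Tops P → Finset P) (θ : Tops P → P → ℕ)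
      (B : Tops P → P → Prop), C10 P r lo hi e 7 w ρ S θ B → ∀ n, 5 ≤ n → n < 7 →
      (∀ t, n ≤ w t) → JnOK P S θ n (sg n)) (t : Tops P)
    (D : WordD 10 5 wa5 (lo t) (hi t)) : No5 (e t) := by
  have hd : ∀ t, ¬ WordD 10 4 w4d (lo t) (hi t) := no_w4d K.gt K.comp K.shape
  choose w ρ S θ B hT hw hx using fun t : Tops P => exists_td (K := 7) (by norm_num)
    (by norm_num) K.gt (K.comp t) (K.shape t) (hd t) (fun W => by
      obtain ⟨θ, B, T⟩ := tdLa5Z K.gt (K.comp t) W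
      exact ⟨_, _, _, _, _, T, fun h => absurd h (by norm_num), fun _ => rfl⟩)
  have W : C10 P r lo hi e 7 w ρ S θ B := ⟨K, hT⟩
  have I := W.ladder ⟨t⟩ (N := 7) (by norm_num) (by norm_num) le_rfl (hJ w ρ S θ B W)
  have H := K.gt.H
  intro z hl hz
  have R := La5_r5 (K.comp t) D
  have hcov : z ⋖ e t 10 5 := (hz _).mpr rfl
  have hlx : lev (e t 10 5) = 10 := by
    have := (H.covBy_iff.mp hcov).2
    omega
  have hxt : e t 10 5 ≤ (t : P) := (K.comp t).le_t 10 5 le_rfl (by rw [R.l10]; norm_num)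
    (by rw [R.u10])
  have hzR : z ∈ unnat S := by
    rw [mem_unnat]
    intro s hs
    have h1 := W.sys.topOf_eq (W.sys.up s z hs _ hcov.1.le)
    have h2 := W.top_of hxt hlx.le
    have h3 : s = t := h1.symm.trans h2
    subst h3
    rw [(hw s D).2 rfl, mem_lowPart] at hs
    omega
  have hzb : z ∈ bdR (unnat S) := by
    classical
    unfold bdR
    rw [mem_filter]
    exact ⟨hzR, _, W.nat10 hlx.le, hcov⟩
  exact I.q (by norm_num) z hzb (e t 10 5) ⟨hcov, fun y hy => (hz y).mp hy, hl, hlx,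
    La5_prof K.gt (K.comp t) D⟩

/-- **The second stage: the elements below `La5`.** -/
theorem exA_all {lo hi : Tops P → ℕ → ℕ} {e : Tops P → ℕ → ℕ → P} (K : Sm.Ctx P r 10 lo hi e)
    (h5 : ∀ t, WordD 10 5 wa5 (lo t) (hi t) → No5 (e t))
    (hJ : ∀ (w : Tops P → ℕ) (ρ : Tops P → ℤ) (S : Tops P → Finset P) (θ : Tops P → P → ℕ)
      (B : Tops P → P → Prop), C10 P r lo hi e 25 w ρ S θ B → ∀ n, 5 ≤ n → n < 25 →
      (∀ t, n ≤ w t) → JnOK P S θ n (sg n)) (t : Tops P)
    (D : WordD 10 5 wa5 (lo t) (hi t)) : ExA (e t) := by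
  have hd : ∀ t, ¬ WordD 10 4 w4d (lo t) (hi t) := no_w4d K.gt K.comp K.shape
  choose w ρ S θ B hT hw hx using fun t : Tops P => exists_td (K := 25) (by norm_num)
    (by norm_num) K.gt (K.comp t) (K.shape t) (hd t) (fun W => by
      obtain ⟨w, ρ, S, θ, B, T, hE⟩ := tdLa5A K.gt (K.comp t) W (h5 t W)
      exact ⟨w, ρ, S, θ, B, T, fun _ => hE, fun h => absurd h (by norm_num)⟩)
  have W : C10 P r lo hi e 25 w ρ S θ B := ⟨K, hT⟩
  have I := W.ladder ⟨t⟩ (N := 25) (by norm_num) (by norm_num) le_rfl (hJ w ρ S θ B W)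
  have h1 := I.w_ge t
  have h2 := (W.td t).w_le
  exact (hw t D).1 rfl (by omega)

/-- **The third stage: (C).** -/
theorem no_cx {lo hi : Tops P → ℕ → ℕ} {e : Tops P → ℕ → ℕ → P} (K : Sm.Ctx P r 10 lo hi e)
    (h5 : ∀ t, WordD 10 5 wa5 (lo t) (hi t) → No5 (e t) ∧ ExA (e t))
    (hJ : ∀ (w : Tops P → ℕ) (ρ : Tops P → ℤ) (S : Tops P → Finset P) (θ : Tops P → P → ℕ)
      (B : Tops P → P → Prop), C10 P r lo hi e 33 w ρ S θ B → ∀ n, 5 ≤ n → n < 31 →
      (∀ t, n ≤ w t) → JnOK P S θ n (sg n)) (t : Tops P)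
    (hS : StairShape 10 (lo t) (hi t)) (h0 : lo t 10 = 0) {z : P} (hz5 : z ⋖ e t 10 5)
    (hz0 : z ⋖ e t 10 0) : False := by
  have hd : ∀ t, ¬ WordD 10 4 w4d (lo t) (hi t) := no_w4d K.gt K.comp K.shape
  choose w ρ S θ B hT hw hx using fun t : Tops P => exists_td (K := 33) (by norm_num)
    (by norm_num) K.gt (K.comp t) (K.shape t) (hd t) (fun W => by
      obtain ⟨S, θ, B, T⟩ := tdLa5B K.gt (K.comp t) W (h5 t W).1 (h5 t W).2
      exact ⟨_, _, _, _, _, T, fun h => absurd h (by norm_num),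
        fun h => absurd h (by norm_num)⟩)
  have W : C10 P r lo hi e 33 w ρ S θ B := ⟨K, hT⟩
  have I := W.ladder ⟨t⟩ (N := 31) (by norm_num) (by norm_num) (by norm_num) (hJ w ρ S θ B W)
  have H := K.gt.H
  obtain ⟨hzS, hcx⟩ := hx t hS h0 z hz5 hz0
  have hcx' := hcx
  obtain ⟨Nc, co, F, E, C, hb, hF⟩ := hcx
  have hFt := C.chart.le_t F C.F_mem
  have hzR : z ∈ unnat S := by
    rw [mem_unnat]
    intro s hs
    have h1 := W.sys.topOf_eq (W.sys.up s z hs F C.zF.1.le)
    have h2 := W.top_of hFt C.lev_F.le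
    have h3 : s = t := h1.symm.trans h2
    subst h3
    exact hzS hs
  have hzb : z ∈ bdR (unnat S) := by
    classical
    unfold bdR
    rw [mem_filter]
    exact ⟨hzR, F, W.nat10 C.lev_F.le, C.zF⟩
  have h1 : z ∈ CX lo hi S θ := mem_CX.mpr ⟨hzb, IsC.two W hzb hcx', t, hcx'⟩
  rw [I.cx (by norm_num)] at h1
  exact absurd h1 (Finset.notMem_empty _)

/-- **HCC for `m = 5`**: no joins of the level 11, no (C) at the level 10. -/
theorem level10 {lo hi : Tops P → ℕ → ℕ} {e : Tops P → ℕ → ℕ → P} (K : Sm.Ctx P r 10 lo hi e)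
    (hJ : ∀ z : P, lev z = 11 → ¬ Hul.Jn z) (t : Tops P)
    (hS : StairShape 10 (lo t) (hi t)) (h0 : lo t 10 = 0) {z : P} (hz5 : z ⋖ e t 10 5)
    (hz0 : z ⋖ e t 10 0) : False := by
  have h5 := no5_all K (fun _ _ _ _ _ _ _ _ _ _ => jnOK_of_no hJ)
  have hA := exA_all K h5 (fun _ _ _ _ _ _ _ _ _ _ => jnOK_of_no hJ)
  exact no_cx K (fun t D => ⟨h5 t D, hA t D⟩) (fun _ _ _ _ _ _ _ _ _ _ => jnOK_of_no hJ) t hS
    h0 hz5 hz0

end Pool.Agent.GaussPoset.J10
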